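import Pool.Agent.Lib.MP_7aba48_co_TF.Defs

/-!
# Connected sets: surplus, recolouring of one vertex, non-cut vertices
-/

namespace Pool.Agent.Lib.MP_7aba48_co_TF

open Finset Pool.Agent.Lib.MP_7aba48_co_G5

universe u

variable {V : Type u} [DecidableEq V] {G : SimpleGraph V}

/-- A connected set can be coloured from lists at least as large as the degrees, if one of them is
larger. -/
theorem Conn.lcol {α : Type*} [DecidableEq α] [Nonempty α] {D : Finset V} (h : Conn G D)
    (L : V → Finset α) (hL : ∀ v ∈ D, dg G v D ≤ (L v).card)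
    (hs : ∃ v ∈ D, dg G v D < (L v).card) :
    ∃ f : V → α, (∀ v ∈ D, f v ∈ L v) ∧ ∀ v ∈ D, ∀ w ∈ D, G.Adj v w → f v ≠ f w := by
  by_contra hcon
  obtain ⟨D', hc, ht, -⟩ := exists_tight_comp L hL hcon
  have h1 : D' = D := h.2 D' hc.1 hc.2.1 hc.2.2.1
  obtain ⟨v, hv, hlt⟩ := hs
  rw [← h1] at hv
  exact absurd (ht v hv) hlt.ne

omit [DecidableEq V] in
private theorem base_card (v : V) (N : Finset V) (φ : V → ZMod 3) :
    (((nb G v N).image φ)ᶜ).card = 3 - ((nb G v N).image φ).card := by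
  rw [card_compl, ZMod.card]

private theorem base_res {D N : Finset V} (h : Blk G D N) (φ : V → ZMod 3)
    (hs : ∃ v ∈ D, dg G v D < (((nb G v N).image φ)ᶜ).card) : Res G D N φ := by
  obtain ⟨f, h1, h2⟩ := h.conn.lcol (fun v => ((nb G v N).image φ)ᶜ) (fun v hv => by
    have h3 := h.deg v hv
    have h4 : ((nb G v N).image φ).card ≤ dg G v N := card_image_le
    rw [base_card]
    omega) hs
  refine ⟨f, fun v hv t ht hvt he => ?_, h2⟩
  have h3 := h1 v hv
  rw [mem_compl] at h3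
  exact h3 (mem_image.2 ⟨t, mem_nb.2 ⟨ht, hvt⟩, he.symm⟩)

/-- A vertex with fewer than three neighbours in `D ∪ N` makes every `φ` good. -/
theorem Blk.res_of_lt {D N : Finset V} (h : Blk G D N) {v : V} (hv : v ∈ D)
    (hlt : dg G v D + dg G v N < 3) (φ : V → ZMod 3) : Res G D N φ := by
  refine base_res h φ ⟨v, hv, ?_⟩
  have h4 : ((nb G v N).image φ).card ≤ dg G v N := card_image_le
  rw [base_card]
  omega

/-- Two neighbours in `N` of the same vertex and with the same colour make `φ` good. -/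
theorem Blk.res_of_eq {D N : Finset V} (h : Blk G D N) {v s t : V} (hv : v ∈ D) (hs : s ∈ N)
    (ht : t ∈ N) (hst : s ≠ t) (hvs : G.Adj v s) (hvt : G.Adj v t) {φ : V → ZMod 3}
    (he : φ s = φ t) : Res G D N φ := by
  refine base_res h φ ⟨v, hv, ?_⟩
  have h1 : (nb G v N).image φ ⊆ ((nb G v N).erase t).image φ := by
    intro c hc
    obtain ⟨x, hx, rfl⟩ := mem_image.1 hc
    by_cases hxt : x = t
    · rw [hxt, ← he]
      exact mem_image_of_mem _ (mem_erase.2 ⟨hst, mem_nb.2 ⟨hs, hvs⟩⟩)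
    · exact mem_image_of_mem _ (mem_erase.2 ⟨hxt, hx⟩)
  have h2 : ((nb G v N).image φ).card ≤ dg G v N - 1 := by
    refine (card_le_card h1).trans (card_image_le.trans (le_of_eq ?_))
    exact card_erase_of_mem (mem_nb.2 ⟨ht, hvt⟩)
  have h3 := h.deg v hv
  have h4 : 1 ≤ dg G v N := card_pos.2 ⟨t, mem_nb.2 ⟨ht, hvt⟩⟩
  rw [base_card]
  omega

/-- If some `φ` is bad, all vertices have exactly three neighbours in `D ∪ N`. -/
theorem Blk.deg_eq {D N : Finset V} (h : Blk G D N) {φ : V → ZMod 3} (hφ : ¬ Res G D N φ)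
    {v : V} (hv : v ∈ D) : dg G v D + dg G v N = 3 := by
  by_contra hne
  exact hφ (h.res_of_lt hv (lt_of_le_of_ne (h.deg v hv) hne) φ)

/-- Colouring one vertex of `D` first. -/
theorem bad_erase {D N : Finset V} (hDN : Disjoint D N) {φ : V → ZMod 3} (hφ : ¬ Res G D N φ)
    {v : V} (hv : v ∈ D) {c : ZMod 3} (hc : ∀ t ∈ N, G.Adj v t → c ≠ φ t) :
    ¬ Res G (D.erase v) (insert v N) (Function.update φ v c) := by
  rintro ⟨f, h1, h2⟩
  have hvN : ∀ t ∈ N, t ≠ v := by
    rintro t ht rfl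
    exact disjoint_left.1 hDN hv ht
  have key : ∀ w ∈ D, w ≠ v → G.Adj w v → f w ≠ c := by
    intro w hw hwv hadj
    have h3 := h1 w (mem_erase.2 ⟨hwv, hw⟩) v (mem_insert_self v N) hadj
    rwa [Function.update_self] at h3
  refine hφ ⟨Function.update f v c, fun w hw t ht hwt => ?_, fun w hw u hu hwu => ?_⟩
  · by_cases hwv : w = v
    · subst hwv
      rw [Function.update_self]
      exact hc t ht hwt
    · rw [Function.update_of_ne hwv]
      have h3 := h1 w (mem_erase.2 ⟨hwv, hw⟩) t (mem_insert_of_mem ht) hwt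
      rwa [Function.update_of_ne (hvN t ht)] at h3
  · by_cases hwv : w = v
    · subst hwv
      have huw : u ≠ w := hwu.ne.symm
      rw [Function.update_self, Function.update_of_ne huw]
      exact (key u hu huw hwu.symm).symm
    · by_cases huv : u = v
      · subst huv
        rw [Function.update_self, Function.update_of_ne hwv]
        exact key w hw hwv hwu
      · rw [Function.update_of_ne hwv, Function.update_of_ne huv]
        exact h2 w (mem_erase.2 ⟨hwv, hw⟩) u (mem_erase.2 ⟨huv, hu⟩) hwu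

private theorem base_dg {D N : Finset V} {v : V} (hv : v ∈ D) (w : V) :
    dg G w (D.erase v) + dg G w (insert v N) ≤ dg G w D + dg G w N := by
  by_cases h : G.Adj w v
  · have h1 : nb G w (D.erase v) ⊆ (nb G w D).erase v := by
      intro x hx
      rw [mem_nb, mem_erase] at hx
      exact mem_erase.2 ⟨hx.1.1, mem_nb.2 ⟨hx.1.2, hx.2⟩⟩
    have h2 : nb G w (insert v N) ⊆ insert v (nb G w N) := by
      intro x hx
      rw [mem_nb, mem_insert] at hx
      rcases hx.1 with h3 | h3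
      · exact mem_insert.2 (Or.inl h3)
      · exact mem_insert.2 (Or.inr (mem_nb.2 ⟨h3, hx.2⟩))
    have h3 := card_le_card h1
    have h4 := (card_le_card h2).trans (card_insert_le _ _)
    have h5 : v ∈ nb G w D := mem_nb.2 ⟨hv, h⟩
    have h6 := card_pos.2 ⟨v, h5⟩
    rw [card_erase_of_mem h5] at h3
    unfold dg
    omega
  · have h1 : nb G w (D.erase v) ⊆ nb G w D := by
      intro x hx
      rw [mem_nb, mem_erase] at hx
      exact mem_nb.2 ⟨hx.1.2, hx.2⟩
    have h2 : nb G w (insert v N) ⊆ nb G w N := by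
      intro x hx
      rw [mem_nb, mem_insert] at hx
      rcases hx.1 with h3 | h3
      · exact absurd (h3 ▸ hx.2) h
      · exact mem_nb.2 ⟨h3, hx.2⟩
    exact add_le_add (card_le_card h1) (card_le_card h2)

/-- Removing a vertex which does not disconnect `D`. -/
theorem Blk.erase {D N : Finset V} (h : Blk G D N) {v : V} (hv : v ∈ D)
    (hc : Conn G (D.erase v)) : Blk G (D.erase v) (insert v N) := by
  refine ⟨hc, ?_, fun w hw => ?_⟩
  · rw [disjoint_left]
    intro x hx hx'
    rcases mem_insert.1 hx' with h1 | h1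
    · exact (mem_erase.1 hx).1 h1
    · exact disjoint_left.1 h.disj (mem_erase.1 hx).2 h1
  · exact (base_dg hv w).trans (h.deg w (mem_erase.1 hw).2)

/-- Every vertex of a connected set with at least two vertices has a neighbour in it. -/
theorem Conn.one_le_dg {D : Finset V} (h : Conn G D) (h2 : 2 ≤ D.card) {v : V} (hv : v ∈ D) :
    1 ≤ dg G v D := by
  by_contra hcon
  have h0 : nb G v D = ∅ := card_eq_zero.1 (by unfold dg at hcon; omega)
  have h1 : {v} = D := h.2 {v} (singleton_subset_iff.2 hv) (singleton_nonempty v) (by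
    intro w hw u hu hwu
    rw [mem_singleton] at hw
    subst hw
    have h3 : u ∈ nb G w D := mem_nb.2 ⟨hu, hwu⟩
    rw [h0] at h3
    exact absurd h3 (notMem_empty u))
  rw [← h1, card_singleton] at h2
  omega

/-- If `K` is closed in `D.erase x`, `k ∈ K` and no nonempty subset of `K.erase k` is closed in
`D.erase k`, then `D.erase k` is connected. -/
theorem conn_erase_of_min {D : Finset V} (h : Conn G D) {x : V} (hx : x ∈ D) {K : Finset V}
    (hK : K ⊆ D.erase x) (hcl : ∀ w ∈ K, ∀ u ∈ D.erase x, G.Adj w u → u ∈ K) {k : V} (hk : k ∈ K)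
    (hmin : ∀ Z ⊆ K.erase k, Z.Nonempty → ¬ ∀ w ∈ Z, ∀ u ∈ D.erase k, G.Adj w u → u ∈ Z) :
    Conn G (D.erase k) := by
  have hkx : k ≠ x := (mem_erase.1 (hK hk)).1
  have hxk : x ∈ D.erase k := mem_erase.2 ⟨hkx.symm, hx⟩
  refine ⟨⟨x, hxk⟩, fun X hX hXne hXc => ?_⟩
  -- no nonempty closed set avoids `x`
  have key : ∀ Z ⊆ D.erase k, Z.Nonempty → x ∉ Z →
      ¬ ∀ w ∈ Z, ∀ u ∈ D.erase k, G.Adj w u → u ∈ Z := by
    intro Z hZ hZne hxZ hZc
    have hsub : Z ⊆ K := by
      by_contra hcon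
      have hne : (Z \ K).Nonempty := by
        rw [sdiff_nonempty]
        exact hcon
      have h1 : Z \ K = D := by
        refine h.2 _ (fun z hz => mem_of_mem_erase (hZ (mem_sdiff.1 hz).1)) hne ?_
        intro w hw u hu hwu
        rw [mem_sdiff] at hw ⊢
        have hwx : w ∈ D.erase x := mem_erase.2
          ⟨fun e => hxZ (e ▸ hw.1), mem_of_mem_erase (hZ hw.1)⟩
        have huK : u ∉ K := fun huK => hw.2 (hcl u huK w hwx hwu.symm)
        have huk : u ≠ k := fun e => huK (e ▸ hk)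
        exact ⟨hZc w hw.1 u (mem_erase.2 ⟨huk, hu⟩) hwu, huK⟩
      have h2 : x ∈ Z \ K := by
        rw [h1]
        exact hx
      exact hxZ (mem_sdiff.1 h2).1
    exact hmin Z (fun z hz => mem_erase.2 ⟨(mem_erase.1 (hZ hz)).1, hsub hz⟩) hZne hZc
  by_contra hne
  have hYne : ((D.erase k) \ X).Nonempty := by
    rw [sdiff_nonempty]
    exact fun hsub => hne (Subset.antisymm hX hsub)
  have hYc : ∀ w ∈ (D.erase k) \ X, ∀ u ∈ D.erase k, G.Adj w u → u ∈ (D.erase k) \ X := by
    intro w hw u hu hwu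
    rw [mem_sdiff] at hw ⊢
    exact ⟨hu, fun huX => hw.2 (hXc u huX w hw.1 hwu.symm)⟩
  by_cases hxX : x ∈ X
  · exact key _ sdiff_subset hYne (fun hxY => (mem_sdiff.1 hxY).2 hxX) hYc
  · exact key X hX hXne hxX hXc

/-- There is a vertex which does not disconnect. -/
theorem Conn.exists_noncut {D : Finset V} (h : Conn G D) (h2 : 2 ≤ D.card) :
    ∃ v ∈ D, Conn G (D.erase v) := by
  classical
  have hex : ∃ n : ℕ, ∃ x ∈ D, ∃ K ⊆ D.erase x, K.Nonempty ∧
      (∀ w ∈ K, ∀ u ∈ D.erase x, G.Adj w u → u ∈ K) ∧ K.card = n := by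
    obtain ⟨x, hx⟩ := h.1
    refine ⟨_, x, hx, D.erase x, Subset.rfl, ?_, fun _ _ u hu _ => hu, rfl⟩
    rw [← card_pos, card_erase_of_mem hx]
    omega
  obtain ⟨x, hx, K, hK, hKne, hcl, hcard⟩ := Nat.find_spec hex
  obtain ⟨k, hk⟩ := hKne
  have hkD : k ∈ D := mem_of_mem_erase (hK hk)
  refine ⟨k, hkD, conn_erase_of_min h hx hK hcl hk fun Z hZ hZne hZc => ?_⟩
  have h1 : Z.card < Nat.find hex := by
    rw [← hcard]
    refine (card_le_card hZ).trans_lt ?_
    rw [card_erase_of_mem hk]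
    exact Nat.sub_lt (card_pos.2 ⟨k, hk⟩) one_pos
  exact Nat.find_min hex h1 ⟨k, hkD, Z, fun z hz => mem_erase.2 ⟨(mem_erase.1 (hZ hz)).1,
    mem_of_mem_erase (hK (mem_of_mem_erase (hZ hz)))⟩, hZne, hZc, rfl⟩

/-- For adjacent vertices `u`, `v` with one neighbour `s`, `t` in `N` each, `v` not a cut vertex,
every bad `φ` has the same value at `s` and `t`. -/
theorem Blk.eq_of_adj {D N : Finset V} (h : Blk G D N) {φ : V → ZMod 3} (hφ : ¬ Res G D N φ)
    {u v s t : V} (hu : u ∈ D) (hv : v ∈ D) (hc : Conn G (D.erase v)) (huv : G.Adj u v)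
    (hv1 : dg G v N = 1) (hs : s ∈ N) (ht : t ∈ N) (hus : G.Adj u s)
    (hvt : G.Adj v t) : φ s = φ t := by
  by_contra hne
  have hvN : v ∉ N := disjoint_left.1 h.disj hv
  have hbad := bad_erase h.disj hφ hv (c := φ s) (by
    intro t' ht' hvt'
    have h1 : t' = t := by
      obtain ⟨y, hy⟩ := card_eq_one.1 hv1
      have h2 : t' ∈ nb G v N := mem_nb.2 ⟨ht', hvt'⟩
      have h3 : t ∈ nb G v N := mem_nb.2 ⟨ht, hvt⟩
      rw [hy, mem_singleton] at h2 h3
      rw [h2, h3]
    rw [h1]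
    exact hne)
  have hsv : s ≠ v := fun e => hvN (e ▸ hs)
  refine hbad ((h.erase hv hc).res_of_eq (v := u) (mem_erase.2 ⟨huv.ne, hu⟩)
    (mem_insert_of_mem hs) (mem_insert_self v N) hsv hus huv ?_)
  rw [Function.update_of_ne hsv, Function.update_self]

end Pool.Agent.Lib.MP_7aba48_co_TF
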