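import Pool.Agent.Lib.MP_7aba48_co_G5.Greedy

/-!
# Three colours around an independent set: basic notions

Vertex sets are finsets; `dg`, `nb`, `Comp`, `NoTri` are those of `MP_7aba48_co_G5`.
Throughout, `N` (or `T`) is a set of vertices which are coloured by `φ`, and `D` is a connected
set which is to be coloured after it.
-/

namespace Pool.Agent.Lib.MP_7aba48_co_TF

open Finset Pool.Agent.Lib.MP_7aba48_co_G5

universe u

variable {V : Type u}

/-- The graph induced by `S` is 3-colourable. -/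
def Col3 (G : SimpleGraph V) (S : Finset V) : Prop :=
  ∃ f : V → ZMod 3, ∀ v ∈ S, ∀ w ∈ S, G.Adj v w → f v ≠ f w

/-- `D` has a proper 3-colouring in which no vertex has a colour given by `φ` to one of its
neighbours in `N`. -/
def Res (G : SimpleGraph V) (D N : Finset V) (φ : V → ZMod 3) : Prop :=
  ∃ f : V → ZMod 3, (∀ v ∈ D, ∀ t ∈ N, G.Adj v t → f v ≠ φ t) ∧
    ∀ v ∈ D, ∀ w ∈ D, G.Adj v w → f v ≠ f w

/-- Connected nonempty sets. -/
def Conn (G : SimpleGraph V) (D : Finset V) : Prop :=
  D.Nonempty ∧ ∀ X ⊆ D, X.Nonempty → (∀ v ∈ X, ∀ w ∈ D, G.Adj v w → w ∈ X) → X = D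

/-- The vertices of `N` with a neighbour in `D`. -/
noncomputable def nbs (G : SimpleGraph V) (D N : Finset V) : Finset V := by
  classical exact N.filter (fun t => ∃ v ∈ D, G.Adj v t)

@[simp] lemma mem_nbs {G : SimpleGraph V} {D N : Finset V} {t : V} :
    t ∈ nbs G D N ↔ t ∈ N ∧ ∃ v ∈ D, G.Adj v t := by
  classical
  unfold nbs
  simp

/-- A connected set `D`, disjoint from `N`, whose vertices have at most three neighbours in
`D` and `N` together. -/
structure Blk (G : SimpleGraph V) (D N : Finset V) : Prop where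
  conn : Conn G D
  disj : Disjoint D N
  deg : ∀ v ∈ D, dg G v D + dg G v N ≤ 3

/-- Valid forms: linear forms supported by the neighbours of `D` in `N` which vanish at all
bad `φ`, or at no bad `φ`. -/
def Val (G : SimpleGraph V) [Fintype V] (D N : Finset V) : Set (V → ZMod 3) :=
  {l | (∀ t, t ∉ nbs G D N → l t = 0) ∧
    ((∀ φ : V → ZMod 3, ¬ Res G D N φ → ∑ t, l t * φ t = 0) ∨
      ∀ φ : V → ZMod 3, ¬ Res G D N φ → ∑ t, l t * φ t ≠ 0)}

/-- The number of edges between `σ` and `X`. -/
noncomputable def ed (G : SimpleGraph V) (σ X : Finset V) : ℕ := ∑ v ∈ σ, dg G v X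

/-- The loss of a supplier. -/
def loss (σ : Finset V) : ℕ := if σ.card = 1 then 1 else 3

/-- Suppliers of `D`: single vertices, and sets such that every bad `φ` is constant on their
neighbours in `N`. -/
def Sup (G : SimpleGraph V) (D N σ : Finset V) : Prop :=
  σ ⊆ D ∧ σ.Nonempty ∧ (σ.card = 1 ∨ ∀ φ : V → ZMod 3, ¬ Res G D N φ →
    ∀ s ∈ nbs G σ N, ∀ t ∈ nbs G σ N, φ s = φ t)

/-- A minimal set `S` which is not 3-colourable, with an independent set `T` of vertices of degree
at most four, all other degrees being at most three. -/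
structure Crit (G : SimpleGraph V) (S T : Finset V) : Prop where
  sub : T ⊆ S
  ne : T.Nonempty
  ind : ∀ s ∈ T, ∀ t ∈ T, ¬ G.Adj s t
  degT : ∀ t ∈ T, dg G t S ≤ 4
  deg : ∀ v ∈ S, v ∉ T → dg G v S ≤ 3
  bad : ¬ Col3 G S
  col : ∀ X, X ⊂ S → Col3 G X

end Pool.Agent.Lib.MP_7aba48_co_TF
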