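import Pool.Agent.Lib.MP_7aba48_co_TF.Forms

/-!
# Ends of connected sets with a bad `φ`
-/

namespace Pool.Agent.Lib.MP_7aba48_co_TF

open Finset Pool.Agent.Lib.MP_7aba48_co_G5

universe u

variable {V : Type u} [DecidableEq V] [Fintype V] {G : SimpleGraph V}

private theorem ends_col : ∀ α β : ZMod 3, ∃ A B : ZMod 3,
    A ≠ β ∧ A ≠ α ∧ A ≠ B ∧ B ≠ α := by
  decide

omit [DecidableEq V] [Fintype V] in
private theorem ends_dg_mono {v : V} {S T : Finset V} (h : S ⊆ T) : dg G v S ≤ dg G v T := by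
  refine card_le_card fun w hw => ?_
  rw [mem_nb] at hw ⊢
  exact ⟨h hw.1, hw.2⟩

omit [Fintype V] in
/-- If `K` is closed in `D.erase x` and `x ∉ K` then `D \ K` is connected. -/
private theorem ends_conn {D K : Finset V} (h : Conn G D) {x : V} (hx : x ∈ D)
    (hKD : K ⊆ D.erase x) (hcl : ∀ w ∈ K, ∀ u ∈ D.erase x, G.Adj w u → u ∈ K) :
    Conn G (D \ K) := by
  have hxK : x ∉ K := fun hxK => (mem_erase.1 (hKD hxK)).1 rfl
  have key : ∀ X ⊆ D \ K, X.Nonempty → (∀ v ∈ X, ∀ w ∈ D \ K, G.Adj v w → w ∈ X) → x ∈ X := by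
    intro X hX hXne hXc
    by_contra hxX
    have h1 : X = D := h.2 X (fun v hv => (mem_sdiff.1 (hX hv)).1) hXne (by
      intro v hv w hw hvw
      have hv1 := mem_sdiff.1 (hX hv)
      have hwK : w ∉ K := by
        intro hwK
        exact hv1.2 (hcl w hwK v (mem_erase.2 ⟨fun e => hxX (e ▸ hv), hv1.1⟩) hvw.symm)
      exact hXc v hv w (mem_sdiff.2 ⟨hw, hwK⟩) hvw)
    rw [h1] at hxX
    exact hxX hx
  refine ⟨⟨x, mem_sdiff.2 ⟨hx, hxK⟩⟩, fun X hX hXne hXc => ?_⟩
  have hxX := key X hX hXne hXc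
  by_contra hne
  have hYne : ((D \ K) \ X).Nonempty := by
    rw [sdiff_nonempty]
    exact fun hsub => hne (Subset.antisymm hX hsub)
  have hxY := key ((D \ K) \ X) sdiff_subset hYne (by
    intro w hw u hu hwu
    rw [mem_sdiff] at hw ⊢
    exact ⟨hu, fun huX => hw.2 (hXc u huX w hw.1 hwu.symm)⟩)
  exact (mem_sdiff.1 hxY).2 hxX

omit [Fintype V] in
/-- A path `a`, `b`, `c` hanging on `x` makes every `φ` good. -/
private theorem ends_three {D N K : Finset V} (h : Blk G D N) {x a b c : V} (hx : x ∈ D)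
    (hK : ∀ w, w ∈ K ↔ w = a ∨ w = b ∨ w = c) (hKD : K ⊆ D.erase x)
    (hcl : ∀ w ∈ K, ∀ u ∈ D.erase x, G.Adj w u → u ∈ K) (hcb : Conn G (D.erase b))
    (hb1 : dg G b N = 1) (hab : G.Adj a b) (hbc : G.Adj b c) (hac : ¬ G.Adj a c)
    (hbx : ¬ G.Adj b x) (hax : G.Adj a x) (φ : V → ZMod 3) : Res G D N φ := by
  by_contra hφ
  have hxK : x ∉ K := fun hxK => (mem_erase.1 (hKD hxK)).1 rfl
  have haK : a ∈ K := (hK a).2 (Or.inl rfl)
  have hbK : b ∈ K := (hK b).2 (Or.inr (Or.inl rfl))
  have hcK : c ∈ K := (hK c).2 (Or.inr (Or.inr rfl))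
  have hsub : K ⊆ D := fun w hw => mem_of_mem_erase (hKD hw)
  -- the common colour of the outer neighbours
  obtain ⟨s, hs⟩ := card_eq_one.1 hb1
  have hsb : s ∈ N ∧ G.Adj b s := by
    have : s ∈ nb G b N := by
      rw [hs]
      exact mem_singleton_self s
    exact mem_nb.1 this
  have hα : ∀ w ∈ K, ∀ t ∈ N, G.Adj w t → φ t = φ s := by
    intro w hw t ht hwt
    rcases (hK w).1 hw with rfl | rfl | rfl
    · exact h.eq_of_adj hφ (hsub hw) (hsub hbK) hcb hab hb1 ht hsb.1 hwt hsb.2
    · have h1 : t ∈ nb G w N := mem_nb.2 ⟨ht, hwt⟩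
      rw [hs, mem_singleton] at h1
      rw [h1]
    · exact h.eq_of_adj hφ (hsub hw) (hsub hbK) hcb hbc.symm hb1 ht hsb.1 hwt hsb.2
  -- colour the rest
  have hB : Blk G (D \ K) N := by
    refine ⟨ends_conn h.conn hx hKD hcl, disjoint_of_subset_left sdiff_subset h.disj,
      fun v hv => ?_⟩
    have h1 := h.deg v (mem_sdiff.1 hv).1
    have h2 : dg G v (D \ K) ≤ dg G v D := ends_dg_mono sdiff_subset
    omega
  have hlt : dg G x (D \ K) < dg G x D := by
    refine card_lt_card ⟨fun w hw => ?_, fun hss => ?_⟩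
    · rw [mem_nb] at hw ⊢
      exact ⟨(mem_sdiff.1 hw.1).1, hw.2⟩
    · have h1 : a ∈ nb G x (D \ K) := hss (mem_nb.2 ⟨hsub haK, hax.symm⟩)
      exact (mem_sdiff.1 (mem_nb.1 h1).1).2 haK
  obtain ⟨f, hf1, hf2⟩ := hB.res_of_lt (mem_sdiff.2 ⟨hx, hxK⟩) (by
    have h1 := h.deg x hx
    omega) φ
  obtain ⟨A, B, hA1, hA2, hAB, hB2⟩ := ends_col (φ s) (f x)
  have hab' : a ≠ b := hab.ne
  have hcb' : c ≠ b := hbc.ne.symm
  refine hφ ⟨fun w => if w = b then B else if w ∈ K then A else f w, ?_, ?_⟩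
  · intro v hv t ht hvt
    by_cases hvb : v = b
    · rw [hvb] at hvt
      simp only [hvb, if_true]
      rw [hα b hbK t ht hvt]
      exact hB2
    · by_cases hvK : v ∈ K
      · simp only [hvb, hvK, if_false, if_true]
        rw [hα v hvK t ht hvt]
        exact hA2
      · simp only [hvb, hvK, if_false]
        exact hf1 v (mem_sdiff.2 ⟨hv, hvK⟩) t ht hvt
  · have key : ∀ v ∈ K, ∀ w ∈ D, G.Adj v w →
        (if v = b then B else if v ∈ K then A else f v) ≠
          if w = b then B else if w ∈ K then A else f w := by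
      intro v hv w hw hvw
      have hw1 : w = x ∨ w ∈ K := by
        by_cases hwx : w = x
        · exact Or.inl hwx
        · exact Or.inr (hcl v hv w (mem_erase.2 ⟨hwx, hw⟩) hvw)
      have hxb : x ≠ b := fun e => hxK (e ▸ hbK)
      by_cases hvb : v = b
      · rw [hvb] at hvw
        rcases hw1 with rfl | hwK
        · exact absurd hvw hbx
        · have hwb : w ≠ b := hvw.ne.symm
          simp only [hvb, hwb, hwK, if_false, if_true]
          exact hAB.symm
      · rcases hw1 with rfl | hwK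
        · simp only [hvb, hv, hxb, hxK, if_false, if_true]
          exact hA1
        · have hwb : w = b := by
            rcases (hK v).1 hv with rfl | rfl | rfl
            · rcases (hK w).1 hwK with rfl | rfl | rfl
              · exact absurd rfl hvw.ne
              · rfl
              · exact absurd hvw hac
            · exact absurd rfl hvb
            · rcases (hK w).1 hwK with rfl | rfl | rfl
              · exact absurd hvw.symm hac
              · rfl
              · exact absurd rfl hvw.ne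
          simp only [hvb, hwb, hv, if_false, if_true]
          exact hAB
    intro v hv w hw hvw
    by_cases hvK : v ∈ K
    · exact key v hvK w hw hvw
    · by_cases hwK : w ∈ K
      · exact (key w hwK v hv hvw.symm).symm
      · have hvb : v ≠ b := fun e => hvK (e ▸ hbK)
        have hwb : w ≠ b := fun e => hwK (e ▸ hbK)
        simp only [hvb, hvK, hwb, hwK, if_false]
        exact hf2 v (mem_sdiff.2 ⟨hv, hvK⟩) w (mem_sdiff.2 ⟨hw, hwK⟩) hvw

omit [Fintype V] in
/-- Degree two inside `{x, y}` forces both adjacencies. -/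
private theorem ends_two {D : Finset V} {v x y : V} (h2 : dg G v D = 2)
    (hs : ∀ w ∈ D, G.Adj v w → w = x ∨ w = y) : G.Adj v x ∧ G.Adj v y := by
  have hsub : nb G v D ⊆ {x, y} := by
    intro w hw
    rw [mem_nb] at hw
    rcases hs w hw.1 hw.2 with rfl | rfl
    · exact mem_insert_self _ _
    · exact mem_insert_of_mem (mem_singleton_self _)
  have heq : nb G v D = {x, y} :=
    eq_of_subset_of_card_le hsub (by
      have h3 : (nb G v D).card = 2 := h2
      rw [h3]
      exact card_le_two)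
  constructor
  · have : x ∈ nb G v D := by
      rw [heq]
      exact mem_insert_self _ _
    exact (mem_nb.1 this).2
  · have : y ∈ nb G v D := by
      rw [heq]
      exact mem_insert_of_mem (mem_singleton_self _)
    exact (mem_nb.1 this).2

omit [Fintype V] in
/-- Degree two and neighbours among `x`, `y`, `z`. -/
private theorem ends_among {D : Finset V} {v x y z : V} (h2 : dg G v D = 2)
    (hs : ∀ w ∈ D, G.Adj v w → w = x ∨ w = y ∨ w = z) :
    (¬ G.Adj v x → G.Adj v y ∧ G.Adj v z) ∧ (¬ G.Adj v y → G.Adj v x ∧ G.Adj v z) ∧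
      (¬ G.Adj v z → G.Adj v x ∧ G.Adj v y) := by
  refine ⟨fun hn => ends_two h2 fun w hw hvw => ?_, fun hn => ends_two h2 fun w hw hvw => ?_,
    fun hn => ends_two h2 fun w hw hvw => ?_⟩
  · rcases hs w hw hvw with rfl | h | h
    · exact absurd hvw hn
    · exact Or.inl h
    · exact Or.inr h
  · rcases hs w hw hvw with h | rfl | h
    · exact Or.inl h
    · exact absurd hvw hn
    · exact Or.inr h
  · rcases hs w hw hvw with h | h | rfl
    · exact Or.inl h
    · exact Or.inr h
    · exact absurd hvw hn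

omit [Fintype V] in
/-- Degree two excludes three neighbours. -/
private theorem ends_not_three {D : Finset V} {v x y z : V} (h2 : dg G v D = 2)
    (hx : x ∈ D) (hy : y ∈ D) (hz : z ∈ D) (hxy : x ≠ y) (hxz : x ≠ z) (hyz : y ≠ z)
    (h : G.Adj v x) (h' : G.Adj v y) : ¬ G.Adj v z := by
  intro h''
  have hsub : ({x, y, z} : Finset V) ⊆ nb G v D := by
    intro w hw
    rw [mem_insert, mem_insert, mem_singleton] at hw
    rcases hw with rfl | rfl | rfl
    · exact mem_nb.2 ⟨hx, h⟩
    · exact mem_nb.2 ⟨hy, h'⟩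
    · exact mem_nb.2 ⟨hz, h''⟩
  have h3 := card_le_card hsub
  have h4 : (nb G v D).card = 2 := h2
  have h5 : ({x, y, z} : Finset V).card = 3 := card_eq_three.2 ⟨x, y, z, hxy, hxz, hyz, rfl⟩
  omega

/-- A leaf, or a connected set of at least four vertices of degree two which are not cut vertices,
avoiding a given vertex `r`. -/
theorem exists_end (hT : NoTri G) {D N : Finset V} (h : Blk G D N)
    (hne : (nbs G D N).Nonempty) (hbad : ∃ φ : V → ZMod 3, ¬ Res G D N φ) (h2 : 2 ≤ D.card)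
    {r : V} (hr : r ∈ D) :
    (∃ v ∈ D, v ≠ r ∧ dg G v D = 1) ∨
      ∃ K ⊆ D, r ∉ K ∧ 4 ≤ K.card ∧ Conn G K ∧ ∀ k ∈ K, Conn G (D.erase k) ∧ dg G k D = 2 := by
  classical
  have hex : ∃ n : ℕ, ∃ x ∈ D, ∃ K ⊆ D.erase x, K.Nonempty ∧ r ∉ K ∧
      (∀ w ∈ K, ∀ u ∈ D.erase x, G.Adj w u → u ∈ K) ∧ K.card = n := by
    refine ⟨_, r, hr, D.erase r, Subset.rfl, ?_, notMem_erase r D, fun _ _ u hu _ => hu, rfl⟩
    rw [← card_pos, card_erase_of_mem hr]
    omega
  obtain ⟨x, hx, K, hKD, hKne, hrK, hcl, hcard⟩ := Nat.find_spec hex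
  have hmin : ∀ y ∈ D, ∀ Z ⊆ D.erase y, Z.Nonempty → r ∉ Z →
      (∀ w ∈ Z, ∀ u ∈ D.erase y, G.Adj w u → u ∈ Z) → K.card ≤ Z.card := by
    intro y hy Z hZ hZne hrZ hZc
    rw [hcard]
    exact Nat.find_min' hex ⟨y, hy, Z, hZ, hZne, hrZ, hZc, rfl⟩
  have hsub : K ⊆ D := fun w hw => mem_of_mem_erase (hKD hw)
  have hxK : x ∉ K := fun hxK => (mem_erase.1 (hKD hxK)).1 rfl
  -- (a)
  have hKc : Conn G K := by
    refine ⟨hKne, fun X hX hXne hXc => ?_⟩
    refine eq_of_subset_of_card_le hX (hmin x hx X (fun w hw => hKD (hX hw)) hXne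
      (fun hrX => hrK (hX hrX)) fun w hw u hu hwu => ?_)
    exact hXc w hw u (hcl w (hX hw) u hu hwu) hwu
  -- (b)
  have hnc : ∀ k ∈ K, Conn G (D.erase k) := by
    intro k hk
    refine conn_erase_of_min h.conn hx hKD hcl hk fun Z hZ hZne hZc => ?_
    have h1 := hmin k (hsub hk) Z
      (fun w hw => mem_erase.2 ⟨(mem_erase.1 (hZ hw)).1, hsub (mem_of_mem_erase (hZ hw))⟩) hZne
      (fun hrZ => hrK (mem_of_mem_erase (hZ hrZ))) hZc
    have h2 := card_le_card hZ
    rw [card_erase_of_mem hk] at h2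
    have h3 := card_pos.2 ⟨k, hk⟩
    omega
  -- (c)
  by_cases hleaf : ∃ k ∈ K, dg G k D = 1
  · obtain ⟨k, hk, hk1⟩ := hleaf
    exact Or.inl ⟨k, hsub hk, fun e => hrK (e ▸ hk), hk1⟩
  have hdg : ∀ k ∈ K, dg G k D = 2 := by
    intro k hk
    have h3 := dg_le_two h hne hbad (hsub hk) (hnc k hk)
    have h4 := h.conn.one_le_dg h2 (hsub hk)
    have h5 : dg G k D ≠ 1 := fun e => hleaf ⟨k, hk, e⟩
    omega
  refine Or.inr ⟨K, hsub, hrK, ?_, hKc, fun k hk => ⟨hnc k hk, hdg k hk⟩⟩
  -- (d)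
  obtain ⟨φ, hφ⟩ := hbad
  have hN1 : ∀ k ∈ K, dg G k N = 1 := by
    intro k hk
    have h3 := h.deg_eq hφ (hsub hk)
    have h4 := hdg k hk
    omega
  have hnb : ∀ k ∈ K, ∀ w ∈ D, G.Adj k w → w = x ∨ w ∈ K := by
    intro k hk w hw hkw
    by_cases hwx : w = x
    · exact Or.inl hwx
    · exact Or.inr (hcl k hk w (mem_erase.2 ⟨hwx, hw⟩) hkw)
  by_contra hlt
  have h3 : K.card = 1 ∨ K.card = 2 ∨ K.card = 3 := by
    have h4 := card_pos.2 hKne
    omega
  rcases h3 with h3 | h3 | h3
  · obtain ⟨a, ha⟩ := card_eq_one.1 h3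
    have haK : a ∈ K := by
      rw [ha]
      exact mem_singleton_self a
    have h4 := ends_two (x := x) (y := a) (hdg a haK) (by
      intro w hw haw
      rcases hnb a haK w hw haw with h5 | h5
      · exact Or.inl h5
      · rw [ha, mem_singleton] at h5
        exact Or.inr h5)
    exact absurd rfl h4.2.ne
  · obtain ⟨a, b, hab, hK⟩ := card_eq_two.1 h3
    have hmem : ∀ w, w ∈ K ↔ w = a ∨ w = b := by
      intro w
      rw [hK, mem_insert, mem_singleton]
    have haK : a ∈ K := (hmem a).2 (Or.inl rfl)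
    have hbK : b ∈ K := (hmem b).2 (Or.inr rfl)
    have h4 := ends_two (x := x) (y := b) (hdg a haK) (by
      intro w hw haw
      rcases hnb a haK w hw haw with h5 | h5
      · exact Or.inl h5
      · rcases (hmem w).1 h5 with rfl | h6
        · exact absurd rfl haw.ne
        · exact Or.inr h6)
    have h5 := ends_two (x := x) (y := a) (hdg b hbK) (by
      intro w hw haw
      rcases hnb b hbK w hw haw with h5 | h5
      · exact Or.inl h5
      · rcases (hmem w).1 h5 with h6 | rfl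
        · exact Or.inr h6
        · exact absurd rfl haw.ne)
    exact hT a b x h4.2 h5.1 h4.1
  · obtain ⟨a, b, c, hab, hac, hbc, hK⟩ := card_eq_three.1 h3
    have hmem : ∀ w, w ∈ K ↔ w = a ∨ w = b ∨ w = c := by
      intro w
      rw [hK, mem_insert, mem_insert, mem_singleton]
    have haK : a ∈ K := (hmem a).2 (Or.inl rfl)
    have hbK : b ∈ K := (hmem b).2 (Or.inr (Or.inl rfl))
    have hcK : c ∈ K := (hmem c).2 (Or.inr (Or.inr rfl))
    have hxa : x ≠ a := fun e => hxK (e ▸ haK)
    have hxb : x ≠ b := fun e => hxK (e ▸ hbK)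
    have hxc : x ≠ c := fun e => hxK (e ▸ hcK)
    have ha := ends_among (x := x) (y := b) (z := c) (hdg a haK) (by
      intro w hw haw
      rcases hnb a haK w hw haw with h5 | h5
      · exact Or.inl h5
      · rcases (hmem w).1 h5 with rfl | h6
        · exact absurd rfl haw.ne
        · exact Or.inr h6)
    have hb := ends_among (x := x) (y := a) (z := c) (hdg b hbK) (by
      intro w hw haw
      rcases hnb b hbK w hw haw with h5 | h5
      · exact Or.inl h5
      · rcases (hmem w).1 h5 with h6 | rfl | h6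
        · exact Or.inr (Or.inl h6)
        · exact absurd rfl haw.ne
        · exact Or.inr (Or.inr h6))
    have hc := ends_among (x := x) (y := a) (z := b) (hdg c hcK) (by
      intro w hw haw
      rcases hnb c hcK w hw haw with h5 | h5
      · exact Or.inl h5
      · rcases (hmem w).1 h5 with h6 | h6 | rfl
        · exact Or.inr (Or.inl h6)
        · exact Or.inr (Or.inr h6)
        · exact absurd rfl haw.ne)
    by_cases h1 : G.Adj a b
    · by_cases h4 : G.Adj b c
      · -- middle vertex b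
        have h5 : ¬ G.Adj a c := hT a b c h1 h4
        exact hφ (ends_three h hx hmem hKD hcl (hnc b hbK) (hN1 b hbK) h1 h4 h5
          (ends_not_three (hdg b hbK) (hsub haK) (hsub hcK) hx hac hxa.symm hxc.symm h1.symm h4)
          (ha.2.2 h5).1 φ)
      · -- middle vertex a
        have h5 := hc.2.2 fun e => h4 e.symm
        have h6 : ∀ w, w ∈ K ↔ w = b ∨ w = a ∨ w = c := fun w => (hmem w).trans or_left_comm
        exact hφ (ends_three h hx h6 hKD hcl (hnc a haK) (hN1 a haK) h1.symm h5.2.symm h4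
          (ends_not_three (hdg a haK) (hsub hbK) (hsub hcK) hx hbc hxb.symm hxc.symm h1
            h5.2.symm) (hb.2.2 h4).1 φ)
    · -- middle vertex c
      have h4 := ha.2.1 h1
      have h5 := hb.2.1 fun e => h1 e.symm
      have h6 : ∀ w, w ∈ K ↔ w = a ∨ w = c ∨ w = b := fun w =>
        (hmem w).trans (or_congr Iff.rfl or_comm)
      exact hφ (ends_three h hx h6 hKD hcl (hnc c hcK) (hN1 c hcK) h4.2 h5.2.symm h1
        (ends_not_three (hdg c hcK) (hsub haK) (hsub hbK) hx hab hxa.symm hxb.symm h4.2.symm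
          h5.2.symm) h4.1 φ)

end Pool.Agent.Lib.MP_7aba48_co_TF
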