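import Pool.Agent.Lib.MP_7aba48_co_TF.Kernel

/-!
# Extension of a colouring: the main step
-/

namespace Pool.Agent.Lib.MP_7aba48_co_TF

open Finset Pool.Agent.Lib.MP_7aba48_co_G5

universe u

variable {V : Type u} [DecidableEq V] {G : SimpleGraph V}

omit [DecidableEq V] in
/-- Three colours without the colours of some vertices. -/
private lemma card_free (s : Finset V) (f : V → ZMod 3) :
    3 ≤ ((univ : Finset (ZMod 3)) \ s.image f).card + s.card := by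
  have h1 : (univ : Finset (ZMod 3)).card = 3 := by
    rw [card_univ, ZMod.card]
  have h2 := le_card_sdiff (s.image f) (univ : Finset (ZMod 3))
  have h3 : (s.image f).card ≤ s.card := card_image_le
  omega

/-- The degree in two disjoint sets. -/
private lemma dg_union {v : V} {S T : Finset V} (h : Disjoint S T) :
    dg G v (S ∪ T) = dg G v S + dg G v T := by
  classical
  have h1 : nb G v (S ∪ T) = nb G v S ∪ nb G v T := by
    ext w
    simp only [mem_nb, mem_union]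
    tauto
  unfold dg
  rw [h1]
  refine card_union_of_disjoint (disjoint_left.2 fun w hw hw' => ?_)
  exact disjoint_left.1 h (mem_nb.1 hw).1 (mem_nb.1 hw').1

/-- STEP 1: the vertices in no edge of `U`. -/
private lemma step1 {S₀ Ts W Y : Finset V} (U : Finset (V × V))
    (hY : ∀ w, w ∈ Y ↔ w ∈ W ∧ ∀ t, (w, t) ∉ U)
    (hdeg : ∀ w ∈ W, dg G w S₀ + dg G w Ts + dg G w W ≤ 3)
    (hQ : ∀ Q ⊆ W, Q.Nonempty → (∀ v ∈ Q, ∀ t, (v, t) ∉ U) →
      (∀ v ∈ Q, ∀ w ∈ W, G.Adj v w → w ∈ Q) → ∃ v ∈ Q, ∃ t ∈ Ts, G.Adj v t)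
    (f0 : V → ZMod 3) :
    ∃ f : V → ZMod 3, (∀ v ∈ Y, f v ∈ (univ : Finset (ZMod 3)) \ (nb G v S₀).image f0) ∧
      ∀ v ∈ Y, ∀ w ∈ Y, G.Adj v w → f v ≠ f w := by
  classical
  by_contra hbad
  have hYW : Y ⊆ W := fun w hw => ((hY w).1 hw).1
  have hle : ∀ v, nb G v Y ⊆ nb G v W := fun v w hw => by
    rw [mem_nb] at hw ⊢
    exact ⟨hYW hw.1, hw.2⟩
  have hL : ∀ v ∈ Y, dg G v Ts + dg G v W ≤
      ((univ : Finset (ZMod 3)) \ (nb G v S₀).image f0).card := by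
    intro v hv
    have h1 := card_free (nb G v S₀) f0
    have h2 := hdeg v (hYW hv)
    have h3 : (nb G v S₀).card = dg G v S₀ := rfl
    omega
  obtain ⟨Q, hQc, hQt, -⟩ := exists_tight_comp (G := G) (B := Y)
    (fun v => (univ : Finset (ZMod 3)) \ (nb G v S₀).image f0)
    (fun v hv => by
      have h1 := hL v hv
      have h2 : dg G v Y ≤ dg G v W := card_le_card (hle v)
      change dg G v Y ≤ ((univ : Finset (ZMod 3)) \ (nb G v S₀).image f0).card
      omega) hbad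
  have hkey : ∀ v ∈ Q, dg G v Ts = 0 ∧ nb G v Y = nb G v W := by
    intro v hv
    have hvY := hQc.1 hv
    have h1 := hL v hvY
    have h2 : dg G v Y ≤ dg G v W := card_le_card (hle v)
    have h3 : dg G v Y = ((univ : Finset (ZMod 3)) \ (nb G v S₀).image f0).card := hQt v hv
    have h4 : (nb G v W).card = dg G v W := rfl
    have h5 : (nb G v Y).card = dg G v Y := rfl
    exact ⟨by omega, eq_of_subset_of_card_le (hle v) (by omega)⟩
  obtain ⟨v, hv, t, ht, hvt⟩ := hQ Q (hQc.1.trans hYW) hQc.2.1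
    (fun v hv t => ((hY v).1 (hQc.1 hv)).2 t)
    (fun v hv w hw hvw => by
      have h1 : w ∈ nb G v Y := by
        rw [(hkey v hv).2]
        exact mem_nb.2 ⟨hw, hvw⟩
      exact hQc.2.2.1 v hv w (mem_nb.1 h1).1 hvw)
  have h1 := (hkey v hv).1
  unfold dg at h1
  rw [card_eq_zero] at h1
  exact notMem_empty t (h1 ▸ mem_nb.2 ⟨ht, hvt⟩)

/-- Extension of a 3-colouring of `S₀` to `Ts` and `W`, where the vertices `t` of `Ts` avoid the
colours in `F t`. The vertices of `W` in an edge of `U` are coloured together with `Ts`, all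
others before. -/
theorem ext_core {S₀ Ts W : Finset V} (h1 : Disjoint S₀ Ts) (h2 : Disjoint S₀ W)
    (h3 : Disjoint Ts W) (hind : ∀ s ∈ Ts, ∀ t ∈ Ts, ¬ G.Adj s t)
    (h0 : ∀ s ∈ S₀, ∀ t ∈ Ts, ¬ G.Adj s t)
    (hdeg : ∀ w ∈ W, dg G w S₀ + dg G w Ts + dg G w W ≤ 3)
    (U : Finset (V × V)) (F : V → Finset (ZMod 3))
    (hF : ∀ t ∈ Ts, (F t).card + (lossy G U W t).card ≤ 2)
    (hX : ∀ w ∈ W, (∃ t, (w, t) ∈ U) → ∃ t ∈ Ts, G.Adj w t ∧ (w, t) ∉ U)
    (hQ : ∀ Q ⊆ W, Q.Nonempty → (∀ v ∈ Q, ∀ t, (v, t) ∉ U) →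
      (∀ v ∈ Q, ∀ w ∈ W, G.Adj v w → w ∈ Q) → ∃ v ∈ Q, ∃ t ∈ Ts, G.Adj v t)
    (hcol : Col3 G S₀) :
    ∃ f : V → ZMod 3, (∀ v ∈ S₀ ∪ Ts ∪ W, ∀ w ∈ S₀ ∪ Ts ∪ W, G.Adj v w → f v ≠ f w) ∧
      ∀ t ∈ Ts, f t ∉ F t := by
  classical
  obtain ⟨f0, hf0⟩ := hcol
  obtain ⟨X, hXd⟩ : ∃ X : Finset V, ∀ w, w ∈ X ↔ w ∈ W ∧ ∃ t, (w, t) ∈ U :=
    ⟨W.filter (fun w => ∃ t, (w, t) ∈ U), fun w => mem_filter⟩
  obtain ⟨Y, hYd⟩ : ∃ Y : Finset V, ∀ w, w ∈ Y ↔ w ∈ W ∧ ∀ t, (w, t) ∉ U :=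
    ⟨W.filter (fun w => ∀ t, (w, t) ∉ U), fun w => mem_filter⟩
  have hXW : X ⊆ W := fun w hw => ((hXd w).1 hw).1
  have hYW : Y ⊆ W := fun w hw => ((hYd w).1 hw).1
  have hXY : Disjoint Y X := disjoint_left.2 fun w hw hw' => by
    obtain ⟨t, ht⟩ := ((hXd w).1 hw').2
    exact ((hYd w).1 hw).2 t ht
  have hWe : Y ∪ X = W := by
    ext w
    rw [mem_union, hXd, hYd]
    by_cases h : ∃ t, (w, t) ∈ U
    · exact ⟨fun h' => h'.elim (fun h' => h'.1) (fun h' => h'.1), fun h' => Or.inr ⟨h', h⟩⟩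
    · exact ⟨fun h' => h'.elim (fun h' => h'.1) (fun h' => h'.1),
        fun h' => Or.inl ⟨h', fun t ht => h ⟨t, ht⟩⟩⟩
  obtain ⟨f1, hf1, hf1'⟩ := step1 U hYd hdeg hQ f0
  -- the colouring of `S₀ ∪ Y`
  obtain ⟨g, hg0, hg1⟩ : ∃ g : V → ZMod 3, (∀ v ∈ S₀, g v = f0 v) ∧ ∀ v ∈ Y, g v = f1 v := by
    refine ⟨fun v => if v ∈ S₀ then f0 v else f1 v, fun v hv => if_pos hv, fun v hv => ?_⟩
    exact if_neg fun h => disjoint_left.1 h2 h (hYW hv)
  have hYS : ∀ v ∈ Y, ∀ w ∈ S₀, G.Adj v w → g v ≠ g w := by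
    intro v hv w hw hvw h
    have h4 := hf1 v hv
    rw [mem_sdiff] at h4
    refine h4.2 (mem_image.2 ⟨w, mem_nb.2 ⟨hw, hvw⟩, ?_⟩)
    rw [← hg0 w hw, ← hg1 v hv, h]
  have hg : ∀ v ∈ S₀ ∪ Y, ∀ w ∈ S₀ ∪ Y, G.Adj v w → g v ≠ g w := by
    intro v hv w hw hvw
    rcases mem_union.1 hv with hv | hv <;> rcases mem_union.1 hw with hw | hw
    · rw [hg0 v hv, hg0 w hw]
      exact hf0 v hv w hw hvw
    · exact (hYS w hw v hv hvw.symm).symm
    · exact hYS v hv w hw hvw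
    · rw [hg1 v hv, hg1 w hw]
      exact hf1' v hv w hw hvw
  have hSY : Disjoint S₀ Y := h2.mono_right hYW
  -- STEP 2
  obtain ⟨f2, hf2, hf2'⟩ := kernel_col (G := G) (A := Ts) (B := X) (h3.mono_right hXW) hind U
    (fun v => ((univ : Finset (ZMod 3)) \ (nb G v (S₀ ∪ Y)).image g) \
      (if v ∈ Ts then F v else ∅))
    (fun t ht => by
      rw [if_pos ht]
      have e1 := card_free (nb G t (S₀ ∪ Y)) g
      have e2 := le_card_sdiff (F t) ((univ : Finset (ZMod 3)) \ (nb G t (S₀ ∪ Y)).image g)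
      have e3 : (nb G t (S₀ ∪ Y)).card = dg G t S₀ + dg G t Y := dg_union hSY
      have e4 : dg G t S₀ = 0 := by
        unfold dg
        rw [card_eq_zero, eq_empty_iff_forall_notMem]
        intro w hw
        rw [mem_nb] at hw
        exact h0 w hw.1 t ht hw.2.symm
      have e5 : dg G t Y + (lossy G U X t).card ≤ (lossy G U W t).card := by
        unfold dg
        rw [← card_union_of_disjoint]
        · refine card_le_card fun w hw => ?_
          rcases mem_union.1 hw with hw | hw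
          · rw [mem_nb] at hw
            exact mem_lossy.2 ⟨hYW hw.1, hw.2.symm, ((hYd w).1 hw.1).2 t⟩
          · rw [mem_lossy] at hw ⊢
            exact ⟨hXW hw.1, hw.2⟩
        · exact disjoint_left.2 fun w hw hw' =>
            disjoint_left.1 hXY (mem_nb.1 hw).1 (mem_lossy.1 hw').1
      have e6 := hF t ht
      omega)
    (fun w hw => by
      have hwT : w ∉ Ts := fun h => disjoint_left.1 h3 h (hXW hw)
      change (unit G U Ts w).card + dg G w X <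
        (((univ : Finset (ZMod 3)) \ (nb G w (S₀ ∪ Y)).image g) \
        (if w ∈ Ts then F w else ∅)).card
      rw [if_neg hwT, sdiff_empty]
      have e1 := card_free (nb G w (S₀ ∪ Y)) g
      have e3 : (nb G w (S₀ ∪ Y)).card = dg G w S₀ + dg G w Y := dg_union hSY
      have e4 : dg G w W = dg G w Y + dg G w X := by
        rw [← hWe]
        exact dg_union hXY
      have e5 := hdeg w (hXW hw)
      have e6 : (unit G U Ts w).card < dg G w Ts := by
        obtain ⟨t, ht, hwt, htU⟩ := hX w (hXW hw) ((hXd w).1 hw).2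
        refine card_lt_card ⟨fun a ha => ?_, fun h => ?_⟩
        · rw [mem_unit] at ha
          exact mem_nb.2 ⟨ha.1, ha.2.1⟩
        · exact htU (mem_unit.1 (h (mem_nb.2 ⟨ht, hwt⟩))).2.2
      omega)
  -- STEP 3
  have hav : ∀ v ∈ Ts ∪ X, ∀ w ∈ S₀ ∪ Y, G.Adj v w → f2 v ≠ g w := by
    intro v hv w hw hvw h
    have h4 := hf2 v hv
    rw [mem_sdiff, mem_sdiff] at h4
    exact h4.1.2 (mem_image.2 ⟨w, mem_nb.2 ⟨hw, hvw⟩, h.symm⟩)
  have hdis : ∀ v ∈ Ts ∪ X, v ∉ S₀ ∪ Y := by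
    intro v hv hv'
    rcases mem_union.1 hv with hv | hv <;> rcases mem_union.1 hv' with hv' | hv'
    · exact disjoint_left.1 h1 hv' hv
    · exact disjoint_left.1 h3 hv (hYW hv')
    · exact disjoint_left.1 h2 hv' (hXW hv)
    · exact disjoint_left.1 hXY hv' hv
  have hsplit : ∀ v ∈ S₀ ∪ Ts ∪ W, v ∈ S₀ ∪ Y ∨ v ∈ Ts ∪ X := by
    intro v hv
    rw [← hWe] at hv
    simp only [mem_union] at hv ⊢
    tauto
  refine ⟨fun v => if v ∈ S₀ ∪ Y then g v else f2 v, fun v hv w hw hvw => ?_, fun t ht => ?_⟩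
  · change (if v ∈ S₀ ∪ Y then g v else f2 v) ≠ (if w ∈ S₀ ∪ Y then g w else f2 w)
    rcases hsplit v hv with hv | hv <;> rcases hsplit w hw with hw | hw
    · rw [if_pos hv, if_pos hw]
      exact hg v hv w hw hvw
    · rw [if_pos hv, if_neg (hdis w hw)]
      exact (hav w hw v hv hvw.symm).symm
    · rw [if_neg (hdis v hv), if_pos hw]
      exact hav v hv w hw hvw
    · rw [if_neg (hdis v hv), if_neg (hdis w hw)]
      exact hf2' v hv w hw hvw
  · change (if t ∈ S₀ ∪ Y then g t else f2 t) ∉ F t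
    have h4 : t ∈ Ts ∪ X := mem_union_left _ ht
    rw [if_neg (hdis t h4)]
    have h5 := hf2 t h4
    rw [mem_sdiff, if_pos ht] at h5
    exact h5.2

end Pool.Agent.Lib.MP_7aba48_co_TF
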