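import Pool.Agent.Lib.MP_7aba48_co_TF.ExtCore

/-!
# A critical set has no assignment of edges with two edges at each vertex of a subset of `T`
-/

namespace Pool.Agent.Lib.MP_7aba48_co_TF

open Finset Pool.Agent.Lib.MP_7aba48_co_G5

universe u

variable {V : Type u} [DecidableEq V] {G : SimpleGraph V}

private theorem ext_exists_comp {B : Finset V} {v : V} (hv : v ∈ B) :
    ∃ D, Comp G B D ∧ v ∈ D := by
  obtain ⟨P, hP⟩ : ∃ P : Finset V → Prop, ∀ D, P D ↔ D ⊆ B ∧ v ∈ D ∧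
      (∀ x ∈ D, ∀ w ∈ B, G.Adj x w → w ∈ D) := ⟨_, fun _ => Iff.rfl⟩
  obtain ⟨D, hD, hmin⟩ : ∃ D, P D ∧ ∀ X, P X → D.card ≤ X.card := by
    have hex : ∃ n, ∃ D, P D ∧ D.card = n :=
      ⟨_, B, (hP B).2 ⟨Subset.rfl, hv, fun _ _ w hw _ => hw⟩, rfl⟩
    classical
    obtain ⟨D, hD, hc⟩ := Nat.find_spec hex
    exact ⟨D, hD, fun X hX => hc ▸ Nat.find_min' hex ⟨X, hX, rfl⟩⟩
  obtain ⟨hDB, hvD, hDc⟩ := (hP D).1 hD
  refine ⟨D, ⟨hDB, ⟨v, hvD⟩, hDc, fun X hX hne hXc => ?_⟩, hvD⟩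
  by_cases hvX : v ∈ X
  · exact eq_of_subset_of_card_le hX (hmin X ((hP X).2 ⟨hX.trans hDB, hvX, hXc⟩))
  · exfalso
    have h1 : P (D \ X) := by
      rw [hP]
      refine ⟨sdiff_subset.trans hDB, mem_sdiff.2 ⟨hvD, hvX⟩, fun x hx w hw hxw => ?_⟩
      rw [mem_sdiff] at hx ⊢
      exact ⟨hDc x hx.1 w hw hxw, fun hwX => hx.2 (hXc w hwX x (hDB hx.1) hxw.symm)⟩
    have h2 := hmin _ h1
    obtain ⟨x, hx⟩ := hne
    have h3 : (D \ X).card < D.card :=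
      card_lt_card ⟨sdiff_subset, fun h => (mem_sdiff.1 (h (hX hx))).2 hx⟩
    omega

private theorem ext_dg3 {v : V} {X Y Z S : Finset V} (hXY : Disjoint X Y) (hXZ : Disjoint X Z)
    (hYZ : Disjoint Y Z) (hX : X ⊆ S) (hY : Y ⊆ S) (hZ : Z ⊆ S) :
    dg G v X + dg G v Y + dg G v Z ≤ dg G v S := by
  unfold dg
  have h1 : Disjoint (nb G v X) (nb G v Y) := by
    rw [disjoint_left] at hXY ⊢
    intro w hw hw'
    exact hXY (mem_nb.1 hw).1 (mem_nb.1 hw').1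
  have h2 : Disjoint (nb G v X ∪ nb G v Y) (nb G v Z) := by
    rw [disjoint_left] at hXZ hYZ ⊢
    intro w hw hw'
    rcases mem_union.1 hw with h | h
    · exact hXZ (mem_nb.1 h).1 (mem_nb.1 hw').1
    · exact hYZ (mem_nb.1 h).1 (mem_nb.1 hw').1
  rw [← card_union_of_disjoint h1, ← card_union_of_disjoint h2]
  refine card_le_card fun w hw => ?_
  rw [mem_union, mem_union, mem_nb, mem_nb, mem_nb] at hw
  rw [mem_nb]
  rcases hw with (h | h) | h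
  · exact ⟨hX h.1, h.2⟩
  · exact ⟨hY h.1, h.2⟩
  · exact ⟨hZ h.1, h.2⟩

/-- The extension argument. -/
theorem extend {S T Ts : Finset V} (hC : Crit G S T) (hTs : Ts ⊆ T) (hne : Ts.Nonempty)
    (U : Finset (V × V))
    (hU : ∀ p ∈ U, p.1 ∈ S ∧ p.1 ∉ T ∧ p.2 ∈ Ts ∧ G.Adj p.1 p.2)
    (hU2 : ∀ t ∈ Ts, 2 ≤ (U.filter (fun p => p.2 = t)).card)
    (hD : ∀ D, Comp G (S \ T) D → (nbs G D Ts).Nonempty →
      (∃ R ⊆ D, (∀ φ : V → ZMod 3, ¬ Res G D T φ →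
          ∀ s ∈ nbs G R T, ∀ t ∈ nbs G R T, φ s = φ t) ∧
        ∃ e : ZMod 3 → V × V, Function.Injective e ∧
          ∀ i, (e i).1 ∈ R ∧ (e i).2 ∈ Ts ∧ G.Adj (e i).1 (e i).2 ∧ e i ∉ U) ∨
      ∀ p ∈ U, p.1 ∈ D → ∃ t ∈ Ts, G.Adj p.1 t ∧ (p.1, t) ∉ U) : False := by
  classical
  obtain ⟨v0, hv0⟩ := hne
  -- type alpha
  obtain ⟨Al, hAl⟩ : ∃ Al : Finset V → Prop, ∀ D, Al D ↔
      ∃ R ⊆ D, (∀ φ : V → ZMod 3, ¬ Res G D T φ →
          ∀ s ∈ nbs G R T, ∀ t ∈ nbs G R T, φ s = φ t) ∧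
        ∃ e : ZMod 3 → V × V, Function.Injective e ∧
          ∀ i, (e i).1 ∈ R ∧ (e i).2 ∈ Ts ∧ G.Adj (e i).1 (e i).2 ∧ e i ∉ U :=
    ⟨_, fun _ => Iff.rfl⟩
  have hch : ∀ D, ∃ (R : Finset V) (e : ZMod 3 → V × V), Al D → R ⊆ D ∧
      (∀ φ : V → ZMod 3, ¬ Res G D T φ →
          ∀ s ∈ nbs G R T, ∀ t ∈ nbs G R T, φ s = φ t) ∧ Function.Injective e ∧
          ∀ i, (e i).1 ∈ R ∧ (e i).2 ∈ Ts ∧ G.Adj (e i).1 (e i).2 ∧ e i ∉ U := by
    intro D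
    by_cases h : Al D
    · obtain ⟨R, hR, h1, e, h2, h3⟩ := (hAl D).1 h
      exact ⟨R, e, fun _ => ⟨hR, h1, h2, h3⟩⟩
    · exact ⟨∅, fun _ => (v0, v0), fun h' => absurd h' h⟩
  choose R e hRe using hch
  -- active components
  obtain ⟨Ac, hAc⟩ : ∃ Ac : Finset V → Prop, ∀ D, Ac D ↔
      Comp G (S \ T) D ∧ (nbs G D Ts).Nonempty := ⟨_, fun _ => Iff.rfl⟩
  have hbeta : ∀ D, Ac D → ¬ Al D →
      ∀ p ∈ U, p.1 ∈ D → ∃ t ∈ Ts, G.Adj p.1 t ∧ (p.1, t) ∉ U := by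
    intro D h1 h2
    rcases hD D ((hAc D).1 h1).1 ((hAc D).1 h1).2 with h | h
    · exact absurd ((hAl D).2 h) h2
    · exact h
  have huniq : ∀ D D', Ac D → Ac D' → ∀ v, v ∈ D → v ∈ D' → D = D' :=
    fun D D' h h' v hv hv' => ((hAc D).1 h).1.disj ((hAc D').1 h').1 hv hv'
  obtain ⟨Z, hZ⟩ : ∃ Z : Finset V, ∀ v, v ∈ Z ↔ v ∈ S \ T ∧ ∃ D, Ac D ∧ v ∈ D ∧ Al D :=
    ⟨(S \ T).filter (fun v => ∃ D, Ac D ∧ v ∈ D ∧ Al D), fun v => by rw [mem_filter]⟩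
  obtain ⟨W, hW⟩ : ∃ W : Finset V, ∀ v, v ∈ W ↔ v ∈ S \ T ∧ ∃ D, Ac D ∧ v ∈ D ∧ ¬ Al D :=
    ⟨(S \ T).filter (fun v => ∃ D, Ac D ∧ v ∈ D ∧ ¬ Al D), fun v => by rw [mem_filter]⟩
  have hZW : ∀ v, v ∈ Z → v ∉ W := by
    intro v h h'
    obtain ⟨-, D, h1, h2, h3⟩ := (hZ v).1 h
    obtain ⟨-, D', h1', h2', h3'⟩ := (hW v).1 h'
    rw [huniq D D' h1 h1' v h2 h2'] at h3
    exact h3' h3
  have hZS : ∀ v ∈ Z, v ∈ S ∧ v ∉ T := fun v h => mem_sdiff.1 ((hZ v).1 h).1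
  have hWS : ∀ v ∈ W, v ∈ S ∧ v ∉ T := fun v h => mem_sdiff.1 ((hW v).1 h).1
  obtain ⟨S₀, hS₀⟩ : ∃ S₀ : Finset V, ∀ v, v ∈ S₀ ↔ v ∈ S ∧ v ∉ Ts ∧ v ∉ Z ∧ v ∉ W :=
    ⟨S.filter (fun v => v ∉ Ts ∧ v ∉ Z ∧ v ∉ W), fun v => by rw [mem_filter]⟩
  have hTsS : ∀ t ∈ Ts, t ∈ S := fun t ht => hC.sub (hTs ht)
  -- active vertices
  have hact : ∀ v, v ∈ S → v ∉ T → ∀ t ∈ Ts, G.Adj v t → v ∈ Z ∨ v ∈ W := by
    intro v hv hvT t ht hvt
    have hvB : v ∈ S \ T := mem_sdiff.2 ⟨hv, hvT⟩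
    obtain ⟨D, hDc, hvD⟩ := ext_exists_comp (G := G) hvB
    have hA : Ac D := (hAc D).2 ⟨hDc, t, mem_nbs.2 ⟨ht, v, hvD, hvt⟩⟩
    by_cases h : Al D
    · exact Or.inl ((hZ v).2 ⟨hvB, D, hA, hvD, h⟩)
    · exact Or.inr ((hW v).2 ⟨hvB, D, hA, hvD, h⟩)
  obtain ⟨F, hF⟩ : ∃ F : V → Finset (ZMod 3), ∀ t i, i ∈ F t ↔
      ∃ D, Ac D ∧ Al D ∧ (e D i).2 = t :=
    ⟨fun t => univ.filter (fun i => ∃ D, Ac D ∧ Al D ∧ (e D i).2 = t), fun t i => by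
      rw [mem_filter]; exact ⟨fun h => h.2, fun h => ⟨mem_univ _, h⟩⟩⟩
  have hd1 : Disjoint S₀ Ts := disjoint_left.2 fun v h h' => ((hS₀ v).1 h).2.1 h'
  have hd2 : Disjoint S₀ W := disjoint_left.2 fun v h h' => ((hS₀ v).1 h).2.2.2 h'
  have hd3 : Disjoint Ts W := disjoint_left.2 fun v h h' => (hWS v h').2 (hTs h)
  obtain ⟨f, hf1, hf2⟩ := ext_core (G := G) hd1 hd2 hd3
    (fun s hs t ht => hC.ind s (hTs hs) t (hTs ht))
    (by
      intro s hs t ht hst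
      obtain ⟨h1, h2, h3, h4⟩ := (hS₀ s).1 hs
      by_cases hsT : s ∈ T
      · exact hC.ind s hsT t (hTs ht) hst
      · rcases hact s h1 hsT t ht hst with h | h
        · exact h3 h
        · exact h4 h)
    (by
      intro w hw
      exact (ext_dg3 hd1 hd2 hd3 (fun v h => ((hS₀ v).1 h).1) hTsS
        (fun v h => (hWS v h).1)).trans (hC.deg w (hWS w hw).1 (hWS w hw).2))
    U F
    (by
      intro t ht
      -- the three kinds of neighbours of `t`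
      have hx : ∀ i, ∃ D, i ∈ F t → Ac D ∧ Al D ∧ (e D i).2 = t := by
        intro i
        by_cases h : i ∈ F t
        · obtain ⟨D, hD'⟩ := (hF t i).1 h
          exact ⟨D, fun _ => hD'⟩
        · exact ⟨∅, fun h' => absurd h' h⟩
      choose Di hDi using hx
      have hX1 : ((F t).image (fun i => (e (Di i) i).1)).card = (F t).card := by
        refine card_image_of_injOn fun i hi j hj hij => ?_
        have hi' := hDi i (mem_coe.1 hi)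
        have hj' := hDi j (mem_coe.1 hj)
        obtain ⟨a1, a2, a3, a4⟩ := hRe (Di i) hi'.2.1
        obtain ⟨b1, b2, b3, b4⟩ := hRe (Di j) hj'.2.1
        have h1 : (e (Di i) i).1 ∈ Di i := a1 (a4 i).1
        have h2 : (e (Di i) i).1 ∈ Di j := by rw [hij]; exact b1 (b4 j).1
        have h3 : Di i = Di j := huniq _ _ hi'.1 hj'.1 _ h1 h2
        rw [← h3] at hij
        have h4 : (e (Di i) j).2 = t := by rw [h3]; exact hj'.2.2
        exact a3 (Prod.ext hij (hi'.2.2.trans h4.symm))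
      have hX3 : ((U.filter (fun p => p.2 = t)).image Prod.fst).card =
          (U.filter (fun p => p.2 = t)).card := by
        refine card_image_of_injOn fun p hp q hq hpq => ?_
        have h1 := (mem_filter.1 (mem_coe.1 hp)).2
        have h2 := (mem_filter.1 (mem_coe.1 hq)).2
        exact Prod.ext hpq (h1.trans h2.symm)
      have hm1 : ∀ x ∈ (F t).image (fun i => (e (Di i) i).1), x ∈ Z ∧ G.Adj t x ∧
          (x, t) ∉ U := by
        intro x hx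
        obtain ⟨i, hi, rfl⟩ := mem_image.1 hx
        obtain ⟨h1, h2, h3⟩ := hDi i hi
        obtain ⟨a1, -, -, a4⟩ := hRe (Di i) h2
        obtain ⟨b1, b2, b3, b4⟩ := a4 i
        have hxD := a1 b1
        refine ⟨(hZ _).2 ⟨((hAc _).1 h1).1.1 hxD, Di i, h1, hxD, h2⟩, ?_, ?_⟩
        · rw [h3] at b3
          exact b3.symm
        · intro hmem
          apply b4
          have : e (Di i) i = ((e (Di i) i).1, t) := Prod.ext rfl h3
          rw [this]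
          exact hmem
      have hm2 : ∀ x ∈ lossy G U W t, x ∈ W ∧ G.Adj t x ∧ (x, t) ∉ U := by
        intro x hx
        rw [mem_lossy] at hx
        exact ⟨hx.1, hx.2.1.symm, hx.2.2⟩
      have hm3 : ∀ x ∈ (U.filter (fun p => p.2 = t)).image Prod.fst, x ∈ S ∧ G.Adj t x ∧
          (x, t) ∈ U := by
        intro x hx
        obtain ⟨p, hp, rfl⟩ := mem_image.1 hx
        obtain ⟨hp1, hp2⟩ := mem_filter.1 hp
        obtain ⟨c1, c2, c3, c4⟩ := hU p hp1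
        subst hp2
        exact ⟨c1, c4.symm, hp1⟩
      have e1 : Disjoint ((F t).image (fun i => (e (Di i) i).1)) (lossy G U W t) :=
        disjoint_left.2 fun x h h' => hZW x (hm1 x h).1 (hm2 x h').1
      have e2 : Disjoint ((F t).image (fun i => (e (Di i) i).1) ∪ lossy G U W t)
          ((U.filter (fun p => p.2 = t)).image Prod.fst) :=
        disjoint_left.2 fun x h h' => by
          rcases mem_union.1 h with h | h
          · exact (hm1 x h).2.2 (hm3 x h').2.2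
          · exact (hm2 x h).2.2 (hm3 x h').2.2
      have e3 : (((F t).image (fun i => (e (Di i) i).1) ∪ lossy G U W t) ∪
          ((U.filter (fun p => p.2 = t)).image Prod.fst)).card ≤ dg G t S := by
        refine card_le_card fun x hx => ?_
        rw [mem_nb]
        rcases mem_union.1 hx with h | h
        · rcases mem_union.1 h with h | h
          · exact ⟨(hZS x (hm1 x h).1).1, (hm1 x h).2.1⟩
          · exact ⟨(hWS x (hm2 x h).1).1, (hm2 x h).2.1⟩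
        · exact ⟨(hm3 x h).1, (hm3 x h).2.1⟩
      rw [card_union_of_disjoint e2, card_union_of_disjoint e1, hX1, hX3] at e3
      have e4 := hC.degT t (hTs ht)
      have e5 := hU2 t ht
      omega)
    (by
      rintro w hw ⟨t, ht⟩
      obtain ⟨-, D, h1, h2, h3⟩ := (hW w).1 hw
      exact hbeta D h1 h3 (w, t) ht h2)
    (by
      rintro Q hQW ⟨q, hq⟩ - hQc
      obtain ⟨-, D, h1, h2, h3⟩ := (hW q).1 (hQW hq)
      obtain ⟨hDc, t, ht⟩ := (hAc D).1 h1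
      have hsub : Q ∩ D = D := by
        refine hDc.2.2.2 _ inter_subset_right ⟨q, mem_inter.2 ⟨hq, h2⟩⟩ ?_
        intro v hv w hw hvw
        rw [mem_inter] at hv ⊢
        have hwD := hDc.2.2.1 v hv.2 w hw hvw
        exact ⟨hQc v hv.1 w ((hW w).2 ⟨hw, D, h1, hwD, h3⟩) hvw, hwD⟩
      obtain ⟨htT, v, hvD, hvt⟩ := mem_nbs.1 ht
      rw [← hsub] at hvD
      exact ⟨v, (mem_inter.1 hvD).1, t, htT, hvt⟩)
    (hC.col S₀ ⟨fun v h => ((hS₀ v).1 h).1, fun h =>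
      ((hS₀ v0).1 (h (hTsS v0 hv0))).2.1 hv0⟩)
  -- the active components of type alpha
  have hres : ∀ D, Ac D → Al D → Res G D T f := by
    intro D h1 h2
    by_contra hcon
    obtain ⟨a1, a2, a3, a4⟩ := hRe D h2
    have hmem : ∀ i, (e D i).2 ∈ nbs G (R D) T := fun i =>
      mem_nbs.2 ⟨hTs (a4 i).2.1, (e D i).1, (a4 i).1, (a4 i).2.2.1⟩
    have h3 := a2 f hcon _ (hmem 0) _ (hmem (f (e D 0).2))
    apply hf2 _ (a4 (f (e D 0).2)).2.1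
    rw [hF]
    rw [← h3]
    exact ⟨D, h1, h2, rfl⟩
  have hg : ∀ D, ∃ g : V → ZMod 3, Ac D → Al D →
      (∀ v ∈ D, ∀ t ∈ T, G.Adj v t → g v ≠ f t) ∧
        ∀ v ∈ D, ∀ w ∈ D, G.Adj v w → g v ≠ g w := by
    intro D
    by_cases h : Ac D ∧ Al D
    · obtain ⟨g, hg⟩ := hres D h.1 h.2
      exact ⟨g, fun _ _ => hg⟩
    · exact ⟨fun _ => 0, fun h1 h2 => absurd ⟨h1, h2⟩ h⟩
  choose g hg using hg
  have hcm : ∀ v, ∃ D, v ∈ Z → Ac D ∧ v ∈ D ∧ Al D := by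
    intro v
    by_cases h : v ∈ Z
    · obtain ⟨-, D, hD'⟩ := (hZ v).1 h
      exact ⟨D, fun _ => hD'⟩
    · exact ⟨∅, fun h' => absurd h' h⟩
  choose cm hcm using hcm
  have hin : ∀ v ∈ Z, ∀ w ∈ S, w ∉ T → G.Adj v w → w ∈ Z ∧ cm w = cm v := by
    intro v hv w hw hwT hvw
    obtain ⟨h1, h2, h3⟩ := hcm v hv
    have hwB : w ∈ S \ T := mem_sdiff.2 ⟨hw, hwT⟩
    have hwD : w ∈ cm v := ((hAc _).1 h1).1.2.2.1 v h2 w hwB hvw
    have hwZ : w ∈ Z := (hZ w).2 ⟨hwB, cm v, h1, hwD, h3⟩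
    obtain ⟨h1', h2', h3'⟩ := hcm w hwZ
    exact ⟨hwZ, huniq _ _ h1' h1 w h2' hwD⟩
  have hout : ∀ v ∈ Z, ∀ w ∈ S, w ∉ Z → G.Adj v w → g (cm v) v ≠ f w := by
    intro v hv w hw hwZ hvw
    obtain ⟨h1, h2, h3⟩ := hcm v hv
    by_cases hwT : w ∈ T
    · exact (hg _ h1 h3).1 v h2 w hwT hvw
    · exact absurd (hin v hv w hw hwT hvw).1 hwZ
  have hrest : ∀ v ∈ S, v ∉ Z → v ∈ S₀ ∪ Ts ∪ W := by
    intro v hv hvZ
    rw [mem_union, mem_union, hS₀]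
    by_cases h1 : v ∈ Ts
    · exact Or.inl (Or.inr h1)
    · by_cases h2 : v ∈ W
      · exact Or.inr h2
      · exact Or.inl (Or.inl ⟨hv, h1, hvZ, h2⟩)
  refine hC.bad ⟨fun v => if v ∈ Z then g (cm v) v else f v, fun v hv w hw hvw => ?_⟩
  by_cases hvZ : v ∈ Z
  · by_cases hwZ : w ∈ Z
    · simp only [hvZ, hwZ, if_true]
      obtain ⟨h1, h2, h3⟩ := hcm v hvZ
      have h4 := (hin v hvZ w hw (hZS w hwZ).2 hvw).2
      obtain ⟨h1', h2', h3'⟩ := hcm w hwZ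
      rw [h4] at h2' ⊢
      exact (hg _ h1 h3).2 v h2 w h2' hvw
    · simp only [hvZ, hwZ, if_true, if_false]
      exact hout v hvZ w hw hwZ hvw
  · by_cases hwZ : w ∈ Z
    · simp only [hvZ, hwZ, if_true, if_false]
      exact (hout w hwZ v hv hvZ hvw.symm).symm
    · simp only [hvZ, hwZ, if_false]
      exact hf1 v (hrest v hv hvZ) w (hrest w hw hwZ) hvw

end Pool.Agent.Lib.MP_7aba48_co_TF
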