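import Pool.Agent.Lib.MP_7aba48_co_TF.Base

/-!
# The valid forms of a connected set span all forms with coefficient sum zero
-/

namespace Pool.Agent.Lib.MP_7aba48_co_TF

open Finset Pool.Agent.Lib.MP_7aba48_co_G5

universe u

variable {V : Type u} [DecidableEq V] [Fintype V] {G : SimpleGraph V}

/-- Replace the coordinate at `v` by a multiple of `w`. -/
private def formsMap (v : V) (w : V → ZMod 3) : (V → ZMod 3) →ₗ[ZMod 3] (V → ZMod 3) where
  toFun l := Function.update l v 0 + l v • w
  map_add' l m := by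
    funext t
    by_cases h : t = v
    · subst h
      simp only [Pi.add_apply, Pi.smul_apply, smul_eq_mul, Function.update_self]
      ring
    · simp only [Pi.add_apply, Pi.smul_apply, smul_eq_mul, Function.update_of_ne h]
      ring
  map_smul' a l := by
    funext t
    by_cases h : t = v
    · subst h
      simp only [Pi.add_apply, Pi.smul_apply, smul_eq_mul, Function.update_self, RingHom.id_apply]
      ring
    · simp only [Pi.add_apply, Pi.smul_apply, smul_eq_mul, Function.update_of_ne h,
        RingHom.id_apply]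
      ring

omit [Fintype V] in
private lemma formsMap_apply (v : V) (w l : V → ZMod 3) (t : V) :
    formsMap v w l t = Function.update l v 0 t + l v * w t := rfl

private lemma forms_upd (l φ : V → ZMod 3) (v : V) (c : ZMod 3) :
    ∑ t, l t * Function.update φ v c t = ∑ t, Function.update l v 0 t * φ t + l v * c := by
  rw [← Finset.add_sum_erase _ (fun t => l t * Function.update φ v c t) (Finset.mem_univ v),
    ← Finset.add_sum_erase _ (fun t => Function.update l v 0 t * φ t) (Finset.mem_univ v)]
  simp only [Function.update_self, zero_mul, zero_add]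
  rw [add_comm]
  congr 1
  refine Finset.sum_congr rfl fun t ht => ?_
  have hne : t ≠ v := Finset.ne_of_mem_erase ht
  rw [Function.update_of_ne hne, Function.update_of_ne hne]

private lemma forms_map_sum (l φ w : V → ZMod 3) (v : V) :
    ∑ t, formsMap v w l t * φ t =
      ∑ t, Function.update l v 0 t * φ t + l v * ∑ t, w t * φ t := by
  rw [Finset.mul_sum, ← Finset.sum_add_distrib]
  refine Finset.sum_congr rfl fun t _ => ?_
  rw [formsMap_apply]
  ring

private lemma forms_single (p : V) (φ : V → ZMod 3) :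
    ∑ t, (Pi.single p 1 : V → ZMod 3) t * φ t = φ p := by
  rw [Finset.sum_eq_single p]
  · rw [Pi.single_eq_same, one_mul]
  · intro t _ ht
    rw [Pi.single_eq_of_ne ht, zero_mul]
  · intro h
    exact absurd (Finset.mem_univ p) h

private lemma forms_sum_update (l : V → ZMod 3) (v : V) (a : ZMod 3) :
    ∑ t, Function.update l v a t = ∑ t, l t - l v + a := by
  rw [← Finset.add_sum_erase _ l (Finset.mem_univ v),
    ← Finset.add_sum_erase _ (Function.update l v a) (Finset.mem_univ v), Function.update_self]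
  have h : ∑ t ∈ Finset.univ.erase v, Function.update l v a t = ∑ t ∈ Finset.univ.erase v, l t :=
    Finset.sum_congr rfl fun t ht => by rw [Function.update_of_ne (Finset.ne_of_mem_erase ht)]
  rw [h]
  ring

private lemma forms_z1 : ∀ a b : ZMod 3, a ≠ b → -a - b ≠ a ∧ -a - b ≠ b := by decide

private lemma forms_z2 : ∀ A a p : ZMod 3, A + a * (p + 1) = 0 → A + a * (p - 1) = 0 →
    A + a * p = 0 := by decide

private lemma forms_z3 : ∀ A a p : ZMod 3, a ≠ 0 → A + a * (p + 1) ≠ 0 → A + a * (p - 1) ≠ 0 →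
    A + a * p = 0 := by decide

private lemma forms_z4 : ∀ A a : ZMod 3, A + a * 0 = 0 → A + a * 1 = 0 → a = 0 := by decide

private lemma forms_z5 : ∀ A a : ZMod 3, A + a * 0 ≠ 0 → A + a * 1 ≠ 0 → A + a * 2 ≠ 0 →
    a = 0 := by decide

private lemma forms_z6 : ∀ p : ZMod 3, p + 1 ≠ p ∧ p - 1 ≠ p := by decide

private lemma forms_z7 : ∀ a b : ZMod 3, a = -(a + b) + (b - a) ∧ b = -(a + b) - (b - a) := by
  decide

omit [Fintype V] in
/-- Support of the image of a valid form. -/
private lemma forms_supp {D N : Finset V} {v : V} (hv : v ∈ D)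
    {w l : V → ZMod 3} (hw : ∀ t, w t ≠ 0 → t ∈ N ∧ G.Adj v t)
    (hl : ∀ t, t ∉ nbs G (D.erase v) (insert v N) → l t = 0) {t : V} (ht : t ∉ nbs G D N) :
    formsMap v w l t = 0 := by
  have hw0 : w t = 0 := by
    by_contra hne
    exact ht (mem_nbs.2 ⟨(hw t hne).1, v, hv, (hw t hne).2⟩)
  rw [formsMap_apply, hw0, mul_zero, add_zero]
  by_cases htv : t = v
  · subst htv
    rw [Function.update_self]
  · rw [Function.update_of_ne htv]
    apply hl
    intro hmem
    obtain ⟨h1, u, hu, hut⟩ := mem_nbs.1 hmem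
    refine ht (mem_nbs.2 ⟨?_, u, mem_of_mem_erase hu, hut⟩)
    rcases mem_insert.1 h1 with h2 | h2
    · exact absurd h2 htv
    · exact h2

/-- The case of a vertex without neighbours in `N` is impossible. -/
private lemma forms_three {D N : Finset V} (h : Blk G D N) (hne : (nbs G D N).Nonempty)
    (hbad : ∃ φ : V → ZMod 3, ¬ Res G D N φ) {v : V} (hv : v ∈ D) (h3 : dg G v N = 0)
    (hvD : v ∈ nbs G (D.erase v) (insert v N))
    (ih : ∀ l : V → ZMod 3, (∀ t, t ∉ nbs G (D.erase v) (insert v N) → l t = 0) →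
      ∑ t, l t = 0 → l ∈ Submodule.span (ZMod 3) (Val G (D.erase v) (insert v N))) : False := by
  have hnb : ∀ t ∈ N, ¬ G.Adj v t := by
    intro t ht hvt
    have : t ∈ nb G v N := mem_nb.2 ⟨ht, hvt⟩
    rw [dg, card_eq_zero] at h3
    rw [h3] at this
    exact notMem_empty t this
  obtain ⟨φ, hφ⟩ := hbad
  have hb : ∀ c : ZMod 3, ¬ Res G (D.erase v) (insert v N) (Function.update φ v c) := fun c =>
    bad_erase h.disj hφ hv fun t ht hvt => absurd hvt (hnb t ht)
  have hzero : ∀ l ∈ Submodule.span (ZMod 3) (Val G (D.erase v) (insert v N)), l v = 0 := by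
    intro l hl
    induction hl using Submodule.span_induction with
    | mem l hl =>
      rcases hl.2 with h1 | h1
      · have e0 := h1 _ (hb 0)
        have e1 := h1 _ (hb 1)
        rw [forms_upd] at e0 e1
        exact forms_z4 _ _ e0 e1
      · have e0 := h1 _ (hb 0)
        have e1 := h1 _ (hb 1)
        have e2 := h1 _ (hb 2)
        rw [forms_upd] at e0 e1 e2
        exact forms_z5 _ _ e0 e1 e2
    | zero => rfl
    | add l m _ _ hl hm => rw [Pi.add_apply, hl, hm, add_zero]
    | smul a l _ hl => rw [Pi.smul_apply, hl, smul_zero]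
  obtain ⟨t, ht⟩ := hne
  obtain ⟨htN, u, hu, hut⟩ := mem_nbs.1 ht
  have hvN : v ∉ N := fun h' => (disjoint_left.1 h.disj) hv h'
  have htv : t ≠ v := fun h' => hvN (h' ▸ htN)
  have huv : u ≠ v := by
    rintro rfl
    exact hnb t htN hut
  have ht' : t ∈ nbs G (D.erase v) (insert v N) :=
    mem_nbs.2 ⟨mem_insert_of_mem htN, u, mem_erase.2 ⟨huv, hu⟩, hut⟩
  have h1 := hzero (Pi.single v 1 - Pi.single t 1) (ih _ (by
    intro s hs
    have hsv : s ≠ v := fun h' => hs (h' ▸ hvD)
    have hst : s ≠ t := fun h' => hs (h' ▸ ht')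
    rw [Pi.sub_apply, Pi.single_eq_of_ne hsv, Pi.single_eq_of_ne hst, sub_zero]) (by
    simp only [Pi.sub_apply, Finset.sum_sub_distrib]
    simp))
  rw [Pi.sub_apply, Pi.single_eq_same, Pi.single_eq_of_ne htv.symm, sub_zero] at h1
  exact absurd h1 (by decide)

/-- A difference of two coordinates at neighbours of one vertex is a valid form. -/
private lemma forms_diff {D N : Finset V} (h : Blk G D N) {v p q : V} (hv : v ∈ D)
    (hp : p ∈ nb G v N) (hq : q ∈ nb G v N) (hpq : p ≠ q) :
    (Pi.single p 1 - Pi.single q 1 : V → ZMod 3) ∈ Val G D N := by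
  rw [mem_nb] at hp hq
  have hp' : p ∈ nbs G D N := mem_nbs.2 ⟨hp.1, v, hv, hp.2⟩
  have hq' : q ∈ nbs G D N := mem_nbs.2 ⟨hq.1, v, hv, hq.2⟩
  refine ⟨fun t ht => ?_, Or.inr fun φ hφ => ?_⟩
  · have h1 : t ≠ p := fun h' => ht (h' ▸ hp')
    have h2 : t ≠ q := fun h' => ht (h' ▸ hq')
    rw [Pi.sub_apply, Pi.single_eq_of_ne h1, Pi.single_eq_of_ne h2, sub_zero]
  · have h1 : ∑ t, (Pi.single p 1 - Pi.single q 1 : V → ZMod 3) t * φ t = φ p - φ q := by
      rw [← forms_single p φ, ← forms_single q φ, ← Finset.sum_sub_distrib]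
      refine Finset.sum_congr rfl fun t _ => ?_
      rw [Pi.sub_apply, sub_mul]
    rw [h1, sub_ne_zero]
    intro he
    exact hφ (h.res_of_eq hv hp.1 hq.1 hpq hp.2 hq.2 he)

/-- One vertex. -/
private lemma forms_one {D N : Finset V} (h : Blk G D N) (h1 : D.card = 1)
    (hbad : ∃ φ : V → ZMod 3, ¬ Res G D N φ) (l : V → ZMod 3)
    (hl : ∀ t, t ∉ nbs G D N → l t = 0) (hsum : ∑ t, l t = 0) :
    l ∈ Submodule.span (ZMod 3) (Val G D N) := by
  obtain ⟨v, hD⟩ := card_eq_one.1 h1
  have hv : v ∈ D := by rw [hD]; exact mem_singleton_self v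
  obtain ⟨φ, hφ⟩ := hbad
  have hdeg := h.deg_eq hφ hv
  have hd0 : dg G v D = 0 := by
    rw [dg, card_eq_zero, eq_empty_iff_forall_notMem]
    intro w hw
    rw [mem_nb, hD, mem_singleton] at hw
    exact G.ne_of_adj hw.2 hw.1.symm
  have h3 : (nb G v N).card = 3 := by
    change dg G v N = 3
    omega
  obtain ⟨a, b, c, hab, hac, hbc, hnb⟩ := card_eq_three.1 h3
  have ha : a ∈ nb G v N := by rw [hnb]; simp
  have hb : b ∈ nb G v N := by rw [hnb]; simp
  have hc : c ∈ nb G v N := by rw [hnb]; simp
  have hz : ∀ t, t ≠ a → t ≠ b → t ≠ c → l t = 0 := by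
    intro t ta tb tc
    apply hl
    intro ht
    obtain ⟨htN, u, hu, hut⟩ := mem_nbs.1 ht
    rw [hD, mem_singleton] at hu
    subst hu
    have : t ∈ nb G u N := mem_nb.2 ⟨htN, hut⟩
    rw [hnb] at this
    simp [ta, tb, tc] at this
  have hs : l a + l b + l c = 0 := by
    rw [← hsum, ← Finset.sum_subset (Finset.subset_univ {a, b, c})]
    · rw [Finset.sum_insert (by simp [hab, hac]), Finset.sum_insert (by simp [hbc]),
        Finset.sum_singleton, add_assoc]
    · intro t _ ht
      simp only [mem_insert, mem_singleton, not_or] at ht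
      exact hz t ht.1 ht.2.1 ht.2.2
  have he : l = l a • (Pi.single a 1 - Pi.single c 1 : V → ZMod 3) +
      l b • (Pi.single b 1 - Pi.single c 1 : V → ZMod 3) := by
    funext t
    simp only [Pi.add_apply, Pi.smul_apply, Pi.sub_apply, smul_eq_mul]
    by_cases ta : t = a
    · subst ta
      rw [Pi.single_eq_same, Pi.single_eq_of_ne hac, Pi.single_eq_of_ne hab]
      ring
    by_cases tb : t = b
    · subst tb
      rw [Pi.single_eq_same, Pi.single_eq_of_ne hbc, Pi.single_eq_of_ne hab.symm]
      ring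
    by_cases tc : t = c
    · subst tc
      rw [Pi.single_eq_same, Pi.single_eq_of_ne ta, Pi.single_eq_of_ne tb]
      linear_combination hs
    · rw [Pi.single_eq_of_ne ta, Pi.single_eq_of_ne tb, Pi.single_eq_of_ne tc, hz t ta tb tc]
      ring
  rw [he]
  exact Submodule.add_mem _
    (Submodule.smul_mem _ _ (Submodule.subset_span (forms_diff h hv ha hc hac)))
    (Submodule.smul_mem _ _ (Submodule.subset_span (forms_diff h hv hb hc hbc)))

/-- Two neighbours in `N`. -/
private lemma forms_two {D N : Finset V} (h : Blk G D N) {v : V} (hv : v ∈ D)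
    (h2 : dg G v N = 2) (hvD : v ∈ nbs G (D.erase v) (insert v N))
    (ih : ∀ l : V → ZMod 3, (∀ t, t ∉ nbs G (D.erase v) (insert v N) → l t = 0) →
      ∑ t, l t = 0 → l ∈ Submodule.span (ZMod 3) (Val G (D.erase v) (insert v N)))
    (l : V → ZMod 3) (hl : ∀ t, t ∉ nbs G D N → l t = 0) (hsum : ∑ t, l t = 0) :
    l ∈ Submodule.span (ZMod 3) (Val G D N) := by
  obtain ⟨p, q, hpq, hnb⟩ := card_eq_two.1 (show (nb G v N).card = 2 from h2)
  have hp : p ∈ nb G v N := by rw [hnb]; simp
  have hq : q ∈ nb G v N := by rw [hnb]; simp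
  have hp1 := mem_nb.1 hp
  have hq1 := mem_nb.1 hq
  have hvN : v ∉ N := fun h' => (disjoint_left.1 h.disj) hv h'
  have hpv : p ≠ v := fun h' => hvN (h' ▸ hp1.1)
  have hqv : q ≠ v := fun h' => hvN (h' ▸ hq1.1)
  set w : V → ZMod 3 := -(Pi.single p 1 + Pi.single q 1) with hwdef
  have hw : ∀ t, w t ≠ 0 → t ∈ N ∧ G.Adj v t := by
    intro t ht
    by_cases tp : t = p
    · rw [tp]; exact hp1
    by_cases tq : t = q
    · rw [tq]; exact hq1
    · exfalso
      apply ht
      rw [hwdef, Pi.neg_apply, Pi.add_apply, Pi.single_eq_of_ne tp, Pi.single_eq_of_ne tq,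
        add_zero, neg_zero]
  have hws : ∀ φ : V → ZMod 3, ∑ t, w t * φ t = -φ p - φ q := by
    intro φ
    have e : ∑ t, w t * φ t = -(∑ t, (Pi.single p 1 : V → ZMod 3) t * φ t) -
        ∑ t, (Pi.single q 1 : V → ZMod 3) t * φ t := by
      rw [← Finset.sum_neg_distrib, ← Finset.sum_sub_distrib]
      refine Finset.sum_congr rfl fun t _ => ?_
      rw [hwdef, Pi.neg_apply, Pi.add_apply]
      ring
    rw [e, forms_single, forms_single]
  have hmap : ∀ l' ∈ Val G (D.erase v) (insert v N), formsMap v w l' ∈ Val G D N := by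
    intro l' hl'
    have key : ∀ φ : V → ZMod 3, ¬ Res G D N φ →
        ¬ Res G (D.erase v) (insert v N) (Function.update φ v (-φ p - φ q)) ∧
        ∑ t, formsMap v w l' t * φ t =
          ∑ t, l' t * Function.update φ v (-φ p - φ q) t := by
      intro φ hφ
      have hne : φ p ≠ φ q := fun he =>
        hφ (h.res_of_eq hv hp1.1 hq1.1 hpq hp1.2 hq1.2 he)
      refine ⟨bad_erase h.disj hφ hv fun t ht hvt => ?_, ?_⟩
      · have : t ∈ nb G v N := mem_nb.2 ⟨ht, hvt⟩
        rw [hnb, mem_insert, mem_singleton] at this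
        rcases this with rfl | rfl
        · exact (forms_z1 _ _ hne).1
        · exact (forms_z1 _ _ hne).2
      · rw [forms_map_sum, forms_upd, hws]
    refine ⟨fun t ht => forms_supp hv hw hl'.1 ht, ?_⟩
    rcases hl'.2 with h1 | h1
    · refine Or.inl fun φ hφ => ?_
      rw [(key φ hφ).2]
      exact h1 _ (key φ hφ).1
    · refine Or.inr fun φ hφ => ?_
      rw [(key φ hφ).2]
      exact h1 _ (key φ hφ).1
  have hlv : l v = 0 := hl v fun h' => hvN (mem_nbs.1 h').1
  set l' : V → ZMod 3 :=
    Function.update (Function.update (Function.update l p 0) q 0) v (l p + l q) with hl'def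
  have hl' : l' ∈ Submodule.span (ZMod 3) (Val G (D.erase v) (insert v N)) := by
    apply ih
    · intro t ht
      have htv : t ≠ v := fun h' => ht (h' ▸ hvD)
      rw [hl'def, Function.update_of_ne htv]
      by_cases tq : t = q
      · rw [tq, Function.update_self]
      rw [Function.update_of_ne tq]
      by_cases tp : t = p
      · rw [tp, Function.update_self]
      rw [Function.update_of_ne tp]
      apply hl
      intro ht'
      obtain ⟨htN, u, hu, hut⟩ := mem_nbs.1 ht'
      refine ht (mem_nbs.2 ⟨mem_insert_of_mem htN, u, mem_erase.2 ⟨?_, hu⟩, hut⟩)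
      rintro rfl
      have : t ∈ nb G u N := mem_nb.2 ⟨htN, hut⟩
      rw [hnb, mem_insert, mem_singleton] at this
      exact this.elim tp tq
    · rw [hl'def, forms_sum_update, forms_sum_update, forms_sum_update, hsum,
        Function.update_of_ne hqv.symm, Function.update_of_ne hpv.symm, hlv,
        Function.update_of_ne hpq.symm]
      ring
  have hmem : formsMap v w l' ∈ Submodule.span (ZMod 3) (Val G D N) :=
    (Submodule.map_span_le (formsMap v w) _ _).2
      (fun m hm => Submodule.subset_span (hmap m hm)) (Submodule.mem_map_of_mem hl')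
  have he : l = formsMap v w l' +
      (l q - l p) • (Pi.single p 1 - Pi.single q 1 : V → ZMod 3) := by
    funext t
    have hl'v : l' v = l p + l q := by rw [hl'def, Function.update_self]
    rw [Pi.add_apply, formsMap_apply, hl'v, Pi.smul_apply, Pi.sub_apply, smul_eq_mul, hwdef,
      Pi.neg_apply, Pi.add_apply]
    by_cases tv : t = v
    · subst tv
      rw [Function.update_self, Pi.single_eq_of_ne hpv.symm, Pi.single_eq_of_ne hqv.symm, hlv]
      ring
    rw [Function.update_of_ne tv, hl'def, Function.update_of_ne tv]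
    by_cases tq : t = q
    · subst tq
      rw [Function.update_self, Pi.single_eq_same, Pi.single_eq_of_ne hpq.symm]
      have := (forms_z7 (l p) (l t)).2
      linear_combination this
    rw [Function.update_of_ne tq]
    by_cases tp : t = p
    · subst tp
      rw [Function.update_self, Pi.single_eq_same, Pi.single_eq_of_ne hpq]
      have := (forms_z7 (l t) (l q)).1
      linear_combination this
    · rw [Function.update_of_ne tp, Pi.single_eq_of_ne tp, Pi.single_eq_of_ne tq]
      ring
  rw [he]
  exact Submodule.add_mem _ hmem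
    (Submodule.smul_mem _ _ (Submodule.subset_span (forms_diff h hv hp hq hpq)))

/-- One neighbour in `N`. -/
private lemma forms_single_nb {D N : Finset V} (h : Blk G D N) {v : V} (hv : v ∈ D)
    (h2 : dg G v N = 1) (hvD : v ∈ nbs G (D.erase v) (insert v N))
    (ih : ∀ l : V → ZMod 3, (∀ t, t ∉ nbs G (D.erase v) (insert v N) → l t = 0) →
      ∑ t, l t = 0 → l ∈ Submodule.span (ZMod 3) (Val G (D.erase v) (insert v N)))
    (l : V → ZMod 3) (hl : ∀ t, t ∉ nbs G D N → l t = 0) (hsum : ∑ t, l t = 0) :
    l ∈ Submodule.span (ZMod 3) (Val G D N) := by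
  obtain ⟨p, hnb⟩ := card_eq_one.1 (show (nb G v N).card = 1 from h2)
  have hp : p ∈ nb G v N := by rw [hnb]; simp
  have hp1 := mem_nb.1 hp
  have hvN : v ∉ N := fun h' => (disjoint_left.1 h.disj) hv h'
  have hpv : p ≠ v := fun h' => hvN (h' ▸ hp1.1)
  set w : V → ZMod 3 := Pi.single p 1 with hwdef
  have hw : ∀ t, w t ≠ 0 → t ∈ N ∧ G.Adj v t := by
    intro t ht
    by_cases tp : t = p
    · rw [tp]; exact hp1
    · exfalso
      apply ht
      rw [hwdef, Pi.single_eq_of_ne tp]
  have hbd : ∀ φ : V → ZMod 3, ¬ Res G D N φ → ∀ c, c ≠ φ p →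
      ¬ Res G (D.erase v) (insert v N) (Function.update φ v c) := by
    intro φ hφ c hc
    refine bad_erase h.disj hφ hv fun t ht hvt => ?_
    have : t ∈ nb G v N := mem_nb.2 ⟨ht, hvt⟩
    rw [hnb, mem_singleton] at this
    rw [this]
    exact hc
  have hmap : ∀ l' ∈ Val G (D.erase v) (insert v N), formsMap v w l' ∈ Val G D N := by
    intro l' hl'
    have key : ∀ φ : V → ZMod 3, ∑ t, formsMap v w l' t * φ t =
          ∑ t, Function.update l' v 0 t * φ t + l' v * φ p := by
      intro φ
      rw [forms_map_sum, hwdef, forms_single]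
    refine ⟨fun t ht => forms_supp hv hw hl'.1 ht, ?_⟩
    rcases hl'.2 with h1 | h1
    · refine Or.inl fun φ hφ => ?_
      rw [key]
      have e1 := h1 _ (hbd φ hφ _ (forms_z6 (φ p)).1)
      have e2 := h1 _ (hbd φ hφ _ (forms_z6 (φ p)).2)
      rw [forms_upd] at e1 e2
      exact forms_z2 _ _ _ e1 e2
    · by_cases ha : l' v = 0
      · refine Or.inr fun φ hφ => ?_
        rw [key]
        have e1 := h1 _ (hbd φ hφ _ (forms_z6 (φ p)).1)
        rw [forms_upd, ha, zero_mul, add_zero] at e1
        rw [ha, zero_mul, add_zero]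
        exact e1
      · refine Or.inl fun φ hφ => ?_
        rw [key]
        have e1 := h1 _ (hbd φ hφ _ (forms_z6 (φ p)).1)
        have e2 := h1 _ (hbd φ hφ _ (forms_z6 (φ p)).2)
        rw [forms_upd] at e1 e2
        exact forms_z3 _ _ _ ha e1 e2
  have hlv : l v = 0 := hl v fun h' => hvN (mem_nbs.1 h').1
  set l' : V → ZMod 3 := Function.update (Function.update l p 0) v (l p) with hl'def
  have hl' : l' ∈ Submodule.span (ZMod 3) (Val G (D.erase v) (insert v N)) := by
    apply ih
    · intro t ht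
      have htv : t ≠ v := fun h' => ht (h' ▸ hvD)
      rw [hl'def, Function.update_of_ne htv]
      by_cases tp : t = p
      · rw [tp, Function.update_self]
      rw [Function.update_of_ne tp]
      apply hl
      intro ht'
      obtain ⟨htN, u, hu, hut⟩ := mem_nbs.1 ht'
      refine ht (mem_nbs.2 ⟨mem_insert_of_mem htN, u, mem_erase.2 ⟨?_, hu⟩, hut⟩)
      rintro rfl
      have : t ∈ nb G u N := mem_nb.2 ⟨htN, hut⟩
      rw [hnb, mem_singleton] at this
      exact tp this
    · rw [hl'def, forms_sum_update, forms_sum_update, hsum, Function.update_of_ne hpv.symm, hlv]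
      ring
  have hmem : formsMap v w l' ∈ Submodule.span (ZMod 3) (Val G D N) :=
    (Submodule.map_span_le (formsMap v w) _ _).2
      (fun m hm => Submodule.subset_span (hmap m hm)) (Submodule.mem_map_of_mem hl')
  have he : l = formsMap v w l' := by
    funext t
    have hl'v : l' v = l p := by rw [hl'def, Function.update_self]
    rw [formsMap_apply, hl'v, hwdef]
    by_cases tv : t = v
    · subst tv
      rw [Function.update_self, Pi.single_eq_of_ne hpv.symm, hlv]
      ring
    rw [Function.update_of_ne tv, hl'def, Function.update_of_ne tv]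
    by_cases tp : t = p
    · subst tp
      rw [Function.update_self, Pi.single_eq_same]
      ring
    · rw [Function.update_of_ne tp, Pi.single_eq_of_ne tp]
      ring
  rw [he]
  exact hmem

omit [Fintype V] in
private lemma forms_mem_nbs {D N : Finset V} {v : V} (h1 : 1 ≤ dg G v D) :
    v ∈ nbs G (D.erase v) (insert v N) := by
  obtain ⟨u, hu⟩ := card_pos.1 (show 0 < (nb G v D).card from h1)
  rw [mem_nb] at hu
  exact mem_nbs.2 ⟨mem_insert_self v N, u, mem_erase.2 ⟨(G.ne_of_adj hu.2).symm, hu.1⟩,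
    hu.2.symm⟩

omit [Fintype V] in
private lemma forms_exists_bad {D N : Finset V} (h : Blk G D N)
    (hbad : ∃ φ : V → ZMod 3, ¬ Res G D N φ) {v : V} (hv : v ∈ D) (h1 : 1 ≤ dg G v D) :
    ∃ φ : V → ZMod 3, ¬ Res G (D.erase v) (insert v N) φ := by
  obtain ⟨φ, hφ⟩ := hbad
  have hdeg := h.deg_eq hφ hv
  have hcard : ((nb G v N).image φ).card < (Finset.univ : Finset (ZMod 3)).card := by
    refine card_image_le.trans_lt ?_
    change dg G v N < 3
    omega
  obtain ⟨c, _, hc⟩ := exists_mem_notMem_of_card_lt_card hcard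
  refine ⟨Function.update φ v c, bad_erase h.disj hφ hv fun t ht hvt he => hc ?_⟩
  rw [mem_image]
  exact ⟨t, mem_nb.2 ⟨ht, hvt⟩, he.symm⟩

private lemma forms_main (n : ℕ) : ∀ (D N : Finset V), D.card = n → Blk G D N →
    (nbs G D N).Nonempty → (∃ φ : V → ZMod 3, ¬ Res G D N φ) → ∀ l : V → ZMod 3,
    (∀ t, t ∉ nbs G D N → l t = 0) → ∑ t, l t = 0 →
    l ∈ Submodule.span (ZMod 3) (Val G D N) := by
  induction n with
  | zero =>
    intro D N h0 h
    rw [card_eq_zero] at h0
    exact absurd h.conn.1 (by rw [h0]; exact not_nonempty_empty)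
  | succ n ih =>
    intro D N hcard h hne hbad l hl hsum
    rcases Nat.eq_zero_or_pos n with hn | hn
    · subst hn
      exact forms_one h (by simpa using hcard) hbad l hl hsum
    · obtain ⟨v, hv, hc⟩ := h.conn.exists_noncut (by omega)
      have h1 := h.conn.one_le_dg (by omega) hv
      have hvD : v ∈ nbs G (D.erase v) (insert v N) := forms_mem_nbs h1
      have ih' := ih (D.erase v) (insert v N) (by rw [card_erase_of_mem hv]; omega)
        (h.erase hv hc) ⟨v, hvD⟩ (forms_exists_bad h hbad hv h1)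
      obtain ⟨φ, hφ⟩ := hbad
      have hdeg := h.deg_eq hφ hv
      obtain h3 | h3 | h3 : dg G v N = 0 ∨ dg G v N = 1 ∨ dg G v N = 2 := by omega
      · exact (forms_three h hne ⟨φ, hφ⟩ hv h3 hvD ih').elim
      · exact forms_single_nb h hv h3 hvD ih' l hl hsum
      · exact forms_two h hv h3 hvD ih' l hl hsum

/-- Valid forms span all forms with coefficient sum zero. -/
theorem mem_span_val {D N : Finset V} (h : Blk G D N) (hne : (nbs G D N).Nonempty)
    (hbad : ∃ φ : V → ZMod 3, ¬ Res G D N φ) (l : V → ZMod 3)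
    (hl : ∀ t, t ∉ nbs G D N → l t = 0) (hsum : ∑ t, l t = 0) :
    l ∈ Submodule.span (ZMod 3) (Val G D N) := by
  exact forms_main D.card D N rfl h hne hbad l hl hsum

/-- Vertices which are not cut vertices have a neighbour in `N`. -/
theorem dg_le_two {D N : Finset V} (h : Blk G D N) (hne : (nbs G D N).Nonempty)
    (hbad : ∃ φ : V → ZMod 3, ¬ Res G D N φ) {v : V} (hv : v ∈ D)
    (hc : Conn G (D.erase v)) : dg G v D ≤ 2 := by
  by_contra hlt
  have h1 := h.deg v hv
  have h3 : dg G v N = 0 := by omega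
  have h1' : 1 ≤ dg G v D := by omega
  have hvD : v ∈ nbs G (D.erase v) (insert v N) := forms_mem_nbs h1'
  exact forms_three h hne hbad hv h3 hvD fun l hl hsum =>
    mem_span_val (h.erase hv hc) ⟨v, hvD⟩ (forms_exists_bad h hbad hv h1') l hl hsum

end Pool.Agent.Lib.MP_7aba48_co_TF
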