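import Pool.Agent.Lib.MP_7aba48_co_TF.Defs

/-!
# Assignment of edges by the marriage theorem
-/

namespace Pool.Agent.Lib.MP_7aba48_co_TF

open Finset Pool.Agent.Lib.MP_7aba48_co_G5

universe u

variable {V : Type u} [DecidableEq V] {G : SimpleGraph V}

omit [DecidableEq V] in
private lemma ed_card [DecidableRel G.Adj] (σ X : Finset V) :
    ((σ ×ˢ X).filter (fun p => G.Adj p.1 p.2)).card = ed G σ X := by
  rw [Finset.card_filter, Finset.sum_product]
  unfold ed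
  refine Finset.sum_congr rfl fun v _ => ?_
  rw [← Finset.card_filter]
  unfold dg
  congr 1
  ext w
  rw [mem_nb, Finset.mem_filter]

private lemma ed_split (σ X A : Finset V) (hA : A ⊆ X) :
    ed G σ X = ed G σ A + ed G σ (X \ A) := by
  unfold ed
  rw [← Finset.sum_add_distrib]
  refine Finset.sum_congr rfl fun v _ => ?_
  unfold dg
  rw [← Finset.card_union_of_disjoint]
  · congr 1
    ext w
    simp only [mem_nb, Finset.mem_union, Finset.mem_sdiff]
    constructor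
    · rintro ⟨h1, h2⟩
      by_cases hw : w ∈ A
      · exact Or.inl ⟨hw, h2⟩
      · exact Or.inr ⟨⟨h1, hw⟩, h2⟩
    · rintro (⟨h1, h2⟩ | ⟨⟨h1, _⟩, h2⟩)
      · exact ⟨hA h1, h2⟩
      · exact ⟨h1, h2⟩
  · rw [Finset.disjoint_left]
    intro w h1 h2
    exact (Finset.mem_sdiff.1 (mem_nb.1 h2).1).2 (mem_nb.1 h1).1

omit [DecidableEq V] in
private lemma ed_empty (σ : Finset V) : ed G σ ∅ = 0 := by
  unfold ed
  refine Finset.sum_eq_zero fun v _ => ?_
  unfold dg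
  rw [Finset.card_eq_zero]
  ext w
  simp [mem_nb]

/-- the numerical part of the marriage condition -/
private lemma hall_num {𝒮 : Finset (Finset V)} {l : Finset V → ℕ} {Ts : Finset V}
    (hTs : 2 * Ts.card ≤ ∑ σ ∈ 𝒮, (ed G σ Ts - l σ))
    (hmin : ∀ B ⊂ Ts, B.Nonempty → ∑ σ ∈ 𝒮, (ed G σ B - l σ) < 2 * B.card)
    {A : Finset V} (hA : A ⊆ Ts) (𝒮' : Finset (Finset V)) (hS' : 𝒮' ⊆ 𝒮) :
    2 * A.card + ∑ σ ∈ 𝒮', min (l σ) (ed G σ Ts) ≤
      ∑ σ ∈ 𝒮, (if σ ∈ 𝒮' then ed G σ Ts else ed G σ A) := by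
  classical
  have hcard : Ts.card = A.card + (Ts \ A).card := by
    rw [Finset.card_sdiff_of_subset hA]
    have := Finset.card_le_card hA
    omega
  have hkey : ∑ σ ∈ 𝒮, (ed G σ Ts - l σ) ≤ ∑ σ ∈ 𝒮, (ed G σ (Ts \ A) - l σ) +
      ∑ σ ∈ 𝒮, (if σ ∈ 𝒮' then ed G σ Ts - l σ else ed G σ A) := by
    rw [← Finset.sum_add_distrib]
    refine Finset.sum_le_sum fun σ _ => ?_
    have h1 := ed_split (G := G) σ Ts A hA
    split_ifs
    · omega
    · omega
  have hc : 2 * A.card ≤ ∑ σ ∈ 𝒮, (if σ ∈ 𝒮' then ed G σ Ts - l σ else ed G σ A) := by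
    rcases A.eq_empty_or_nonempty with hAe | hAn
    · simp [hAe]
    rcases (Ts \ A).eq_empty_or_nonempty with he | hn
    · have h0 : ∑ σ ∈ 𝒮, (ed G σ (Ts \ A) - l σ) = 0 := by
        refine Finset.sum_eq_zero fun σ _ => ?_
        rw [he, ed_empty]
        omega
      rw [he, Finset.card_empty] at hcard
      omega
    · have hss : Ts \ A ⊂ Ts := by
        refine Finset.ssubset_iff_subset_ne.2 ⟨Finset.sdiff_subset, fun h => ?_⟩
        rw [h] at hcard
        have := hAn.card_pos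
        omega
      have := hmin _ hss hn
      omega
  have hsum : ∑ σ ∈ 𝒮, (if σ ∈ 𝒮' then ed G σ Ts else ed G σ A) =
      ∑ σ ∈ 𝒮, (if σ ∈ 𝒮' then ed G σ Ts - l σ else ed G σ A) +
        ∑ σ ∈ 𝒮', min (l σ) (ed G σ Ts) := by
    have h1 : ∑ σ ∈ 𝒮', min (l σ) (ed G σ Ts) =
        ∑ σ ∈ 𝒮, (if σ ∈ 𝒮' then min (l σ) (ed G σ Ts) else 0) := by
      rw [← Finset.sum_filter]
      refine Finset.sum_congr ?_ fun _ _ => rfl
      ext σ
      rw [Finset.mem_filter]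
      exact ⟨fun h => ⟨hS' h, h⟩, fun h => h.2⟩
    rw [h1, ← Finset.sum_add_distrib]
    refine Finset.sum_congr rfl fun σ _ => ?_
    split_ifs
    · omega
    · omega
  rw [hsum]
  omega

/-- The type of the slots. -/
private abbrev Slot (V : Type u) : Type u := (V × Bool) ⊕ (Σ _ : Finset V, ℕ)

/-- The valid slots. -/
private def okS (𝒮 : Finset (Finset V)) (m : Finset V → ℕ) (Ts : Finset V) : Slot V → Prop
  | Sum.inl x => x.1 ∈ Ts
  | Sum.inr y => y.1 ∈ 𝒮 ∧ y.2 < m y.1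

/-- The pairs accepted by a slot. -/
private def acc (PP : Finset (V × V)) : Slot V → Finset (V × V)
  | Sum.inl x => PP.filter (fun p => p.2 = x.1)
  | Sum.inr y => PP.filter (fun p => p.1 ∈ y.1)

private lemma hall_cond {𝒮 : Finset (Finset V)}
    (hdisj : ∀ σ ∈ 𝒮, ∀ τ ∈ 𝒮, ∀ v, v ∈ σ → v ∈ τ → σ = τ) {l : Finset V → ℕ} {Ts : Finset V}
    (hTs : 2 * Ts.card ≤ ∑ σ ∈ 𝒮, (ed G σ Ts - l σ))
    (hmin : ∀ B ⊂ Ts, B.Nonempty → ∑ σ ∈ 𝒮, (ed G σ B - l σ) < 2 * B.card)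
    {PP : Finset (V × V)}
    (hPP : ∀ p, p ∈ PP ↔ (∃ σ ∈ 𝒮, p.1 ∈ σ) ∧ p.2 ∈ Ts ∧ G.Adj p.1 p.2)
    (s : Finset {x : Slot V // okS 𝒮 (fun σ => min (l σ) (ed G σ Ts)) Ts x}) :
    s.card ≤ (s.biUnion (fun x => acc PP x.1)).card := by
  classical
  set A : Finset V := Ts.filter (fun t => ∃ b h, (⟨Sum.inl (t, b), h⟩ :
    {x : Slot V // okS 𝒮 (fun σ => min (l σ) (ed G σ Ts)) Ts x}) ∈ s) with hAdef
  set S' : Finset (Finset V) := 𝒮.filter (fun σ => ∃ n h, (⟨Sum.inr ⟨σ, n⟩, h⟩ :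
    {x : Slot V // okS 𝒮 (fun σ => min (l σ) (ed G σ Ts)) Ts x}) ∈ s) with hSdef
  have h1 : s.card ≤ 2 * A.card + ∑ σ ∈ S', min (l σ) (ed G σ Ts) := by
    have h2 : s.map (Function.Embedding.subtype _) ⊆
        ((A ×ˢ (Finset.univ : Finset Bool)).disjSum
          (S'.sigma fun σ => Finset.range (min (l σ) (ed G σ Ts)))) := by
      intro x hx
      rw [Finset.mem_map] at hx
      obtain ⟨⟨y, hy⟩, hys, rfl⟩ := hx
      rw [Function.Embedding.coe_subtype]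
      rcases y with ⟨t, b⟩ | ⟨σ, n⟩
      · rw [Finset.inl_mem_disjSum, Finset.mem_product]
        exact ⟨Finset.mem_filter.2 ⟨hy, b, hy, hys⟩, Finset.mem_univ _⟩
      · rw [Finset.inr_mem_disjSum, Finset.mem_sigma]
        exact ⟨Finset.mem_filter.2 ⟨hy.1, n, hy, hys⟩, Finset.mem_range.2 hy.2⟩
    have h3 := Finset.card_le_card h2
    rw [Finset.card_map, Finset.card_disjSum, Finset.card_product, Finset.card_sigma] at h3
    simp only [Finset.card_univ, Fintype.card_bool, Finset.card_range] at h3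
    omega
  have h4 := hall_num hTs hmin (A := A) (Finset.filter_subset _ _) S' (Finset.filter_subset _ _)
  have h5 : ∑ σ ∈ 𝒮, (if σ ∈ S' then ed G σ Ts else ed G σ A) ≤
      (s.biUnion (fun x => acc PP x.1)).card := by
    set B := s.biUnion (fun x => acc PP x.1) with hB
    have h6 : (𝒮.biUnion fun σ => B.filter (fun p => p.1 ∈ σ)) ⊆ B := by
      intro p hp
      rw [Finset.mem_biUnion] at hp
      obtain ⟨σ, _, hp⟩ := hp
      exact (Finset.mem_filter.1 hp).1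
    refine le_trans ?_ (Finset.card_le_card h6)
    rw [Finset.card_biUnion]
    · refine Finset.sum_le_sum fun σ hσ => ?_
      split_ifs with hσ'
      · rw [← ed_card σ Ts]
        refine Finset.card_le_card fun p hp => ?_
        rw [Finset.mem_filter, Finset.mem_product] at hp
        rw [Finset.mem_filter]
        refine ⟨?_, hp.1.1⟩
        obtain ⟨n, h, hn⟩ := (Finset.mem_filter.1 hσ').2
        rw [hB, Finset.mem_biUnion]
        exact ⟨_, hn, Finset.mem_filter.2 ⟨(hPP p).2 ⟨⟨σ, hσ, hp.1.1⟩, hp.1.2, hp.2⟩, hp.1.1⟩⟩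
      · rw [← ed_card σ A]
        refine Finset.card_le_card fun p hp => ?_
        rw [Finset.mem_filter, Finset.mem_product] at hp
        rw [Finset.mem_filter]
        refine ⟨?_, hp.1.1⟩
        obtain ⟨hpT, b, h, hn⟩ := Finset.mem_filter.1 hp.1.2
        rw [hB, Finset.mem_biUnion]
        exact ⟨_, hn, Finset.mem_filter.2 ⟨(hPP p).2 ⟨⟨σ, hσ, hp.1.1⟩, hpT, hp.2⟩, rfl⟩⟩
    · intro σ hσ τ hτ hne
      rw [Function.onFun, Finset.disjoint_left]
      intro p h7 h8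
      exact hne (hdisj σ hσ τ hτ p.1 (Finset.mem_filter.1 h7).2 (Finset.mem_filter.1 h8).2)
  omega

/-- If the total surplus towards `T` is at least `2 |T|`, then there are a nonempty subset `Ts` and
a set `U` of edges between the suppliers and `Ts` with at least two edges at each vertex of `Ts`,
and no more edges at each supplier `σ` than its surplus towards `Ts`. -/
theorem hall_units (𝒮 : Finset (Finset V))
    (hdisj : ∀ σ ∈ 𝒮, ∀ τ ∈ 𝒮, ∀ v, v ∈ σ → v ∈ τ → σ = τ) (l : Finset V → ℕ)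
    {T : Finset V} (hT : T.Nonempty) (hf : 2 * T.card ≤ ∑ σ ∈ 𝒮, (ed G σ T - l σ)) :
    ∃ Ts ⊆ T, Ts.Nonempty ∧ ∃ U : Finset (V × V),
      (∀ p ∈ U, p.2 ∈ Ts ∧ G.Adj p.1 p.2 ∧ ∃ σ ∈ 𝒮, p.1 ∈ σ) ∧
      (∀ t ∈ Ts, 2 ≤ (U.filter (fun p => p.2 = t)).card) ∧
      ∀ σ ∈ 𝒮, (U.filter (fun p => p.1 ∈ σ)).card ≤ ed G σ Ts - l σ := by
  classical
  -- a minimal set
  obtain ⟨Ts, hTsm, hTsmin⟩ := Finset.exists_min_image
    (T.powerset.filter (fun B => B.Nonempty ∧ 2 * B.card ≤ ∑ σ ∈ 𝒮, (ed G σ B - l σ)))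
    Finset.card ⟨T, Finset.mem_filter.2 ⟨Finset.mem_powerset_self T, hT, hf⟩⟩
  rw [Finset.mem_filter, Finset.mem_powerset] at hTsm
  obtain ⟨hTsT, hTsn, hTs⟩ := hTsm
  have hmin : ∀ B ⊂ Ts, B.Nonempty → ∑ σ ∈ 𝒮, (ed G σ B - l σ) < 2 * B.card := by
    intro B hB hBn
    by_contra hcon
    have h1 := hTsmin B (Finset.mem_filter.2
      ⟨Finset.mem_powerset.2 (hB.1.trans hTsT), hBn, not_lt.1 hcon⟩)
    exact absurd (Finset.card_lt_card hB) (not_lt.2 h1)
  obtain ⟨PP, hPP⟩ : ∃ PP : Finset (V × V),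
      ∀ p, p ∈ PP ↔ (∃ σ ∈ 𝒮, p.1 ∈ σ) ∧ p.2 ∈ Ts ∧ G.Adj p.1 p.2 := by
    refine ⟨((𝒮.biUnion id) ×ˢ Ts).filter (fun p => G.Adj p.1 p.2), fun p => ?_⟩
    rw [Finset.mem_filter, Finset.mem_product, Finset.mem_biUnion]
    exact ⟨fun h => ⟨h.1.1, h.1.2, h.2⟩, fun h => ⟨⟨h.1, h.2.1⟩, h.2.2⟩⟩
  obtain ⟨f, hfi, hfa⟩ := (Finset.all_card_le_biUnion_card_iff_exists_injective
    (fun x : {x : Slot V // okS 𝒮 (fun σ => min (l σ) (ed G σ Ts)) Ts x} => acc PP x.1)).1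
      (hall_cond hdisj hTs hmin hPP)
  refine ⟨Ts, hTsT, hTsn, PP.filter (fun p => ∃ t b h, f ⟨Sum.inl (t, b), h⟩ = p), ?_, ?_, ?_⟩
  · intro p hp
    have h1 := (hPP p).1 (Finset.mem_filter.1 hp).1
    exact ⟨h1.2.1, h1.2.2, h1.1⟩
  · intro t ht
    have hmem : ∀ b, f ⟨Sum.inl (t, b), ht⟩ ∈
        ((PP.filter (fun p => ∃ t b h, f ⟨Sum.inl (t, b), h⟩ = p)).filter
          (fun p => p.2 = t)) := by
      intro b
      have h1 := Finset.mem_filter.1 (hfa ⟨Sum.inl (t, b), ht⟩)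
      exact Finset.mem_filter.2 ⟨Finset.mem_filter.2 ⟨h1.1, t, b, ht, rfl⟩, h1.2⟩
    refine Finset.one_lt_card.2 ⟨_, hmem true, _, hmem false, fun h => ?_⟩
    have h2 := congrArg Subtype.val (hfi h)
    simp at h2
  · intro σ hσ
    have h1 : ((PP.filter (fun p => ∃ t b h, f ⟨Sum.inl (t, b), h⟩ = p)).filter
        (fun p => p.1 ∈ σ)).card + min (l σ) (ed G σ Ts) ≤ ed G σ Ts := by
      have h2 : ((Finset.univ : Finset (Fin (min (l σ) (ed G σ Ts)))).image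
          (fun n => f ⟨Sum.inr ⟨σ, n.1⟩, ⟨hσ, n.2⟩⟩)).card = min (l σ) (ed G σ Ts) := by
        rw [Finset.card_image_of_injective, Finset.card_univ, Fintype.card_fin]
        intro n n' hnn
        have h3 := congrArg Subtype.val (hfi hnn)
        simp only [Sum.inr.injEq, Sigma.mk.injEq, heq_eq_eq, true_and] at h3
        exact Fin.ext h3
      rw [← h2, ← Finset.card_union_of_disjoint]
      · refine le_trans (Finset.card_le_card fun p hp => ?_) (ed_card σ Ts).le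
        rw [Finset.mem_union] at hp
        rw [Finset.mem_filter, Finset.mem_product]
        rcases hp with hp | hp
        · rw [Finset.mem_filter, Finset.mem_filter] at hp
          have h3 := (hPP p).1 hp.1.1
          exact ⟨⟨hp.2, h3.2.1⟩, h3.2.2⟩
        · rw [Finset.mem_image] at hp
          obtain ⟨n, _, rfl⟩ := hp
          have h4 := Finset.mem_filter.1 (hfa ⟨Sum.inr ⟨σ, n.1⟩, ⟨hσ, n.2⟩⟩)
          have h3 := (hPP _).1 h4.1
          exact ⟨⟨h4.2, h3.2.1⟩, h3.2.2⟩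
      · rw [Finset.disjoint_left]
        intro p hp hq
        rw [Finset.mem_filter, Finset.mem_filter] at hp
        obtain ⟨t, b, h, hfp⟩ := hp.1.2
        rw [Finset.mem_image] at hq
        obtain ⟨n, _, hn⟩ := hq
        have h3 := congrArg Subtype.val (hfi (hfp.trans hn.symm))
        simp at h3
    omega

end Pool.Agent.Lib.MP_7aba48_co_TF
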