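import Mathlib

/-!
# The dimension of a sum of spaces of forms with coefficient sum zero
-/

namespace Pool.Agent.Lib.MP_7aba48_co_TF

open Finset Module

private lemma rank_count {V ι : Type*} [Fintype V] [DecidableEq V] (J : Finset ι)
    (N : ι → Finset V) (hSH : ∀ J' ⊆ J, J'.Nonempty → J'.card < (J'.biUnion N).card)
    (r : V → V) (ρ : ι → V) (hρ : ∀ j ∈ J, ∀ t ∈ N j, r t = ρ j) :
    J.card ≤ (univ.filter (fun t => r t ≠ t)).card := by
  classical
  set A := univ.filter (fun t => r t ≠ t) with hA
  rw [Finset.card_eq_sum_card_image ρ J]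
  have h1 : ∑ k ∈ J.image ρ, (A.filter (fun t => r t = k)).card ≤ A.card := by
    rw [Finset.sum_card_fiberwise_eq_card_filter]
    exact card_le_card (filter_subset _ _)
  refine le_trans (sum_le_sum fun k hk => ?_) h1
  obtain ⟨j, hj, rfl⟩ := mem_image.1 hk
  have h2 := hSH (J.filter (fun i => ρ i = ρ j)) (filter_subset _ _)
    ⟨j, mem_filter.2 ⟨hj, rfl⟩⟩
  have h3 : (J.filter (fun i => ρ i = ρ j)).biUnion N ⊆
      insert (ρ j) (A.filter (fun t => r t = ρ j)) := by
    intro t ht
    obtain ⟨i, hi, hti⟩ := mem_biUnion.1 ht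
    obtain ⟨hiJ, hie⟩ := mem_filter.1 hi
    have h4 : r t = ρ j := (hρ i hiJ t hti).trans hie
    by_cases h5 : t = ρ j
    · exact mem_insert.2 (Or.inl h5)
    · refine mem_insert.2 (Or.inr (mem_filter.2 ⟨mem_filter.2 ⟨mem_univ _, ?_⟩, h4⟩))
      rw [h4]
      exact fun h => h5 h.symm
  have h6 := (card_le_card h3).trans (card_insert_le _ _)
  omega

/-- If every nonempty subfamily of the sets `N j` covers more elements than it has members, then
the forms with coefficient sum zero supported by one of the sets span a space of dimension at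
least the number of sets. -/
theorem rank_le {V ι : Type*} [Fintype V] [DecidableEq V] (J : Finset ι) (N : ι → Finset V)
    (hSH : ∀ J' ⊆ J, J'.Nonempty → J'.card < (J'.biUnion N).card) :
    J.card ≤ finrank (ZMod 3) (Submodule.span (ZMod 3)
      (⋃ j ∈ J, {l : V → ZMod 3 | (∀ t, t ∉ N j → l t = 0) ∧ ∑ t, l t = 0})) := by
  classical
  set W := Submodule.span (ZMod 3)
      (⋃ j ∈ J, {l : V → ZMod 3 | (∀ t, t ∉ N j → l t = 0) ∧ ∑ t, l t = 0}) with hW
  let e : V → V → ZMod 3 := fun t => Pi.single t 1
  let S : Setoid V :=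
    { r := fun s t => e s - e t ∈ W
      iseqv :=
        { refl := fun s => by rw [sub_self]; exact W.zero_mem
          symm := fun {s t} h => by rw [← neg_sub]; exact W.neg_mem h
          trans := fun {s t u} h h' => by
            have := W.add_mem h h'
            rwa [sub_add_sub_cancel] at this } }
  let r : V → V := fun t => (Quotient.mk S t).out
  have hr : ∀ t, e t - e (r t) ∈ W := fun t => by
    have h : S.r (r t) t := Quotient.exact (Quotient.out_eq _)
    exact S.iseqv.symm h
  have hrr : ∀ s t, e s - e t ∈ W → r s = r t := fun s t h => by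
    have : Quotient.mk S s = Quotient.mk S t := Quotient.sound h
    change (Quotient.mk S s).out = (Quotient.mk S t).out
    rw [this]
  have hidem : ∀ t, r (r t) = r t := fun t => (hrr _ _ (hr t)).symm
  -- all elements of `N j` are equivalent
  have hN : ∀ j ∈ J, ∀ s ∈ N j, ∀ t ∈ N j, r s = r t := by
    intro j hj s hs t ht
    apply hrr
    apply Submodule.subset_span
    rw [Set.mem_iUnion₂]
    refine ⟨j, hj, ?_, ?_⟩
    · intro u hu
      have h1 : u ≠ s := fun h => hu (h ▸ hs)
      have h2 : u ≠ t := fun h => hu (h ▸ ht)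
      simp only [e, Pi.sub_apply, Pi.single_eq_of_ne h1, Pi.single_eq_of_ne h2, sub_zero]
    · simp [e, Finset.sum_sub_distrib]
  have hne : ∀ j ∈ J, (N j).Nonempty := by
    intro j hj
    have h := hSH {j} (singleton_subset_iff.2 hj) (singleton_nonempty _)
    rw [singleton_biUnion, card_singleton] at h
    exact card_pos.1 (by omega)
  rcases J.eq_empty_or_nonempty with hJ | hJ
  · rw [hJ]; exact Nat.zero_le _
  have hV : Nonempty V := ⟨(hne _ hJ.choose_spec).choose⟩
  have hρ : ∃ ρ : ι → V, ∀ j ∈ J, ∀ t ∈ N j, r t = ρ j := by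
    have : ∀ j, ∃ v : V, j ∈ J → ∀ t ∈ N j, r t = v := by
      intro j
      by_cases hj : j ∈ J
      · obtain ⟨s, hs⟩ := hne j hj
        exact ⟨r s, fun _ t ht => hN j hj t ht s hs⟩
      · exact ⟨hV.some, fun h => absurd h hj⟩
    choose ρ h using this
    exact ⟨ρ, h⟩
  obtain ⟨ρ, hρ⟩ := hρ
  refine (rank_count J N hSH r ρ hρ).trans ?_
  set A := univ.filter (fun t => r t ≠ t) with hA
  have hli : LinearIndependent (ZMod 3) (fun t : A => e t.1 - e (r t.1)) := by
    rw [Fintype.linearIndependent_iff]
    intro g hg s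
    have h1 := congrFun hg s.1
    rw [Finset.sum_apply] at h1
    rw [Finset.sum_eq_single s] at h1
    · have hs : s.1 ≠ r s.1 := fun h => (mem_filter.1 s.2).2 h.symm
      simpa [e, hs] using h1
    · intro t _ hts
      have h2 : s.1 ≠ t.1 := fun h => hts (Subtype.ext h.symm)
      have h3 : s.1 ≠ r t.1 := by
        intro h
        apply (mem_filter.1 s.2).2
        rw [h, hidem]
      simp [e, h2, h3]
    · intro h; exact absurd (mem_univ s) h
  have h1 := finrank_span_eq_card hli
  rw [Fintype.card_coe] at h1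
  rw [← h1]
  apply Submodule.finrank_mono
  rw [Submodule.span_le]
  rintro _ ⟨t, rfl⟩
  exact hr t.1

end Pool.Agent.Lib.MP_7aba48_co_TF
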