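import Pool.Agent.Lib.MP_7aba48_co_TF.Rado
import Pool.Agent.Lib.MP_7aba48_co_TF.Rank

/-!
# Choice of forms with prescribed values
-/

namespace Pool.Agent.Lib.MP_7aba48_co_TF

open Finset Module

/-- Choice of one form from each set, such that all values can be prescribed. -/
theorem exists_forms {V ι : Type*} [Fintype V] [DecidableEq V] (J : Finset ι)
    (N : ι → Finset V)
    (hSH : ∀ J' ⊆ J, J'.Nonempty → J'.card < (J'.biUnion N).card)
    (Λ : ι → Set (V → ZMod 3))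
    (hspan : ∀ j ∈ J, ∀ l : V → ZMod 3, (∀ t, t ∉ N j → l t = 0) → ∑ t, l t = 0 →
      l ∈ Submodule.span (ZMod 3) (Λ j)) :
    ∃ v : ι → V → ZMod 3, (∀ j ∈ J, v j ∈ Λ j) ∧
      ∀ c : ι → ZMod 3, ∃ φ : V → ZMod 3, ∀ j ∈ J, ∑ t, v j t * φ t = c j := by
  have hp : Fact (Nat.Prime 3) := ⟨by norm_num⟩
  obtain ⟨v, hv, hli⟩ := rado (K := ZMod 3) J Λ (by
    intro J' hJ'
    refine (rank_le J' N fun J'' h hne => hSH J'' (h.trans hJ') hne).trans ?_
    refine Submodule.finrank_mono (Submodule.span_le.2 ?_)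
    intro l hl
    simp only [Set.mem_iUnion] at hl
    obtain ⟨j, hj, h1, h2⟩ := hl
    refine Submodule.span_mono ?_ (hspan j (hJ' hj) l h1 h2)
    exact Set.subset_biUnion_of_mem (u := Λ) hj)
  exact ⟨v, hv, fun c => exists_dot J v hli c⟩

end Pool.Agent.Lib.MP_7aba48_co_TF
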