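import Pool.Agent.Lib.MP_7aba48_co_TF.Strong
import Pool.Agent.Lib.MP_7aba48_co_TF.Phi

/-!
# Triangle-free graphs with an independent set of vertices of degree at most four, all other
degrees being at most three, are 3-colourable
-/

namespace Pool.Agent.Lib.MP_7aba48_co_TF

open Finset Pool.Agent.Lib.MP_7aba48_co_G5

universe u

variable {V : Type u} [DecidableEq V] [Fintype V] {G : SimpleGraph V}

omit [DecidableEq V] [Fintype V] in
private lemma KL_dg_mono {v : V} {S T : Finset V} (h : S ⊆ T) : dg G v S ≤ dg G v T := by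
  refine card_le_card fun w hw => ?_
  rw [mem_nb] at hw ⊢
  exact ⟨h hw.1, hw.2⟩

omit [DecidableEq V] [Fintype V] in
private lemma KL_dg_add {v : V} {S D T : Finset V} (hD : D ⊆ S) (hT : T ⊆ S)
    (h : Disjoint D T) : dg G v D + dg G v T ≤ dg G v S := by
  classical
  have h1 : Disjoint (nb G v D) (nb G v T) := by
    rw [Finset.disjoint_left]
    intro x hx hx'
    rw [mem_nb] at hx hx'
    exact Finset.disjoint_left.1 h hx.1 hx'.1
  unfold dg
  rw [← card_union_of_disjoint h1]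
  refine card_le_card fun x hx => ?_
  rw [mem_union, mem_nb, mem_nb] at hx
  rw [mem_nb]
  rcases hx with hx | hx
  · exact ⟨hD hx.1, hx.2⟩
  · exact ⟨hT hx.1, hx.2⟩

omit [Fintype V] in
/-- every vertex lies in a component -/
private lemma KL_exists_comp {B : Finset V} {w : V} (hw : w ∈ B) :
    ∃ D, Comp G B D ∧ w ∈ D := by
  obtain ⟨P, hP⟩ : ∃ P : Finset V → Prop, ∀ D, P D ↔ D ⊆ B ∧ w ∈ D ∧
      ∀ v ∈ D, ∀ x ∈ B, G.Adj v x → x ∈ D := ⟨_, fun _ => Iff.rfl⟩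
  obtain ⟨D, hD, hmin⟩ : ∃ D, P D ∧ ∀ X, P X → D.card ≤ X.card := by
    have hex : ∃ n, ∃ D, P D ∧ D.card = n :=
      ⟨_, B, (hP B).2 ⟨Subset.rfl, hw, fun _ _ x hx _ => hx⟩, rfl⟩
    classical
    obtain ⟨D, hD, hc⟩ := Nat.find_spec hex
    exact ⟨D, hD, fun X hX => hc ▸ Nat.find_min' hex ⟨X, hX, rfl⟩⟩
  obtain ⟨h1, h2, h3⟩ := (hP D).1 hD
  refine ⟨D, ⟨h1, ⟨w, h2⟩, h3, fun X hX hne hcl => ?_⟩, h2⟩
  by_cases hwX : w ∈ X
  · exact eq_of_subset_of_card_le hX (hmin X ((hP X).2 ⟨hX.trans h1, hwX, hcl⟩))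
  · exfalso
    have h4 : P (D \ X) := by
      refine (hP _).2 ⟨sdiff_subset.trans h1, mem_sdiff.2 ⟨h2, hwX⟩, ?_⟩
      intro v hv x hx hvx
      rw [mem_sdiff] at hv ⊢
      refine ⟨h3 v hv.1 x hx hvx, fun hxX => hv.2 ?_⟩
      exact hcl x hxX v (h1 hv.1) hvx.symm
    have h5 := hmin _ h4
    obtain ⟨x, hx⟩ := hne
    have h6 : (D \ X).card < D.card := by
      refine card_lt_card ⟨sdiff_subset, fun hsub => ?_⟩
      exact (mem_sdiff.1 (hsub (hX hx))).2 hx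
    omega

omit [Fintype V] in
private lemma KL_blk {S T : Finset V} (hC : Crit G S T) {D : Finset V}
    (hD : Comp G (S \ T) D) : Blk G D T where
  conn := by
    refine ⟨hD.2.1, fun X hX hne hcl => hD.2.2.2 X hX hne ?_⟩
    intro v hv w hw hvw
    exact hcl v hv w (hD.2.2.1 v (hX hv) w hw hvw) hvw
  disj := by
    rw [Finset.disjoint_left]
    exact fun x hx => (mem_sdiff.1 (hD.1 hx)).2
  deg := by
    intro v hv
    have h1 := mem_sdiff.1 (hD.1 hv)
    refine (KL_dg_add (hD.1.trans sdiff_subset) hC.sub ?_).trans (hC.deg v h1.1 h1.2)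
    rw [Finset.disjoint_left]
    exact fun x hx => (mem_sdiff.1 (hD.1 hx)).2

omit [Fintype V] in
private lemma KL_nbs {S T : Finset V} (hC : Crit G S T) {D : Finset V}
    (hD : Comp G (S \ T) D) {φ : V → ZMod 3} (hφ : ¬ Res G D T φ) : (nbs G D T).Nonempty := by
  by_contra hcon
  rw [not_nonempty_iff_eq_empty] at hcon
  obtain ⟨t, ht⟩ := hC.ne
  obtain ⟨f, hf⟩ := hC.col D ⟨hD.1.trans sdiff_subset, fun hsub =>
    (mem_sdiff.1 (hD.1 (hsub (hC.sub ht)))).2 ht⟩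
  refine hφ ⟨f, fun v hv t ht hvt => ?_, hf⟩
  have h1 : t ∈ nbs G D T := mem_nbs.2 ⟨ht, v, hv, hvt⟩
  rw [hcon] at h1
  exact absurd h1 (notMem_empty t)

omit [Fintype V] in
/-- gluing of the colourings of the components -/
private lemma KL_glue {S T : Finset V} (hind : ∀ s ∈ T, ∀ t ∈ T, ¬ G.Adj s t)
    {φ : V → ZMod 3} (h : ∀ D, Comp G (S \ T) D → Res G D T φ) : Col3 G S := by
  have h1 : ∀ w, ∃ D, w ∈ S \ T → Comp G (S \ T) D ∧ w ∈ D := by
    intro w
    by_cases hw : w ∈ S \ T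
    · obtain ⟨D, hD⟩ := KL_exists_comp (G := G) hw
      exact ⟨D, fun _ => hD⟩
    · exact ⟨∅, fun hw' => absurd hw' hw⟩
  choose K hK using h1
  have h2 : ∀ D, ∃ f : V → ZMod 3, Comp G (S \ T) D →
      (∀ v ∈ D, ∀ t ∈ T, G.Adj v t → f v ≠ φ t) ∧
        ∀ v ∈ D, ∀ w ∈ D, G.Adj v w → f v ≠ f w := by
    intro D
    by_cases hD : Comp G (S \ T) D
    · obtain ⟨f, hf⟩ := h D hD
      exact ⟨f, fun _ => hf⟩
    · exact ⟨φ, fun hD' => absurd hD' hD⟩
  choose g hg using h2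
  refine ⟨fun w => if w ∈ T then φ w else g (K w) w, fun v hv w hw hvw => ?_⟩
  by_cases hvT : v ∈ T
  · by_cases hwT : w ∈ T
    · exact absurd hvw (hind v hvT w hwT)
    · simp only [hvT, hwT, if_true, if_false]
      obtain ⟨h3, h4⟩ := hK w (mem_sdiff.2 ⟨hw, hwT⟩)
      exact ((hg _ h3).1 w h4 v hvT hvw.symm).symm
  · obtain ⟨h3, h4⟩ := hK v (mem_sdiff.2 ⟨hv, hvT⟩)
    by_cases hwT : w ∈ T
    · simp only [hvT, hwT, if_true, if_false]
      exact (hg _ h3).1 v h4 w hwT hvw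
    · simp only [hvT, hwT, if_false]
      have hw' : w ∈ S \ T := mem_sdiff.2 ⟨hw, hwT⟩
      obtain ⟨h5, h6⟩ := hK w hw'
      have h7 : w ∈ K v := h3.2.2.1 v h4 w hw' hvw
      have h8 : K v = K w := h3.disj h5 h7 h6
      rw [← h8]
      exact (hg _ h3).2 v h4 w h7 hvw

/-- There is no critical set. -/
theorem not_crit (hT : NoTri G) {S T : Finset V} (hC : Crit G S T) : False := by
  classical
  let 𝒟 : Finset (Finset V) := univ.filter
    (fun D => Comp G (S \ T) D ∧ ∃ φ : V → ZMod 3, ¬ Res G D T φ)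
  have h𝒟 : ∀ D, D ∈ 𝒟 ↔ Comp G (S \ T) D ∧ ∃ φ : V → ZMod 3, ¬ Res G D T φ := fun D => by
    simp only [𝒟, mem_filter, mem_univ, true_and]
  obtain ⟨v, hv, hval⟩ := exists_forms 𝒟 (fun D => nbs G D T)
    (fun J hJ hne => strong_hall hT hC J (fun D hD => (h𝒟 D).1 (hJ hD)) hne)
    (fun D => Val G D T) (by
      intro D hD l hl hsum
      obtain ⟨h1, φ, h2⟩ := (h𝒟 D).1 hD
      exact mem_span_val (KL_blk hC h1) (KL_nbs hC h1 h2) ⟨φ, h2⟩ l hl hsum)
  obtain ⟨φ, hφ⟩ := hval (fun D => if ∀ φ : V → ZMod 3, ¬ Res G D T φ → ∑ t, v D t * φ t = 0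
    then 1 else 0)
  refine hC.bad (KL_glue hC.ind (φ := φ) fun D hD => ?_)
  by_contra hbad
  have hmem : D ∈ 𝒟 := (h𝒟 D).2 ⟨hD, φ, hbad⟩
  have h1 := hφ D hmem
  by_cases h2 : ∀ φ : V → ZMod 3, ¬ Res G D T φ → ∑ t, v D t * φ t = 0
  · rw [if_pos h2, h2 φ hbad] at h1
    exact absurd h1 (by decide)
  · rw [if_neg h2] at h1
    rcases (hv D hmem).2 with h3 | h3
    · exact h2 h3
    · exact h3 φ hbad h1

/-- A triangle-free graph with an independent set of vertices of degree at most four, all other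
vertices having degree at most three, is 3-colourable. -/
theorem col3 (hT : NoTri G) {S T : Finset V}
    (hind : ∀ s ∈ T, ∀ t ∈ T, ¬ G.Adj s t) (h4 : ∀ t ∈ T, dg G t S ≤ 4)
    (h3 : ∀ v ∈ S, v ∉ T → dg G v S ≤ 3) : Col3 G S := by
  by_contra hcon
  obtain ⟨P, hP⟩ : ∃ P : Finset V → Prop, ∀ X, P X ↔ X ⊆ S ∧ ¬ Col3 G X :=
    ⟨_, fun _ => Iff.rfl⟩
  obtain ⟨S', hS', hmin⟩ : ∃ D, P D ∧ ∀ X, P X → D.card ≤ X.card := by
    have hex : ∃ n, ∃ D, P D ∧ D.card = n := ⟨_, S, (hP S).2 ⟨Subset.rfl, hcon⟩, rfl⟩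
    classical
    obtain ⟨D, hD, hc⟩ := Nat.find_spec hex
    exact ⟨D, hD, fun X hX => hc ▸ Nat.find_min' hex ⟨X, hX, rfl⟩⟩
  obtain ⟨hsub, hbad⟩ := (hP S').1 hS'
  have hcol : ∀ X, X ⊂ S' → Col3 G X := by
    intro X hX
    by_contra hX'
    have h1 := hmin X ((hP X).2 ⟨hX.1.trans hsub, hX'⟩)
    have h2 := card_lt_card hX
    omega
  by_cases hne : (T ∩ S').Nonempty
  · refine not_crit hT (S := S') (T := T ∩ S')
      ⟨inter_subset_right, hne, ?_, ?_, ?_, hbad, hcol⟩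
    · intro s hs t ht
      exact hind s (mem_inter.1 hs).1 t (mem_inter.1 ht).1
    · intro t ht
      exact (KL_dg_mono hsub).trans (h4 t (mem_inter.1 ht).1)
    · intro v hv hvT
      refine (KL_dg_mono hsub).trans (h3 v (hsub hv) fun h => hvT (mem_inter.2 ⟨h, hv⟩))
  · have hall : ∀ v ∈ S', dg G v S' ≤ 3 := by
      intro v hv
      refine (KL_dg_mono hsub).trans (h3 v (hsub hv) fun h => hne ⟨v, mem_inter.2 ⟨h, hv⟩⟩)
    obtain ⟨t, ht⟩ : S'.Nonempty := by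
      by_contra h
      rw [not_nonempty_iff_eq_empty] at h
      refine hbad ⟨fun _ => 0, ?_⟩
      rw [h]
      intro v hv
      exact absurd hv (notMem_empty v)
    refine not_crit hT (S := S') (T := {t})
      ⟨singleton_subset_iff.2 ht, singleton_nonempty t, ?_, ?_, ?_, hbad, hcol⟩
    · intro s hs r hr
      rw [mem_singleton] at hs hr
      rw [hs, hr]
      exact G.irrefl
    · intro s hs
      rw [mem_singleton] at hs
      rw [hs]
      exact (hall t ht).trans (by norm_num)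
    · exact fun v hv _ => hall v hv

end Pool.Agent.Lib.MP_7aba48_co_TF
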