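import Pool.Agent.Lib.MP_7aba48_co_TF.Defs

/-!
# List colouring by kernels

`A` is independent, the edges inside `B` are counted in both directions, an edge between `b ∈ B`
and `a ∈ A` is directed from `b` to `a` if `(b, a) ∈ U` and from `a` to `b` otherwise.
-/

namespace Pool.Agent.Lib.MP_7aba48_co_TF

open Finset Pool.Agent.Lib.MP_7aba48_co_G5

universe u

variable {V : Type u} [DecidableEq V] {G : SimpleGraph V}

/-- The vertices of `W` adjacent to `t` by an edge which is not in `U`. -/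
noncomputable def lossy (G : SimpleGraph V) (U : Finset (V × V)) (W : Finset V) (t : V) :
    Finset V := by
  classical exact W.filter (fun w => G.Adj w t ∧ (w, t) ∉ U)

@[simp] lemma mem_lossy {U : Finset (V × V)} {W : Finset V} {t w : V} :
    w ∈ lossy G U W t ↔ w ∈ W ∧ G.Adj w t ∧ (w, t) ∉ U := by
  classical
  unfold lossy
  simp

/-- The vertices of `A` adjacent to `b` by an edge in `U`. -/
noncomputable def unit (G : SimpleGraph V) (U : Finset (V × V)) (A : Finset V) (b : V) :
    Finset V := by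
  classical exact A.filter (fun a => G.Adj b a ∧ (b, a) ∈ U)

@[simp] lemma mem_unit {U : Finset (V × V)} {A : Finset V} {a b : V} :
    a ∈ unit G U A b ↔ a ∈ A ∧ G.Adj b a ∧ (b, a) ∈ U := by
  classical
  unfold unit
  simp

/-- The orientation has a kernel. -/
theorem exists_kernel {A B : Finset V} (hAB : Disjoint A B)
    (hA : ∀ a ∈ A, ∀ a' ∈ A, ¬ G.Adj a a') (U : Finset (V × V)) :
    ∃ I ⊆ A ∪ B, (∀ v ∈ I, ∀ w ∈ I, ¬ G.Adj v w) ∧
      (∀ a ∈ A, a ∉ I → ∃ b ∈ B, b ∈ I ∧ G.Adj b a ∧ (b, a) ∉ U) ∧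
      (∀ b ∈ B, b ∉ I → (∃ a ∈ A, a ∈ I ∧ G.Adj b a ∧ (b, a) ∈ U) ∨
        ∃ b' ∈ B, b' ∈ I ∧ G.Adj b b') := by
  classical
  induction hn : A.card + B.card using Nat.strong_induction_on generalizing A B with
  | _ n ih =>
  by_cases h : ∀ b ∈ B, ∃ a ∈ A, G.Adj b a ∧ (b, a) ∈ U
  · refine ⟨A, subset_union_left, hA, fun a ha hn => absurd ha hn, fun b hb _ => Or.inl ?_⟩
    obtain ⟨a, ha, h1, h2⟩ := h b hb
    exact ⟨a, ha, ha, h1, h2⟩
  · push Not at h
    obtain ⟨b, hb, hbu⟩ := h
    have hsA : A.filter (fun a => ¬ G.Adj b a) ⊆ A := filter_subset _ _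
    have hsB : (B.erase b).filter (fun x => ¬ G.Adj b x) ⊆ B :=
      (filter_subset _ _).trans (erase_subset _ _)
    have hcard : (A.filter (fun a => ¬ G.Adj b a)).card +
        ((B.erase b).filter (fun x => ¬ G.Adj b x)).card < n := by
      have h1 : (A.filter (fun a => ¬ G.Adj b a)).card ≤ A.card := card_filter_le _ _
      have h2 : ((B.erase b).filter (fun x => ¬ G.Adj b x)).card ≤ (B.erase b).card :=
        card_filter_le _ _
      have h3 : (B.erase b).card < B.card := card_erase_lt_of_mem hb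
      omega
    obtain ⟨I, hI, hind, hkA, hkB⟩ := ih _ hcard (hAB.mono hsA hsB)
      (fun a ha a' ha' => hA a (hsA ha) a' (hsA ha')) rfl
    have hnb : ∀ v ∈ I, ¬ G.Adj b v := by
      intro v hv
      rcases mem_union.1 (hI hv) with h1 | h1
      · exact (mem_filter.1 h1).2
      · exact (mem_filter.1 h1).2
    refine ⟨insert b I, ?_, ?_, ?_, ?_⟩
    · intro v hv
      rcases mem_insert.1 hv with rfl | hv
      · exact mem_union_right _ hb
      · exact union_subset_union hsA hsB (hI hv)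
    · intro v hv w hw
      rcases mem_insert.1 hv with h1 | h1 <;> rcases mem_insert.1 hw with h2 | h2
      · rw [h1, h2]
        exact G.irrefl
      · rw [h1]
        exact hnb w h2
      · rw [h2]
        exact fun h => hnb v h1 h.symm
      · exact hind v h1 w h2
    · intro a ha hna
      have hne := fun h => hna (mem_insert_of_mem h)
      by_cases hadj : G.Adj b a
      · exact ⟨b, hb, mem_insert_self _ _, hadj, hbu a ha hadj⟩
      · obtain ⟨b', h1, h2, h3, h4⟩ := hkA a (mem_filter.2 ⟨ha, hadj⟩) hne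
        exact ⟨b', hsB h1, mem_insert_of_mem h2, h3, h4⟩
    · intro x hx hnx
      have hne := fun h => hnx (mem_insert_of_mem h)
      have hxb : x ≠ b := fun h => hnx (h ▸ mem_insert_self _ _)
      by_cases hadj : G.Adj b x
      · exact Or.inr ⟨b, hb, mem_insert_self _ _, hadj.symm⟩
      · rcases hkB x (mem_filter.2 ⟨mem_erase.2 ⟨hxb, hx⟩, hadj⟩) hne with
          ⟨a, h1, h2, h3, h4⟩ | ⟨y, h1, h2, h3⟩
        · exact Or.inl ⟨a, hsA h1, mem_insert_of_mem h2, h3, h4⟩
        · exact Or.inr ⟨y, hsB h1, mem_insert_of_mem h2, h3⟩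

/-- Colouring from lists larger than the outdegrees. -/
theorem kernel_col {α : Type*} [DecidableEq α] [Nonempty α] {A B : Finset V}
    (hAB : Disjoint A B)
    (hA : ∀ a ∈ A, ∀ a' ∈ A, ¬ G.Adj a a') (U : Finset (V × V)) (L : V → Finset α)
    (hLA : ∀ a ∈ A, (lossy G U B a).card < (L a).card)
    (hLB : ∀ b ∈ B, (unit G U A b).card + dg G b B < (L b).card) :
    ∃ f : V → α, (∀ v ∈ A ∪ B, f v ∈ L v) ∧
      ∀ v ∈ A ∪ B, ∀ w ∈ A ∪ B, G.Adj v w → f v ≠ f w := by
  classical
  induction hn : A.card + B.card using Nat.strong_induction_on generalizing A B L with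
  | _ n ih =>
  by_cases he : A ∪ B = ∅
  · refine ⟨fun _ => Classical.arbitrary α, fun v hv => ?_, fun v hv => ?_⟩
    · rw [he] at hv
      exact absurd hv (notMem_empty v)
    · rw [he] at hv
      exact absurd hv (notMem_empty v)
  obtain ⟨v0, hv0⟩ := nonempty_iff_ne_empty.2 he
  have hL0 : (L v0).Nonempty := by
    rw [← card_pos]
    rcases mem_union.1 hv0 with h | h
    · exact lt_of_le_of_lt (Nat.zero_le _) (hLA _ h)
    · exact lt_of_le_of_lt (Nat.zero_le _) (hLB _ h)
  obtain ⟨c, hc⟩ := hL0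
  have hsA : A.filter (fun v => c ∈ L v) ⊆ A := filter_subset _ _
  have hsB : B.filter (fun v => c ∈ L v) ⊆ B := filter_subset _ _
  obtain ⟨I, hI, hind, hkA, hkB⟩ := exists_kernel (hAB.mono hsA hsB)
    (fun a ha a' ha' => hA a (hsA ha) a' (hsA ha')) U
  have hIAB : I ⊆ A ∪ B := hI.trans (union_subset_union hsA hsB)
  have hIc : ∀ v ∈ I, c ∈ L v := by
    intro v hv
    rcases mem_union.1 (hI hv) with h | h
    · exact (mem_filter.1 h).2
    · exact (mem_filter.1 h).2
  have hIne : ∃ v, v ∈ I := by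
    by_contra hcon
    have hcon' : ∀ v, v ∉ I := fun v hv => hcon ⟨v, hv⟩
    rcases mem_union.1 hv0 with h | h
    · obtain ⟨b, _, hb, _⟩ := hkA v0 (mem_filter.2 ⟨h, hc⟩) (hcon' v0)
      exact hcon' b hb
    · rcases hkB v0 (mem_filter.2 ⟨h, hc⟩) (hcon' v0) with ⟨a, _, ha, _⟩ | ⟨b, _, hb, _⟩
      · exact hcon' a ha
      · exact hcon' b hb
  obtain ⟨w0, hw0⟩ := hIne
  have hcard : (A \ I).card + (B \ I).card < n := by
    have h3 : (A \ I).card ≤ A.card := card_le_card sdiff_subset
    have h4 : (B \ I).card ≤ B.card := card_le_card sdiff_subset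
    rcases mem_union.1 (hIAB hw0) with h | h
    · have h1 : (A \ I).card < A.card :=
        card_lt_card ⟨sdiff_subset, fun h2 => (mem_sdiff.1 (h2 h)).2 hw0⟩
      omega
    · have h1 : (B \ I).card < B.card :=
        card_lt_card ⟨sdiff_subset, fun h2 => (mem_sdiff.1 (h2 h)).2 hw0⟩
      omega
  have hLA' : ∀ a ∈ A \ I, (lossy G U (B \ I) a).card < ((L a).erase c).card := by
    intro a ha
    obtain ⟨ha1, ha2⟩ := mem_sdiff.1 ha
    have h0 := hLA a ha1
    have hsub : lossy G U (B \ I) a ⊆ lossy G U B a := by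
      intro x hx
      rw [mem_lossy] at hx ⊢
      exact ⟨(mem_sdiff.1 hx.1).1, hx.2⟩
    by_cases hca : c ∈ L a
    · obtain ⟨b, hb1, hb2, hb3, hb4⟩ := hkA a (mem_filter.2 ⟨ha1, hca⟩) ha2
      have hlt : (lossy G U (B \ I) a).card < (lossy G U B a).card := by
        refine card_lt_card ⟨hsub, fun h => ?_⟩
        have h5 := h (mem_lossy.2 ⟨hsB hb1, hb3, hb4⟩)
        exact (mem_sdiff.1 (mem_lossy.1 h5).1).2 hb2
      rw [card_erase_of_mem hca]
      omega
    · rw [erase_eq_of_notMem hca]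
      exact lt_of_le_of_lt (card_le_card hsub) h0
  have hLB' : ∀ b ∈ B \ I,
      (unit G U (A \ I) b).card + dg G b (B \ I) < ((L b).erase c).card := by
    intro b hb
    obtain ⟨hb1, hb2⟩ := mem_sdiff.1 hb
    have h0 := hLB b hb1
    have hsub1 : unit G U (A \ I) b ⊆ unit G U A b := by
      intro x hx
      rw [mem_unit] at hx ⊢
      exact ⟨(mem_sdiff.1 hx.1).1, hx.2⟩
    have hsub2 : nb G b (B \ I) ⊆ nb G b B := by
      intro x hx
      rw [mem_nb] at hx ⊢
      exact ⟨(mem_sdiff.1 hx.1).1, hx.2⟩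
    have h1 := card_le_card hsub1
    have h2 := card_le_card hsub2
    unfold dg at h0 ⊢
    by_cases hcb : c ∈ L b
    · rw [card_erase_of_mem hcb]
      rcases hkB b (mem_filter.2 ⟨hb1, hcb⟩) hb2 with ⟨a, g1, g2, g3, g4⟩ | ⟨y, g1, g2, g3⟩
      · have hlt : (unit G U (A \ I) b).card < (unit G U A b).card := by
          refine card_lt_card ⟨hsub1, fun h => ?_⟩
          have h5 := h (mem_unit.2 ⟨hsA g1, g3, g4⟩)
          exact (mem_sdiff.1 (mem_unit.1 h5).1).2 g2
        omega
      · have hlt : (nb G b (B \ I)).card < (nb G b B).card := by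
          refine card_lt_card ⟨hsub2, fun h => ?_⟩
          have h5 := h (mem_nb.2 ⟨hsB g1, g3⟩)
          exact (mem_sdiff.1 (mem_nb.1 h5).1).2 g2
        omega
    · rw [erase_eq_of_notMem hcb]
      omega
  obtain ⟨f, hf1, hf2⟩ := ih _ hcard (hAB.mono sdiff_subset sdiff_subset)
    (fun a ha a' ha' => hA a (mem_sdiff.1 ha).1 a' (mem_sdiff.1 ha').1)
    (fun v => (L v).erase c) hLA' hLB' rfl
  have hu : ∀ v ∈ A ∪ B, v ∉ I → v ∈ (A \ I) ∪ (B \ I) := by
    intro v hv hvI
    rcases mem_union.1 hv with h | h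
    · exact mem_union_left _ (mem_sdiff.2 ⟨h, hvI⟩)
    · exact mem_union_right _ (mem_sdiff.2 ⟨h, hvI⟩)
  refine ⟨fun v => if v ∈ I then c else f v, fun v hv => ?_, fun v hv w hw hadj => ?_⟩
  · by_cases h : v ∈ I
    · simpa only [if_pos h] using hIc v h
    · simpa only [if_neg h] using mem_of_mem_erase (hf1 v (hu v hv h))
  · by_cases h : v ∈ I
    · by_cases h' : w ∈ I
      · exact absurd hadj (hind v h w h')
      · simp only [if_pos h, if_neg h']
        exact fun e => ne_of_mem_erase (hf1 w (hu w hw h')) e.symm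
    · by_cases h' : w ∈ I
      · simp only [if_neg h, if_pos h']
        exact fun e => ne_of_mem_erase (hf1 v (hu v hv h)) e
      · simp only [if_neg h, if_neg h']
        exact hf2 v (hu v hv h) w (hu w hw h') hadj

end Pool.Agent.Lib.MP_7aba48_co_TF
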