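import Pool.Agent.Lib.MP_7aba48_co_TF.Part
import Pool.Agent.Lib.MP_7aba48_co_TF.KL

/-!
# Triangle-free graphs of maximum degree at most six are 5-colourable
-/

namespace Pool.Agent.Lib.MP_7aba48_co_TF

open Finset Pool.Agent.Lib.MP_7aba48_co_G5

universe u

variable {V : Type u} [DecidableEq V] [Fintype V] {G : SimpleGraph V}

/-- Triangle-free graphs with maximum degree at most six are 5-colourable. -/
theorem colorable_five (hT : NoTri G) (hΔ : ∀ v, dg G v univ ≤ 6) : G.Colorable 5 := by
  classical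
  obtain ⟨A, T, hTA, hind, ⟨c, hc⟩, h4, h3⟩ := exists_part hT hΔ
  have h4' : ∀ t ∈ T, dg G t (Aᶜ ∪ T) ≤ 4 := by
    intro t ht
    refine le_trans (Finset.card_le_card ?_) (h4 t ht)
    intro w hw
    rw [mem_nb, Finset.mem_union] at hw
    rw [mem_nb]
    rcases hw.1 with h | h
    · exact ⟨h, hw.2⟩
    · exact absurd hw.2 (hind t ht w h)
  have h3' : ∀ v ∈ Aᶜ ∪ T, v ∉ T → dg G v (Aᶜ ∪ T) ≤ 3 := by
    intro v hv hvT
    have hvA : v ∉ A := by
      rcases Finset.mem_union.1 hv with h | h
      · exact Finset.mem_compl.1 h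
      · exact absurd h hvT
    refine le_trans ?_ (h3 v hvA)
    unfold dg
    refine le_trans (Finset.card_le_card ?_) (Finset.card_union_le _ _)
    intro w hw
    rw [mem_nb, Finset.mem_union] at hw
    rw [Finset.mem_union, mem_nb, mem_nb]
    rcases hw.1 with h | h
    · exact Or.inl ⟨h, hw.2⟩
    · exact Or.inr ⟨h, hw.2⟩
  obtain ⟨f, hf⟩ := col3 hT hind h4' h3'
  have hval : ∀ v, (f v).val < 3 := fun v => ZMod.val_lt (f v)
  let col : V → Fin 5 := fun v =>
    if v ∈ A \ T then (if c v then 3 else 4) else ⟨(f v).val, by have := hval v; omega⟩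
  refine ⟨SimpleGraph.Coloring.mk col ?_⟩
  intro v w hvw
  simp only [col]
  by_cases hv : v ∈ A \ T <;> by_cases hw : w ∈ A \ T
  · have h := hc v hv w hw hvw
    rw [if_pos hv, if_pos hw]
    cases hcv : c v <;> cases hcw : c w
    · rw [hcv, hcw] at h; exact absurd rfl h
    · simp
    · simp
    · rw [hcv, hcw] at h; exact absurd rfl h
  · rw [if_pos hv, if_neg hw]
    have h := hval w
    intro heq
    have h1 := congrArg Fin.val heq
    cases hcv : c v <;> rw [hcv] at h1 <;> simp at h1 <;> omega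
  · rw [if_neg hv, if_pos hw]
    have h := hval v
    intro heq
    have h1 := congrArg Fin.val heq
    cases hcw : c w <;> rw [hcw] at h1 <;> simp at h1 <;> omega
  · rw [if_neg hv, if_neg hw]
    have key : ∀ u, u ∉ A \ T → u ∈ Aᶜ ∪ T := by
      intro u hu
      rw [Finset.mem_sdiff, not_and, not_not] at hu
      rw [Finset.mem_union, Finset.mem_compl]
      by_cases huA : u ∈ A
      · exact Or.inr (hu huA)
      · exact Or.inl huA
    intro heq
    have h1 := congrArg Fin.val heq
    exact hf v (key v hv) w (key w hw) hvw (ZMod.val_injective 3 h1)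

end Pool.Agent.Lib.MP_7aba48_co_TF
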