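import Pool.Agent.Lib.MP_7aba48_co_G5.OddA
import Pool.Agent.Lib.MP_7aba48_co_TF.Defs

/-!
# Moving odd cycles with marks, in triangle-free graphs

As in `MP_7aba48_co_G5.Token`, but 4-cycles are allowed. In a step all vertices of `T` are
adjacent to all vertices of `U`, and neighbours of marked vertices are never moved.
-/

namespace Pool.Agent.Lib.MP_7aba48_co_TF

open Finset Pool.Agent.Lib.MP_7aba48_co_G5

universe u

variable {V : Type u} [DecidableEq V] {G : SimpleGraph V}

/-- A broken odd cycle: `P` is closed in `W`, the vertex `x` outside `W` completes `P` to an odd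
cycle, all neighbours of `x` in `W` are in `P` or marked, one of them is marked and not in `P`,
and `x` has degree at least five. -/
def Ret [Fintype V] (G : SimpleGraph V) (W K P : Finset V) (x : V) : Prop :=
  P ⊆ W ∧ (∀ v ∈ P, ∀ y ∈ W, G.Adj v y → y ∈ P) ∧ x ∉ W ∧ OddC G (insert x P) ∧
    (∀ v ∈ insert x P, dg G v (insert x P) = 2) ∧ (∀ z ∈ W, G.Adj x z → z ∈ P ∨ z ∈ K) ∧
    (∃ z ∈ K, z ∉ P ∧ G.Adj x z) ∧ 5 ≤ dg G x univ

/-- The marked vertices `K` of `W`: at most one on each odd cycle, all of degree two in `W`, and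
each of them is on an odd cycle or on a broken one. -/
def Marked [Fintype V] (G : SimpleGraph V) (W K : Finset V) : Prop :=
  K ⊆ W ∧ (∀ C ∈ cyc G W, ∀ a ∈ C, ∀ b ∈ C, a ∈ K → b ∈ K → a = b) ∧
    (∀ w ∈ K, dg G w W = 2) ∧
    ∀ w ∈ K, (∃ C ∈ cyc G W, w ∈ C) ∨ ∃ P x, Ret G W K P x ∧ w ∈ P

/-- No vertex of `T` is marked or adjacent to a marked vertex. -/
def Free (G : SimpleGraph V) (T K : Finset V) : Prop := ∀ t ∈ T, t ∉ K ∧ ∀ w ∈ K, ¬ G.Adj t w

/-- Replace `T` by `U`. -/
def Step (G : SimpleGraph V) (W T U W' : Finset V) : Prop :=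
  (∀ t ∈ T, ∃ C ∈ cyc G W, t ∈ C) ∧
  (∀ C ∈ cyc G W, ∀ a ∈ C, ∀ b ∈ C, a ∈ T → b ∈ T → a = b) ∧
  U.Nonempty ∧ Disjoint U W ∧ (∀ t ∈ T, ∀ u ∈ U, G.Adj t u) ∧ W' = (W \ T) ∪ U ∧
  ∀ u ∈ U, ∃ C ∈ cyc G W', u ∈ C ∧ ∀ v ∈ C, v ∈ U → v = u

/-- The sets under consideration: maximum degree at most two, vertices of degree two have at
least five neighbours in total, and a vertex outside has at most four neighbours outside or of
degree two. -/
structure Good [Fintype V] (G : SimpleGraph V) (W : Finset V) : Prop where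
  deg : ∀ v ∈ W, dg G v W ≤ 2
  five : ∀ v ∈ W, dg G v W = 2 → 5 ≤ dg G v univ
  out : ∀ x, x ∉ W → ∀ R ⊆ W, (∀ r ∈ R, G.Adj x r) → (∀ r ∈ R, dg G r W = 2) →
    dg G x Wᶜ + dg G x R ≤ 4

/-- If two odd cycles differ in one vertex only, neighbours of the one are neighbours of the
other. -/
private lemma adj_of_erase {C C' : Finset V} {u t a : V} (he : C.erase u = C'.erase t)
    (hC : dg G a C = 2) (hC' : dg G a C' = 2) (ht : t ∈ C') (hat : G.Adj a t) : G.Adj a u := by
  by_contra hau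
  have h1 : nb G a C = (nb G a C').erase t := by
    ext y
    rw [mem_nb, mem_erase, mem_nb]
    constructor
    · rintro ⟨hy, hay⟩
      have hyu : y ≠ u := by
        rintro rfl
        exact hau hay
      have h2 : y ∈ C.erase u := mem_erase.2 ⟨hyu, hy⟩
      rw [he, mem_erase] at h2
      exact ⟨h2.1, h2.2, hay⟩
    · rintro ⟨hyt, hy, hay⟩
      have h2 : y ∈ C'.erase t := mem_erase.2 ⟨hyt, hy⟩
      rw [← he, mem_erase] at h2
      exact ⟨h2.2, hay⟩
  have h2 : ((nb G a C').erase t).card + 1 = (nb G a C').card :=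
    card_erase_add_one (mem_nb.2 ⟨ht, hat⟩)
  rw [← h1] at h2
  unfold dg at hC hC'
  omega

/-- Two distinct neighbours. -/
private lemma two_nb {C : Finset V} {t : V} (h : dg G t C = 2) :
    ∃ a b, a ≠ b ∧ a ∈ C ∧ b ∈ C ∧ G.Adj t a ∧ G.Adj t b := by
  unfold dg at h
  obtain ⟨a, b, hab, he⟩ := card_eq_two.1 h
  have ha : a ∈ nb G t C := by rw [he]; simp
  have hb : b ∈ nb G t C := by rw [he]; simp
  rw [mem_nb] at ha hb
  exact ⟨a, b, hab, ha.1, hb.1, ha.2, hb.2⟩

/-- The new odd cycles. -/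
private lemma step_new {W T U W' : Finset V} (hW' : ∀ v ∈ W', dg G v W' ≤ 2)
    (hs : Step G W T U W') {u : V} {C : Finset V} (hu : u ∈ U) (hC : C ∈ cyc G W')
    (huC : u ∈ C) : (∀ v ∈ C, v ∈ U → v = u) ∧ ∀ v ∈ C.erase u, v ∈ W ∧ v ∉ T := by
  obtain ⟨_, _, _, _, _, hWW, h7⟩ := hs
  obtain ⟨D, hD, huD, hDU⟩ := h7 u hu
  have hCD : C = D := cyc_disj hW' hC hD huC huD
  subst hCD
  refine ⟨hDU, fun v hv => ?_⟩
  obtain ⟨hvu, hvC⟩ := mem_erase.1 hv
  have h1 : v ∈ W' := (mem_cyc.1 hC).1 hvC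
  rw [hWW, mem_union, mem_sdiff] at h1
  rcases h1 with h1 | h1
  · exact h1
  · exact absurd (hDU v hvC h1) hvu

private lemma not_mem_W {W T U W' : Finset V} (hs : Step G W T U W') {u : V} (hu : u ∈ U) :
    u ∉ W := fun h => (disjoint_left.1 hs.2.2.2.1) hu h

private lemma mem_W' {W T U W' : Finset V} (hs : Step G W T U W') {v : V} (hv : v ∈ W)
    (hvT : v ∉ T) : v ∈ W' := by
  rw [hs.2.2.2.2.2.1, mem_union, mem_sdiff]
  exact Or.inl ⟨hv, hvT⟩

private lemma mem_W'U {W T U W' : Finset V} (hs : Step G W T U W') {v : V} (hv : v ∈ U) :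
    v ∈ W' := by
  rw [hs.2.2.2.2.2.1, mem_union]
  exact Or.inr hv

private lemma dg_mem {W C : Finset V} {v : V} (hW : ∀ v ∈ W, dg G v W ≤ 2) (hC : C ∈ cyc G W)
    (hv : v ∈ C) : dg G v W = 2 := by
  obtain ⟨h1, h2, h3⟩ := dg_eq_two hW hC hv
  exact h2

/-- Marked vertices keep their degree. -/
private lemma dg_keep {W T U W' K : Finset V} (hW' : ∀ v ∈ W', dg G v W' ≤ 2)
    (hs : Step G W T U W') (hF : Free G T K) (hKW : K ⊆ W) (hK2 : ∀ w ∈ K, dg G w W = 2)
    {w : V} (hw : w ∈ K) : dg G w W' = 2 := by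
  have hw' : w ∈ W' := mem_W' hs (hKW hw) fun h => (hF w h).1 hw
  have h1 : nb G w W ⊆ nb G w W' := by
    intro y hy
    rw [mem_nb] at hy ⊢
    exact ⟨mem_W' hs hy.1 fun h => (hF y h).2 w hw hy.2.symm, hy.2⟩
  have h2 : dg G w W ≤ dg G w W' := card_le_card h1
  have h3 := hW' w hw'
  have h4 := hK2 w hw
  omega

/-- A broken odd cycle is disjoint from the odd cycles. -/
private lemma ret_disj [Fintype V] {W K P C : Finset V} {x : V} (hr : Ret G W K P x)
    (hC : C ∈ cyc G W) {v : V} (hv : v ∈ C) : v ∉ P := by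
  intro hvP
  obtain ⟨hPW, hPc, hx, hodd, _, _⟩ := hr
  obtain ⟨hCW, hCo⟩ := mem_cyc.1 hC
  have h1 : C ∩ P = C := eq_of_closed hCo inter_subset_left ⟨v, mem_inter.2 ⟨hv, hvP⟩⟩
    (fun y hy z hz hyz => mem_inter.2
      ⟨hz, hPc y (mem_inter.1 hy).2 z (hCW hz) hyz⟩)
  have h2 : C ⊆ P := by
    rw [← h1]
    exact inter_subset_right
  refine hCo.1 (hodd.2 C ⟨h2.trans (subset_insert x P), fun h3 => ?_⟩)
  exact hx (hCW (h3 (mem_insert_self x P)))

private lemma ret_T [Fintype V] {W T U W' K P : Finset V} {x : V} (hs : Step G W T U W')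
    (hr : Ret G W K P x) {v : V} (hv : v ∈ P) : v ∉ T := by
  intro hvT
  obtain ⟨C, hC, hvC⟩ := hs.1 v hvT
  exact ret_disj hr hC hvC hv

/-- The degree splits. -/
private lemma dg_split [Fintype V] (W : Finset V) (x : V) :
    dg G x univ = dg G x Wᶜ + dg G x W := by
  unfold dg
  rw [← card_union_of_disjoint]
  · congr 1
    ext y
    rw [mem_union, mem_nb, mem_nb, mem_nb, mem_compl]
    constructor
    · rintro ⟨_, h⟩
      by_cases hy : y ∈ W
      · exact Or.inr ⟨hy, h⟩
      · exact Or.inl ⟨hy, h⟩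
    · rintro (h | h)
      · exact ⟨mem_univ _, h.2⟩
      · exact ⟨mem_univ _, h.2⟩
  · rw [disjoint_left]
    intro y hy hy'
    rw [mem_nb, mem_compl] at hy
    rw [mem_nb] at hy'
    exact hy.1 hy'.1

/-- A new odd cycle is disjoint from the broken ones. -/
theorem Step.sep_ret [Fintype V] {W T U W' K P : Finset V} {x : V}
    (hG' : Good G W') (hs : Step G W T U W')
    (hKW : K ⊆ W) (hK2 : ∀ w ∈ K, dg G w W = 2) (hF : Free G T K) (hr : Ret G W K P x)
    {u : V} {C : Finset V}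
    (hu : u ∈ U) (hC : C ∈ cyc G W') (huC : u ∈ C) : Disjoint C P := by
  have hW' := hG'.deg
  rw [disjoint_left]
  intro v hvC hvP
  obtain ⟨hCU, hCe⟩ := step_new hW' hs hu hC huC
  have huW : u ∉ W := not_mem_W hs hu
  have hPT : ∀ w ∈ P, w ∉ T := fun w hw => ret_T hs hr hw
  obtain ⟨hPW, hPc, hx, hodd, hdeg, hxK, ⟨z, hzK, hzP, hxz⟩, h5⟩ := hr
  obtain ⟨hCW, hCo⟩ := mem_cyc.1 hC
  have huP : u ∉ P := fun h => huW (hPW h)
  have hxP : x ∉ P := fun h => hx (hPW h)
  have hvu : v ≠ u := by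
    rintro rfl
    exact huP hvP
  have h1 : C.erase u ∩ P = C.erase u := by
    refine erase_eq_of_closed hCo huC inter_subset_left
      ⟨v, mem_inter.2 ⟨mem_erase.2 ⟨hvu, hvC⟩, hvP⟩⟩ fun y hy w hw hyw => ?_
    exact mem_inter.2 ⟨hw, hPc y (mem_inter.1 hy).2 w (hCe w hw).1 hyw⟩
  have hPe : (insert x P).erase x = P := erase_insert hxP
  have h2 : P ∩ C = (insert x P).erase x := by
    refine erase_eq_of_closed hodd (mem_insert_self x P) ?_ ⟨v, mem_inter.2 ⟨hvP, hvC⟩⟩
      fun y hy w hw hyw => ?_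
    · rw [hPe]
      exact inter_subset_left
    · rw [hPe] at hw
      exact mem_inter.2 ⟨hw, (dg_eq_two hW' hC (mem_inter.1 hy).2).2.2 w
        (mem_W' hs (hPW hw) (hPT w hw)) hyw⟩
  rw [hPe] at h2
  have h3 : C.erase u = P := by
    apply Subset.antisymm
    · rw [← h1]
      exact inter_subset_right
    · intro w hw
      have hwC : w ∈ C := by
        rw [← h2] at hw
        exact (mem_inter.1 hw).2
      refine mem_erase.2 ⟨?_, hwC⟩
      rintro rfl
      exact huP hw
  by_cases hxu : x = u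
  · subst hxu
    have hzW' : z ∈ W' := mem_W' hs (hKW hzK) fun h => (hF z h).1 hzK
    have hzC : z ∈ C := (dg_eq_two hW' hC huC).2.2 z hzW' hxz
    apply hzP
    rw [← h3]
    exact mem_erase.2 ⟨hxz.ne', hzC⟩
  · have hxW' : x ∉ W' := by
      intro hxW'
      have hxU : x ∈ U := by
        rw [hs.2.2.2.2.2.1, mem_union, mem_sdiff] at hxW'
        rcases hxW' with h | h
        · exact absurd h.1 hx
        · exact h
      obtain ⟨D, hD, hxD, _⟩ := hs.2.2.2.2.2.2 x hxU
      obtain ⟨a, b, _, ha, _, hxa, _⟩ := two_nb (hdeg x (mem_insert_self x P))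
      have haP : a ∈ P := by
        rcases mem_insert.1 ha with h | h
        · exact absurd h hxa.ne'
        · exact h
      have haC : a ∈ C := by
        rw [← h3] at haP
        exact mem_of_mem_erase haP
      have haD : a ∈ D := (dg_eq_two hW' hD hxD).2.2 a (hCW haC) hxa
      have hCD : C = D := cyc_disj hW' hC hD haC haD
      rw [← hCD] at hxD
      exact hxu (hCU x hxD hxU)
    have hR : ∀ r ∈ nb G x W', dg G r W' = 2 := by
      intro r hr'
      obtain ⟨hrW', hxr⟩ := mem_nb.1 hr'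
      have hcase := hrW'
      rw [hs.2.2.2.2.2.1, mem_union, mem_sdiff] at hcase
      rcases hcase with h | h
      · rcases hxK r h.1 hxr with h6 | h6
        · rw [← h3] at h6
          exact dg_mem hW' hC (mem_of_mem_erase h6)
        · exact dg_keep hW' hs hF hKW hK2 h6
      · obtain ⟨D, hD, hrD, _⟩ := hs.2.2.2.2.2.2 r h
        exact dg_mem hW' hD hrD
    have h7 := hG'.out x hxW' (nb G x W') (fun r hr' => (mem_nb.1 hr').1)
      (fun r hr' => (mem_nb.1 hr').2) hR
    have h8 : dg G x (nb G x W') = dg G x W' := by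
      unfold dg
      congr 1
      ext y
      rw [mem_nb, mem_nb]
      exact ⟨fun h => h.1, fun h => ⟨h, h.2⟩⟩
    have h9 := dg_split (G := G) W' x
    omega

/-- A new odd cycle is disjoint from the old ones. -/
theorem Step.sep_cyc (hTri : NoTri G) {W T U W' : Finset V}
    (hW : ∀ v ∈ W, dg G v W ≤ 2) (hW' : ∀ v ∈ W', dg G v W' ≤ 2) (hs : Step G W T U W')
    {u : V} {C C' : Finset V}
    (hu : u ∈ U) (hC : C ∈ cyc G W') (huC : u ∈ C) (hC' : C' ∈ cyc G W) : Disjoint C C' := by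
  rw [disjoint_left]
  intro v hvC hvC'
  obtain ⟨hCU, hCe⟩ := step_new hW' hs hu hC huC
  have huW : u ∉ W := not_mem_W hs hu
  obtain ⟨hCW, hCo⟩ := mem_cyc.1 hC
  obtain ⟨hCW', hCo'⟩ := mem_cyc.1 hC'
  have huC' : u ∉ C' := fun h => huW (hCW' h)
  have hvu : v ≠ u := by
    rintro rfl
    exact huC' hvC'
  have h1 : C.erase u ∩ C' = C.erase u := by
    refine erase_eq_of_closed hCo huC inter_subset_left
      ⟨v, mem_inter.2 ⟨mem_erase.2 ⟨hvu, hvC⟩, hvC'⟩⟩ fun y hy w hw hyw => ?_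
    exact mem_inter.2 ⟨hw, (dg_eq_two hW hC' (mem_inter.1 hy).2).2.2 w (hCe w hw).1 hyw⟩
  have h1' : C.erase u ⊆ C' := by
    rw [← h1]
    exact inter_subset_right
  by_cases hT : ∃ t ∈ C', t ∈ T
  · obtain ⟨t, htC', htT⟩ := hT
    have hTu : ∀ w ∈ C'.erase t, w ∉ T := by
      intro w hw hwT
      obtain ⟨hwt, hwC'⟩ := mem_erase.1 hw
      exact hwt (hs.2.1 C' hC' w hwC' t htC' hwT htT)
    have hvt : v ≠ t := by
      rintro rfl
      exact (hCe v (mem_erase.2 ⟨hvu, hvC⟩)).2 htT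
    have h2 : C ∩ C'.erase t = C'.erase t := by
      refine erase_eq_of_closed hCo' htC' inter_subset_right
        ⟨v, mem_inter.2 ⟨hvC, mem_erase.2 ⟨hvt, hvC'⟩⟩⟩ fun y hy w hw hyw => ?_
      exact mem_inter.2 ⟨(dg_eq_two hW' hC (mem_inter.1 hy).1).2.2 w
        (mem_W' hs (hCW' (mem_of_mem_erase hw)) (hTu w hw)) hyw, hw⟩
    have h3 : C.erase u = C'.erase t := by
      apply Subset.antisymm
      · intro w hw
        refine mem_erase.2 ⟨?_, h1' hw⟩
        rintro rfl
        exact (hCe w hw).2 htT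
      · intro w hw
        have hwC : w ∈ C := by
          rw [← h2] at hw
          exact (mem_inter.1 hw).1
        refine mem_erase.2 ⟨?_, hwC⟩
        rintro rfl
        exact huC' (mem_of_mem_erase hw)
    obtain ⟨a, b, _, ha, _, hta, _⟩ := two_nb (dg_eq_two hW hC' htC').1
    have haC : a ∈ C.erase u := by
      rw [h3]
      exact mem_erase.2 ⟨hta.ne', ha⟩
    have hau : G.Adj a u := adj_of_erase h3 (dg_eq_two hW' hC (mem_of_mem_erase haC)).1
      (dg_eq_two hW hC' ha).1 htC' hta.symm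
    exact hTri a t u hta.symm (hs.2.2.2.2.1 t htT u hu) hau
  · push Not at hT
    have h2 : C' ∈ cyc G W' := mem_cyc.2 ⟨fun w hw => mem_W' hs (hCW' hw) (hT w hw), hCo'⟩
    have h3 : C = C' := cyc_disj hW' hC h2 hvC hvC'
    exact huC' (h3 ▸ huC)

/-- Broken odd cycles stay broken odd cycles. -/
theorem Step.ret [Fintype V] {W T U W' K P : Finset V} {x : V}
    (hG' : Good G W') (hs : Step G W T U W')
    (hKW : K ⊆ W) (hK2 : ∀ w ∈ K, dg G w W = 2) (hF : Free G T K) (hr : Ret G W K P x) :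
    Ret G W' (K ∪ U) P x := by
  have hW' := hG'.deg
  have hPT : ∀ w ∈ P, w ∉ T := fun w hw => ret_T hs hr hw
  have hsep : ∀ u ∈ U, ∀ C ∈ cyc G W', u ∈ C → Disjoint C P := fun u hu C hC huC =>
    Step.sep_ret hG' hs hKW hK2 hF hr hu hC huC
  obtain ⟨hPW, hPc, hx, hodd, hdeg, hxK, ⟨z, hzK, hzP, hxz⟩, h5⟩ := hr
  have hPW' : P ⊆ W' := fun w hw => mem_W' hs (hPW hw) (hPT w hw)
  refine ⟨hPW', fun v hv y hy hvy => ?_, fun hxW' => ?_, hodd, hdeg, fun y hy hxy => ?_,
    ⟨z, mem_union_left U hzK, hzP, hxz⟩, h5⟩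
  · rw [hs.2.2.2.2.2.1, mem_union, mem_sdiff] at hy
    rcases hy with hy | hy
    · exact hPc v hv y hy.1 hvy
    · exfalso
      obtain ⟨C, hC, hyC, _⟩ := hs.2.2.2.2.2.2 y hy
      have hvC : v ∈ C := (dg_eq_two hW' hC hyC).2.2 v (hPW' hv) hvy.symm
      exact (disjoint_left.1 (hsep y hy C hC hyC)) hvC hv
  · have hxU : x ∈ U := by
      rw [hs.2.2.2.2.2.1, mem_union, mem_sdiff] at hxW'
      rcases hxW' with h | h
      · exact absurd h.1 hx
      · exact h
    have hC : insert x P ∈ cyc G W' := mem_cyc.2 ⟨insert_subset hxW' hPW', hodd⟩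
    obtain ⟨a, b, _, ha, _, hxa, _⟩ := two_nb (hdeg x (mem_insert_self x P))
    have haP : a ∈ P := by
      rcases mem_insert.1 ha with h | h
      · exact absurd h hxa.ne'
      · exact h
    exact (disjoint_left.1 (hsep x hxU _ hC (mem_insert_self x P))) ha haP
  · rw [hs.2.2.2.2.2.1, mem_union, mem_sdiff] at hy
    rcases hy with h | h
    · rcases hxK y h.1 hxy with h6 | h6
      · exact Or.inl h6
      · exact Or.inr (mem_union_left U h6)
    · exact Or.inr (mem_union_right K h)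

/-- The marking survives a step which uses unmarked vertices. -/
theorem Step.marked [Fintype V] (hTri : NoTri G) {W T U W' K : Finset V}
    (hG : Good G W) (hG' : Good G W') (hs : Step G W T U W')
    (hF : Free G T K) (hM : Marked G W K) : Marked G W' (K ∪ U) := by
  have hW := hG.deg
  have hW' := hG'.deg
  obtain ⟨hKW, hM2, hK2, hM3⟩ := hM
  have hKT : ∀ w ∈ K, w ∉ T := fun w hw hwT => (hF w hwT).1 hw
  have hsep : ∀ u ∈ U, ∀ C ∈ cyc G W', u ∈ C → ∀ w ∈ C, w ∉ K := by
    intro u hu C hC huC w hw hwK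
    rcases hM3 w hwK with ⟨C', hC', hwC'⟩ | ⟨P, x, hr, hwP⟩
    · exact (disjoint_left.1 (Step.sep_cyc hTri hW hW' hs hu hC huC hC')) hw hwC'
    · exact (disjoint_left.1 (Step.sep_ret hG' hs hKW hK2 hF hr hu hC huC)) hw hwP
  refine ⟨?_, ?_, ?_, ?_⟩
  · intro w hw
    rcases mem_union.1 hw with h | h
    · exact mem_W' hs (hKW h) (hKT w h)
    · exact mem_W'U hs h
  · intro C hC a ha b hb haK hbK
    by_cases hU : ∃ u ∈ C, u ∈ U
    · obtain ⟨u, huC, hu⟩ := hU
      have key : ∀ w ∈ C, w ∈ K ∪ U → w = u := by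
        intro w hw hwKU
        rcases mem_union.1 hwKU with h | h
        · exact absurd h (hsep u hu C hC huC w hw)
        · exact (step_new hW' hs hu hC huC).1 w hw h
      rw [key a ha haK, key b hb hbK]
    · push Not at hU
      obtain ⟨hCW', hCo⟩ := mem_cyc.1 hC
      have hCW : C ⊆ W := by
        intro w hw
        have h1 := hCW' hw
        rw [hs.2.2.2.2.2.1, mem_union, mem_sdiff] at h1
        rcases h1 with h1 | h1
        · exact h1.1
        · exact absurd h1 (hU w hw)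
      have key : ∀ w ∈ C, w ∈ K ∪ U → w ∈ K := by
        intro w hw hwKU
        rcases mem_union.1 hwKU with h | h
        · exact h
        · exact absurd h (hU w hw)
      exact hM2 C (mem_cyc.2 ⟨hCW, hCo⟩) a ha b hb (key a ha haK) (key b hb hbK)
  · intro w hw
    rcases mem_union.1 hw with h | h
    · exact dg_keep hW' hs hF hKW hK2 h
    · obtain ⟨D, hD, hwD, _⟩ := hs.2.2.2.2.2.2 w h
      exact dg_mem hW' hD hwD
  · intro w hw
    rcases mem_union.1 hw with hwK | hwU
    · rcases hM3 w hwK with ⟨C, hC, hwC⟩ | ⟨P, x, hr, hwP⟩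
      · obtain ⟨hCW, hCo⟩ := mem_cyc.1 hC
        by_cases hT : ∃ t ∈ C, t ∈ T
        · obtain ⟨t, htC, htT⟩ := hT
          have hTu : ∀ y ∈ C.erase t, y ∉ T := by
            intro y hy hyT
            obtain ⟨hyt, hyC⟩ := mem_erase.1 hy
            exact hyt (hs.2.1 C hC y hyC t htC hyT htT)
          have hPW' : C.erase t ⊆ W' := fun y hy =>
            mem_W' hs (hCW (mem_of_mem_erase hy)) (hTu y hy)
          refine Or.inr ⟨C.erase t, t, ⟨hPW', fun v hv y hy hvy => ?_, fun htW' => ?_, ?_, ?_,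
            fun y hy hty => ?_, ?_, hG.five t (hCW htC) (dg_mem hW hC htC)⟩,
            mem_erase.2 ⟨?_, hwC⟩⟩
          · rw [hs.2.2.2.2.2.1, mem_union, mem_sdiff] at hy
            rcases hy with hy | hy
            · refine mem_erase.2 ⟨?_, (dg_eq_two hW hC (mem_of_mem_erase hv)).2.2 y hy.1 hvy⟩
              rintro rfl
              exact hy.2 htT
            · exfalso
              obtain ⟨D, hD, hyD, _⟩ := hs.2.2.2.2.2.2 y hy
              have hvD : v ∈ D := (dg_eq_two hW' hD hyD).2.2 v (hPW' hv) hvy.symm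
              exact (disjoint_left.1 (Step.sep_cyc hTri hW hW' hs hy hD hyD hC)) hvD
                (mem_of_mem_erase hv)
          · rw [hs.2.2.2.2.2.1, mem_union, mem_sdiff] at htW'
            rcases htW' with h | h
            · exact h.2 htT
            · exact not_mem_W hs h (hCW htC)
          · rw [insert_erase htC]
            exact hCo
          · rw [insert_erase htC]
            exact fun v hv => (dg_eq_two hW hC hv).1
          · rw [hs.2.2.2.2.2.1, mem_union, mem_sdiff] at hy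
            rcases hy with h | h
            · exact Or.inl (mem_erase.2 ⟨hty.ne', (dg_eq_two hW hC htC).2.2 y h.1 hty⟩)
            · exact Or.inr (mem_union_right K h)
          · obtain ⟨u, hu⟩ := hs.2.2.1
            exact ⟨u, mem_union_right K hu,
              fun h => not_mem_W hs hu (hCW (mem_of_mem_erase h)), hs.2.2.2.2.1 t htT u hu⟩
          · rintro rfl
            exact hKT w hwK htT
        · push Not at hT
          exact Or.inl ⟨C, mem_cyc.2 ⟨fun y hy => mem_W' hs (hCW hy) (hT y hy), hCo⟩, hwC⟩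
      · exact Or.inr ⟨P, x, Step.ret hG' hs hKW hK2 hF hr, hwP⟩
    · obtain ⟨C, hC, hwC, _⟩ := hs.2.2.2.2.2.2 w hwU
      exact Or.inl ⟨C, hC, hwC⟩

/-- The process ends. -/
theorem exists_final [Fintype V] (hT : NoTri G) (Fam : Finset V → Prop)
    (hF : ∀ W, Fam W → Good G W) {W K : Finset V} (hW : Fam W) (hM : Marked G W K) :
    ∃ W' K', Fam W' ∧ Marked G W' K' ∧
      ∀ T U W'', Free G T K' → Step G W' T U W'' → ¬ Fam W'' := by
  have main : ∀ (n : ℕ) (W K : Finset V), Fintype.card V - K.card ≤ n → Fam W → Marked G W K →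
      ∃ W' K', Fam W' ∧ Marked G W' K' ∧
        ∀ T U W'', Free G T K' → Step G W' T U W'' → ¬ Fam W'' := by
    intro n
    induction n with
    | zero =>
      intro W K hn hW hM
      refine ⟨W, K, hW, hM, fun T U W'' hTK hs hF'' => ?_⟩
      obtain ⟨u, hu⟩ := hs.2.2.1
      have huK : u ∉ K := fun h => not_mem_W hs hu (hM.1 h)
      have h1 : K.card < Fintype.card V := by
        rw [← card_univ]
        exact card_lt_card ⟨subset_univ K, fun h => huK (h (mem_univ u))⟩
      omega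
    | succ n ih =>
      intro W K hn hW hM
      by_cases h : ∃ T U W'', Free G T K ∧ Step G W T U W'' ∧ Fam W''
      · obtain ⟨T, U, W'', hTK, hs, hF''⟩ := h
        obtain ⟨u, hu⟩ := hs.2.2.1
        have huK : u ∉ K := fun h => not_mem_W hs hu (hM.1 h)
        have h1 : K.card < (K ∪ U).card :=
          card_lt_card ⟨subset_union_left, fun h => huK (h (mem_union_right K hu))⟩
        have h2 : (K ∪ U).card ≤ Fintype.card V := card_le_univ _
        exact ih W'' (K ∪ U) (by omega) hF''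
          (Step.marked hT (hF W hW) (hF W'' hF'') hs hTK hM)
      · push Not at h
        exact ⟨W, K, hW, hM, h⟩
  exact main _ W K le_rfl hW hM

end Pool.Agent.Lib.MP_7aba48_co_TF
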