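import Pool.Agent.Lib.MP_7aba48_co_G5.ExtB
import Pool.Agent.Lib.MP_7aba48_co_G5.OddB
import Pool.Agent.Lib.MP_7aba48_co_TF.Token

/-!
# The partition
-/

namespace Pool.Agent.Lib.MP_7aba48_co_TF

open Finset Pool.Agent.Lib.MP_7aba48_co_G5

universe u

variable {V : Type u} [DecidableEq V] [Fintype V] {G : SimpleGraph V}

omit [Fintype V] in
private theorem part_dg_union {v : V} {A B : Finset V} (h : Disjoint A B) :
    dg G v (A ∪ B) = dg G v A + dg G v B := by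
  unfold dg
  have h1 : nb G v (A ∪ B) = nb G v A ∪ nb G v B := by
    ext w
    simp only [mem_nb, mem_union]
    tauto
  rw [h1, card_union_of_disjoint]
  rw [disjoint_left] at h ⊢
  intro w hw hw'
  exact h (mem_nb.1 hw).1 (mem_nb.1 hw').1

omit [DecidableEq V] [Fintype V] in
private theorem part_dg_mono {v : V} {A B : Finset V} (h : A ⊆ B) : dg G v A ≤ dg G v B := by
  unfold dg
  refine card_le_card fun w hw => ?_
  rw [mem_nb] at hw ⊢
  exact ⟨h hw.1, hw.2⟩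

/-- Partial transversals: free vertices of odd cycles of `A`, at most one from each. -/
private def FT (G : SimpleGraph V) (A K T : Finset V) : Prop :=
  (∀ t ∈ T, (t ∉ K ∧ ∀ w ∈ K, ¬ G.Adj t w) ∧ ∃ C ∈ cyc G A, t ∈ C) ∧
    ∀ C ∈ cyc G A, ∀ a ∈ C, ∀ b ∈ C, a ∈ T → b ∈ T → a = b

/-- no further step is possible: the main bound -/
private theorem part_clause (hT : NoTri G) (hΔ : ∀ v, dg G v univ ≤ 6) {A K : Finset V}
    (hFA : Fam G A) (h3 : ∀ u, u ∉ A → dg G u Aᶜ ≤ 3)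
    (hfin : ∀ T U W'', Pool.Agent.Lib.MP_7aba48_co_TF.Free G T K →
      Pool.Agent.Lib.MP_7aba48_co_TF.Step G A T U W'' →
      ¬ (Fam G W'' ∧ ∀ u, u ∉ W'' → dg G u W''ᶜ ≤ 3)) :
    ∀ u, u ∉ A → ∀ T, FT G A K T → dg G u Aᶜ + dg G u T ≤ 3 := by
  classical
  by_contra hcon
  push Not at hcon
  obtain ⟨u₀, hu₀, T₀, hPT₀, hlt₀⟩ := hcon
  obtain ⟨T, hTm, hTmin⟩ := exists_min_image
    (univ.filter fun T => FT G A K T ∧ ∃ u, u ∉ A ∧ 3 < dg G u Aᶜ + dg G u T)
    (fun T => T.card) ⟨T₀, mem_filter.2 ⟨mem_univ _, hPT₀, u₀, hu₀, hlt₀⟩⟩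
  obtain ⟨-, hPT, u, hu, hlt⟩ := mem_filter.1 hTm
  have hTA : T ⊆ A := by
    intro t ht
    obtain ⟨C, hC, htC⟩ := (hPT.1 t ht).2
    exact (mem_cyc.1 hC).1 htC
  have hFS : Fam G (A \ T) := fam_sdiff hΔ hFA (fun t ht => (hPT.1 t ht).2) hPT.2
  have hdis : Disjoint Aᶜ T := by
    rw [disjoint_left]
    exact fun w hw hw' => (mem_compl.1 hw) (hTA hw')
  have hcomp : (A \ T)ᶜ = Aᶜ ∪ T := by
    ext w
    simp only [mem_compl, mem_sdiff, mem_union]
    tauto
  have hsum : ∀ v, dg G v (A \ T)ᶜ = dg G v Aᶜ + dg G v T := by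
    intro v
    rw [hcomp, part_dg_union hdis]
  have hle : ∀ v, v ∉ A \ T → dg G v (A \ T)ᶜ ≤ 4 := fun v hv => (hFS.1.out_side hΔ hv).1
  obtain ⟨U, hUdef⟩ : ∃ U : Finset V, U = univ.filter fun v =>
      v ∉ A ∧ dg G v Aᶜ + dg G v T = 4 := ⟨_, rfl⟩
  have hmemU : ∀ v, v ∈ U ↔ v ∉ A ∧ dg G v Aᶜ + dg G v T = 4 := by
    intro v
    rw [hUdef, mem_filter]
    exact ⟨fun h => h.2, fun h => ⟨mem_univ _, h⟩⟩
  have hnot : ∀ v, v ∉ A → v ∉ A \ T := fun v hv h => hv (mem_sdiff.1 h).1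
  have huU : u ∈ U := by
    rw [hmemU]
    refine ⟨hu, ?_⟩
    have h5 := hle u (hnot u hu)
    rw [hsum] at h5
    omega
  have hTne : T.Nonempty := by
    rcases T.eq_empty_or_nonempty with h | h
    · exfalso
      have h5 : dg G u T = 0 := by
        rw [h]
        unfold dg
        rw [card_eq_zero, eq_empty_iff_forall_notMem]
        intro w hw
        exact absurd (mem_nb.1 hw).1 (notMem_empty w)
      have h6 := h3 u hu
      omega
    · exact h
  have hadj : ∀ v ∈ U, ∀ t ∈ T, G.Adj v t := by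
    intro v hv t ht
    by_contra hvt
    have h5 : dg G v (T.erase t) = dg G v T := by
      unfold dg
      congr 1
      ext w
      simp only [mem_nb, mem_erase]
      constructor
      · rintro ⟨⟨_, h6⟩, h7⟩
        exact ⟨h6, h7⟩
      · rintro ⟨h6, h7⟩
        refine ⟨⟨?_, h6⟩, h7⟩
        rintro rfl
        exact hvt h7
    have h6 : FT G A K (T.erase t) := ⟨fun s hs => hPT.1 s (mem_of_mem_erase hs),
      fun C hC a ha b hb haT hbT => hPT.2 C hC a ha b hb (mem_of_mem_erase haT)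
        (mem_of_mem_erase hbT)⟩
    have h7 := (hmemU v).1 hv
    have h8 := hTmin (T.erase t) (mem_filter.2 ⟨mem_univ _, h6, v, h7.1, by omega⟩)
    have h9 := card_erase_add_one ht
    omega
  have hind : ∀ r ∈ U, ∀ s ∈ U, ¬ G.Adj r s := by
    intro r hr s hs
    obtain ⟨t, ht⟩ := hTne
    exact hT r t s (hadj r hr t ht) (hadj s hs t ht).symm
  obtain ⟨hFW, hcyc⟩ := fam_union hΔ hFS (U := U) (fun v hv => ⟨hnot v ((hmemU v).1 hv).1, by
    rw [hsum]
    exact ((hmemU v).1 hv).2⟩) hind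
  refine hfin T U ((A \ T) ∪ U) ?_ ?_ ⟨hFW, ?_⟩
  · exact fun t ht => (hPT.1 t ht).1
  · refine ⟨fun t ht => (hPT.1 t ht).2, hPT.2, ⟨u, huU⟩, ?_, ?_, rfl, hcyc⟩
    · rw [disjoint_left]
      exact fun v hv => ((hmemU v).1 hv).1
    · exact fun t ht v hv => (hadj v hv t ht).symm
  · intro v hv
    rw [mem_union, not_or] at hv
    have h5 := hle v hv.1
    by_cases hvT : v ∈ T
    · have h6 : Disjoint ((A \ T) ∪ U)ᶜ U := by
        rw [disjoint_left]
        exact fun w hw hw' => (mem_compl.1 hw) (mem_union_right _ hw')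
      have h7 : (A \ T)ᶜ = ((A \ T) ∪ U)ᶜ ∪ U := by
        ext w
        simp only [mem_compl, mem_union, mem_sdiff]
        constructor
        · intro h8
          by_cases hwU : w ∈ U
          · exact Or.inr hwU
          · exact Or.inl fun h9 => h9.elim h8 hwU
        · rintro (h8 | h8)
          · exact fun h9 => h8 (Or.inl h9)
          · exact fun h9 => ((hmemU w).1 h8).1 h9.1
      rw [h7, part_dg_union h6] at h5
      have h8 : 1 ≤ dg G v U := by
        unfold dg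
        exact card_pos.2 ⟨u, mem_nb.2 ⟨huU, (hadj u huU v hvT).symm⟩⟩
      omega
    · have hvA : v ∉ A := fun h => hv.1 (mem_sdiff.2 ⟨h, hvT⟩)
      have h6 : dg G v Aᶜ + dg G v T ≠ 4 := fun h => hv.2 ((hmemU v).2 ⟨hvA, h⟩)
      have h7 : dg G v ((A \ T) ∪ U)ᶜ ≤ dg G v (A \ T)ᶜ := by
        apply part_dg_mono
        intro w hw
        rw [mem_compl] at hw ⊢
        exact fun h => hw (mem_union_left _ h)
      rw [hsum] at h5 h7
      omega

omit [DecidableEq V] [Fintype V] in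
private theorem part_two {C : Finset V} {t : V} (h : dg G t C = 2) :
    ∃ a b, a ≠ b ∧ a ∈ C ∧ b ∈ C ∧ G.Adj t a ∧ G.Adj t b := by
  classical
  unfold dg at h
  obtain ⟨a, b, hab, he⟩ := card_eq_two.1 h
  have ha : a ∈ nb G t C := by rw [he]; simp
  have hb : b ∈ nb G t C := by rw [he]; simp
  rw [mem_nb] at ha hb
  exact ⟨a, b, hab, ha.1, hb.1, ha.2, hb.2⟩

omit [Fintype V] in
/-- Odd cycles of a triangle-free graph have at least four vertices. -/
private theorem part_four (hT : NoTri G) {C : Finset V} (hC : OddC G C)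
    (h2 : ∀ v ∈ C, dg G v C = 2) : 4 ≤ C.card := by
  obtain ⟨v, hv⟩ := hC.nonempty
  obtain ⟨a, b, hab, ha, hb, hva, hvb⟩ := part_two (h2 v hv)
  obtain ⟨c, d, hcd, hc, hd, hac, had⟩ := part_two (h2 a ha)
  have hab' : ¬ G.Adj a b := fun h => hT v a b hva h hvb
  obtain ⟨e, he, hae, hev⟩ : ∃ e ∈ C, G.Adj a e ∧ e ≠ v := by
    by_cases h : c = v
    · exact ⟨d, hd, had, fun h' => hcd (h.trans h'.symm)⟩
    · exact ⟨c, hc, hac, h⟩
  have heb : e ≠ b := by
    rintro rfl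
    exact hab' hae
  have h1 : ({v, a, b, e} : Finset V) ⊆ C := by
    intro w hw
    simp only [mem_insert, mem_singleton] at hw
    rcases hw with rfl | rfl | rfl | rfl <;> assumption
  have h3 : ({v, a, b, e} : Finset V).card = 4 := by
    rw [card_insert_of_notMem, card_insert_of_notMem, card_insert_of_notMem, card_singleton]
    · rw [mem_singleton]
      exact heb.symm
    · simp only [mem_insert, mem_singleton, not_or]
      exact ⟨hab, hae.ne⟩
    · simp only [mem_insert, mem_singleton, not_or]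
      exact ⟨hva.ne, hvb.ne, hev.symm⟩
  rw [← h3]
  exact card_le_card h1

omit [Fintype V] in
/-- Every odd cycle has a free vertex. -/
private theorem part_free (hT : NoTri G) {A K C : Finset V} (hW : ∀ v ∈ A, dg G v A ≤ 2)
    (hKA : K ⊆ A) (hK : ∀ C ∈ cyc G A, ∀ a ∈ C, ∀ b ∈ C, a ∈ K → b ∈ K → a = b)
    (hC : C ∈ cyc G A) : ∃ y ∈ C, y ∉ K ∧ ∀ w ∈ K, ¬ G.Adj y w := by
  have hCo := (mem_cyc.1 hC).2
  have h2 : ∀ v ∈ C, dg G v C = 2 := fun v hv => (dg_eq_two hW hC hv).1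
  by_cases hm : ∃ m ∈ C, m ∈ K
  · obtain ⟨m, hmC, hmK⟩ := hm
    have h4 := part_four hT hCo h2
    have h5 : (insert m (nb G m C)).card ≤ 3 := by
      refine (card_insert_le _ _).trans ?_
      have := h2 m hmC
      unfold dg at this
      omega
    obtain ⟨y, hyC, hy⟩ : ∃ y ∈ C, y ∉ insert m (nb G m C) := by
      by_contra hcon
      push Not at hcon
      have h6 : C.card ≤ (insert m (nb G m C)).card := card_le_card hcon
      omega
    rw [mem_insert, not_or, mem_nb] at hy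
    refine ⟨y, hyC, fun hyK => hy.1 (hK C hC y hyC m hmC hyK hmK), fun w hw hyw => ?_⟩
    have hwC : w ∈ C := (dg_eq_two hW hC hyC).2.2 w (hKA hw) hyw
    have hwm : w = m := hK C hC w hwC m hmC hw hmK
    rw [hwm] at hyw
    exact hy.2 ⟨hyC, hyw.symm⟩
  · push Not at hm
    obtain ⟨y, hyC⟩ := hCo.nonempty
    refine ⟨y, hyC, hm y hyC, fun w hw hyw => ?_⟩
    exact hm w ((dg_eq_two hW hC hyC).2.2 w (hKA hw) hyw) hw

/-- A bipartition and a set of vertices in the first side whose removal makes it 2-colourable, and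
which can be added to the second side. -/
theorem exists_part (hT : NoTri G) (hΔ : ∀ v, dg G v univ ≤ 6) :
    ∃ A T : Finset V, T ⊆ A ∧ (∀ s ∈ T, ∀ t ∈ T, ¬ G.Adj s t) ∧ Col2 G (A \ T) ∧
      (∀ t ∈ T, dg G t Aᶜ ≤ 4) ∧ ∀ u, u ∉ A → dg G u Aᶜ + dg G u T ≤ 3 := by
  classical
  obtain ⟨F, hFdef⟩ : ∃ F : Finset V → Prop, F = fun A => Fam G A ∧
      ∀ u, u ∉ A → dg G u Aᶜ ≤ 3 := ⟨_, rfl⟩
  have hF : ∀ W, F W → Good G W := by
    intro W hW
    rw [hFdef] at hW
    refine ⟨fun v hv => (hW.1.1.in_side hΔ hv).1, fun v hv h2 => ?_,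
      fun x hx R hR hxR hR2 => ?_⟩
    · have h1 := ((hW.1.1.in_side hΔ hv).2 h2).1
      have h3 := dg_add_compl (G := G) v W
      omega
    · exact hW.1.1.dg_add_le hΔ hR
        (fun r hr s hs => hT r x s (hxR r hr).symm (hxR s hs)) hR2 hx
  obtain ⟨A₀, hA₀, hmax⟩ := exists_fam G
  have hF₀ : F A₀ := by
    rw [hFdef]
    refine ⟨hA₀, fun u hu => ?_⟩
    by_contra h
    have h1 := (hA₀.1.out_side hΔ hu).1
    have h2 := hmax _ (fam_insert hΔ hA₀ hu (by omega)).1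
    rw [card_insert_of_notMem hu] at h2
    omega
  have hM₀ : Pool.Agent.Lib.MP_7aba48_co_TF.Marked G A₀ ∅ :=
    ⟨empty_subset _, by simp, by simp, by simp⟩
  obtain ⟨A, K, hFA, hM, hfin⟩ :=
    Pool.Agent.Lib.MP_7aba48_co_TF.exists_final hT F hF hF₀ hM₀
  have hW := (hF A hFA).deg
  rw [hFdef] at hFA
  have hclause := part_clause hT hΔ hFA.1 hFA.2 (K := K) (by
    intro T U W'' h1 h2 h3
    refine hfin T U W'' h1 h2 ?_
    rw [hFdef]
    exact h3)
  have hfree : ∀ C, C ∈ cyc G A → ∃ y ∈ C, y ∉ K ∧ ∀ w ∈ K, ¬ G.Adj y w :=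
    fun C hC => part_free hT hW hM.1 hM.2.1 hC
  choose y hyC hyK hyA using hfree
  obtain ⟨T, hTdef⟩ : ∃ T : Finset V, T = univ.filter fun v => ∃ C, ∃ h : C ∈ cyc G A,
      y C h = v := ⟨_, rfl⟩
  have hmem : ∀ v, v ∈ T ↔ ∃ C, ∃ h : C ∈ cyc G A, y C h = v := by
    intro v
    rw [hTdef, mem_filter]
    exact ⟨fun h => h.2, fun h => ⟨mem_univ _, h⟩⟩
  have hone : ∀ C ∈ cyc G A, ∀ a ∈ C, a ∈ T → ∀ h : C ∈ cyc G A, a = y C h := by
    intro C hC a ha haT h
    obtain ⟨C', h', hy⟩ := (hmem a).1 haT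
    have h1 : a ∈ C' := by
      rw [← hy]
      exact hyC C' h'
    have h2 : C = C' := cyc_disj hW hC h' ha h1
    subst h2
    exact hy.symm
  have huniq : ∀ C ∈ cyc G A, ∀ a ∈ C, ∀ b ∈ C, a ∈ T → b ∈ T → a = b := by
    intro C hC a ha b hb haT hbT
    rw [hone C hC a ha haT hC, hone C hC b hb hbT hC]
  have hTA : T ⊆ A := by
    intro t ht
    obtain ⟨C, h, rfl⟩ := (hmem t).1 ht
    exact (mem_cyc.1 h).1 (hyC C h)
  refine ⟨A, T, hTA, ?_, ?_, ?_, ?_⟩
  · intro s hs t ht hst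
    obtain ⟨C, h, rfl⟩ := (hmem s).1 hs
    have htC : t ∈ C := (dg_eq_two hW h (hyC C h)).2.2 t (hTA ht) hst
    have h1 := huniq C h _ (hyC C h) t htC hs ht
    exact hst.ne h1
  · by_contra hcol
    obtain ⟨C, hC⟩ := exists_cyc hcol
    obtain ⟨h1, h2⟩ := mem_cyc.1 hC
    have h3 : C ∈ cyc G A := mem_cyc.2 ⟨h1.trans sdiff_subset, h2⟩
    have h4 := h1 (hyC C h3)
    exact (mem_sdiff.1 h4).2 ((hmem _).2 ⟨C, h3, rfl⟩)
  · intro t ht
    obtain ⟨C, h, rfl⟩ := (hmem t).1 ht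
    have h1 := (dg_eq_two hW h (hyC C h)).2.1
    exact ((hFA.1.1.in_side hΔ (hTA ht)).2 h1).1.le
  · intro u hu
    refine hclause u hu T ⟨fun t ht => ?_, huniq⟩
    obtain ⟨C, h, rfl⟩ := (hmem t).1 ht
    exact ⟨⟨hyK C h, hyA C h⟩, C, h, hyC C h⟩

end Pool.Agent.Lib.MP_7aba48_co_TF
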