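import Mathlib

/-!
# Rado's theorem on independent transversals, for finite vector spaces
-/

namespace Pool.Agent.Lib.MP_7aba48_co_TF

open Finset Module

private theorem rado_key {K M ι : Type*} [Field K] [AddCommGroup M] [Module K M] [Finite M]
    (J : Finset ι) (Λ Λ₁ Λ₂ : ι → Set M) (i : ι)
    (h : ∀ J' ⊆ J, J'.card ≤ finrank K (Submodule.span K (⋃ j ∈ J', Λ j)))
    (h₁ : ∀ j, j ≠ i → Λ₁ j = Λ j) (h₂ : ∀ j, j ≠ i → Λ₂ j = Λ j)
    (hi : ∀ z ∈ Λ i, z ∈ Λ₁ i ∨ z ∈ Λ₂ i)
    (J₁ J₂ : Finset ι) (hJ₁ : J₁ ⊆ J) (hJ₂ : J₂ ⊆ J)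
    (g₁ : finrank K (Submodule.span K (⋃ j ∈ J₁, Λ₁ j)) < J₁.card)
    (g₂ : finrank K (Submodule.span K (⋃ j ∈ J₂, Λ₂ j)) < J₂.card) : False := by
  classical
  have i₁ : i ∈ J₁ := by
    by_contra hn
    have e : (⋃ j ∈ J₁, Λ₁ j) = ⋃ j ∈ J₁, Λ j :=
      Set.iUnion₂_congr fun j hj => h₁ j fun hji => hn (hji ▸ hj)
    rw [e] at g₁
    have := h J₁ hJ₁
    omega
  have i₂ : i ∈ J₂ := by
    by_contra hn
    have e : (⋃ j ∈ J₂, Λ₂ j) = ⋃ j ∈ J₂, Λ j :=
      Set.iUnion₂_congr fun j hj => h₂ j fun hji => hn (hji ▸ hj)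
    rw [e] at g₂
    have := h J₂ hJ₂
    omega
  set X := Submodule.span K (⋃ j ∈ J₁, Λ₁ j) with hX
  set Y := Submodule.span K (⋃ j ∈ J₂, Λ₂ j) with hY
  have sup : Submodule.span K (⋃ j ∈ J₁ ∪ J₂, Λ j) ≤ X ⊔ Y := by
    rw [Submodule.span_le]
    intro z hz
    simp only [Set.mem_iUnion] at hz
    obtain ⟨j, hj, hz⟩ := hz
    rcases eq_or_ne j i with rfl | hji
    · rcases hi z hz with h3 | h3
      · refine Submodule.mem_sup_left (Submodule.subset_span ?_)
        simp only [Set.mem_iUnion]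
        exact ⟨j, i₁, h3⟩
      · refine Submodule.mem_sup_right (Submodule.subset_span ?_)
        simp only [Set.mem_iUnion]
        exact ⟨j, i₂, h3⟩
    · rcases Finset.mem_union.1 hj with h3 | h3
      · refine Submodule.mem_sup_left (Submodule.subset_span ?_)
        simp only [Set.mem_iUnion]
        exact ⟨j, h3, by rw [h₁ j hji]; exact hz⟩
      · refine Submodule.mem_sup_right (Submodule.subset_span ?_)
        simp only [Set.mem_iUnion]
        exact ⟨j, h3, by rw [h₂ j hji]; exact hz⟩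
  have inf : Submodule.span K (⋃ j ∈ (J₁ ∩ J₂).erase i, Λ j) ≤ X ⊓ Y := by
    rw [Submodule.span_le]
    intro z hz
    simp only [Set.mem_iUnion] at hz
    obtain ⟨j, hj, hz⟩ := hz
    have h3 := Finset.mem_erase.1 hj
    have h4 := Finset.mem_inter.1 h3.2
    refine Submodule.mem_inf.2 ⟨Submodule.subset_span ?_, Submodule.subset_span ?_⟩
    · simp only [Set.mem_iUnion]
      exact ⟨j, h4.1, by rw [h₁ j h3.1]; exact hz⟩
    · simp only [Set.mem_iUnion]
      exact ⟨j, h4.2, by rw [h₂ j h3.1]; exact hz⟩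
  have k1 := (h (J₁ ∪ J₂) (Finset.union_subset hJ₁ hJ₂)).trans (Submodule.finrank_mono sup)
  have k2 := (h ((J₁ ∩ J₂).erase i) ((Finset.erase_subset _ _).trans
    (Finset.inter_subset_left.trans hJ₁))).trans (Submodule.finrank_mono inf)
  rw [Finset.card_erase_of_mem (Finset.mem_inter.2 ⟨i₁, i₂⟩)] at k2
  have k3 := Submodule.finrank_sup_add_finrank_inf_eq X Y
  have k4 := Finset.card_union_add_card_inter J₁ J₂
  have k5 : 0 < (J₁ ∩ J₂).card := Finset.card_pos.2 ⟨i, Finset.mem_inter.2 ⟨i₁, i₂⟩⟩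
  omega

private theorem rado_single {K M ι : Type*} [Field K] [AddCommGroup M] [Module K M] [Finite M]
    (J : Finset ι) (Λ : ι → Set M)
    (h : ∀ J' ⊆ J, J'.card ≤ finrank K (Submodule.span K (⋃ j ∈ J', Λ j)))
    (hs : ∀ i ∈ J, ∀ x ∈ Λ i, ∀ y ∈ Λ i, x = y) :
    ∃ v : ι → M, (∀ j ∈ J, v j ∈ Λ j) ∧ LinearIndependent K (fun j : J => v j) := by
  classical
  have hne : ∀ i ∈ J, ∃ x, x ∈ Λ i := by
    intro i hi
    by_contra hn
    push Not at hn
    have h1 := h {i} (Finset.singleton_subset_iff.2 hi)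
    have h2 : (⋃ j ∈ ({i} : Finset ι), Λ j) = ∅ := by
      apply Set.eq_empty_of_forall_notMem
      intro z hz
      simp only [Set.mem_iUnion, Finset.mem_singleton] at hz
      obtain ⟨j, rfl, hz⟩ := hz
      exact hn z hz
    rw [h2, Submodule.span_empty, finrank_bot, Finset.card_singleton] at h1
    omega
  let v : ι → M := fun i => if hi : i ∈ J then (hne i hi).choose else 0
  have hv : ∀ j ∈ J, v j ∈ Λ j := by
    intro j hj
    have e : v j = (hne j hj).choose := dif_pos hj
    rw [e]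
    exact (hne j hj).choose_spec
  refine ⟨v, hv, ?_⟩
  rw [linearIndependent_iff_card_le_finrank_span, Fintype.card_coe, Set.finrank]
  refine (h J (Finset.Subset.refl J)).trans (Submodule.finrank_mono ?_)
  rw [Submodule.span_le]
  intro z hz
  simp only [Set.mem_iUnion] at hz
  obtain ⟨j, hj, hz⟩ := hz
  refine Submodule.subset_span ⟨⟨j, hj⟩, ?_⟩
  exact hs j hj _ (hv j hj) _ hz

private theorem rado_aux {K M ι : Type*} [Field K] [AddCommGroup M] [Module K M] [Finite M]
    (J : Finset ι) (n : ℕ) : ∀ Λ : ι → Set M, ∑ j ∈ J, (Λ j).ncard = n →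
    (∀ J' ⊆ J, J'.card ≤ finrank K (Submodule.span K (⋃ j ∈ J', Λ j))) →
    ∃ v : ι → M, (∀ j ∈ J, v j ∈ Λ j) ∧ LinearIndependent K (fun j : J => v j) := by
  classical
  induction n using Nat.strong_induction_on with
  | _ n ih =>
    intro Λ hn h
    by_cases hs : ∀ i ∈ J, ∀ x ∈ Λ i, ∀ y ∈ Λ i, x = y
    · exact rado_single J Λ h hs
    push Not at hs
    obtain ⟨i, hi, x, hx, y, hy, hxy⟩ := hs
    have step : ∀ z ∈ Λ i,
        (∀ J' ⊆ J, J'.card ≤ finrank K (Submodule.span K
          (⋃ j ∈ J', (Function.update Λ i (Λ i \ {z})) j))) →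
        ∃ v : ι → M, (∀ j ∈ J, v j ∈ Λ j) ∧ LinearIndependent K (fun j : J => v j) := by
      intro z hz hcond
      have hlt : ∑ j ∈ J, ((Function.update Λ i (Λ i \ {z})) j).ncard < n := by
        rw [← hn]
        refine Finset.sum_lt_sum (fun j _ => ?_) ⟨i, hi, ?_⟩
        · rcases eq_or_ne j i with rfl | hji
          · rw [Function.update_self]
            exact Set.ncard_le_ncard Set.sdiff_subset (Set.toFinite _)
          · rw [Function.update_of_ne hji]
        · rw [Function.update_self]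
          exact Set.ncard_sdiff_singleton_lt_of_mem hz (Set.toFinite _)
      obtain ⟨v, hv, hl⟩ := ih _ hlt _ rfl hcond
      refine ⟨v, fun j hj => ?_, hl⟩
      have h1 := hv j hj
      rcases eq_or_ne j i with rfl | hji
      · rw [Function.update_self] at h1
        exact h1.1
      · rw [Function.update_of_ne hji] at h1
        exact h1
    by_contra hno
    have hx' := mt (step x hx) hno
    have hy' := mt (step y hy) hno
    push Not at hx' hy'
    obtain ⟨J₁, hJ₁, g₁⟩ := hx'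
    obtain ⟨J₂, hJ₂, g₂⟩ := hy'
    refine rado_key J Λ _ _ i h (fun j hj => Function.update_of_ne hj _ _)
      (fun j hj => Function.update_of_ne hj _ _) ?_ J₁ J₂ hJ₁ hJ₂ g₁ g₂
    intro z hz
    rw [Function.update_self, Function.update_self]
    rcases eq_or_ne z x with rfl | hzx
    · exact Or.inr ⟨hz, hxy⟩
    · exact Or.inl ⟨hz, hzx⟩

/-- Rado's theorem: if the union of any `k` of the sets spans a space of dimension at least `k`,
there are linearly independent representatives. -/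
theorem rado {K M ι : Type*} [Field K] [AddCommGroup M] [Module K M] [Finite M]
    (J : Finset ι) (Λ : ι → Set M)
    (h : ∀ J' ⊆ J, J'.card ≤ finrank K (Submodule.span K (⋃ j ∈ J', Λ j))) :
    ∃ v : ι → M, (∀ j ∈ J, v j ∈ Λ j) ∧ LinearIndependent K (fun j : J => v j) := by
  exact rado_aux J _ Λ rfl h

/-- The values of linearly independent linear forms can be prescribed. -/
theorem exists_dot {K V ι : Type*} [Field K] [Fintype V] (J : Finset ι) (v : ι → V → K)
    (h : LinearIndependent K (fun j : J => v j)) (c : ι → K) :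
    ∃ φ : V → K, ∀ j ∈ J, ∑ t, v j t * φ t = c j := by
  classical
  let A : Matrix J V K := Matrix.of fun j t => v j t
  have h1 : LinearIndependent K A.row := h
  have h2 := h1.rank_matrix
  have h3 : LinearMap.range A.mulVecLin = ⊤ := by
    apply Submodule.eq_top_of_finrank_eq
    rw [Module.finrank_fintype_fun_eq_card]
    exact h2
  have h4 : (fun j : J => c j) ∈ LinearMap.range A.mulVecLin := h3 ▸ Submodule.mem_top
  obtain ⟨φ, hφ⟩ := h4
  refine ⟨φ, fun j hj => ?_⟩
  exact congrFun hφ ⟨j, hj⟩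

end Pool.Agent.Lib.MP_7aba48_co_TF
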