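import Pool.Agent.Lib.MP_7aba48_co_TF.Supply
import Pool.Agent.Lib.MP_7aba48_co_TF.Hall
import Pool.Agent.Lib.MP_7aba48_co_TF.Extend

/-!
# The strong Hall condition
-/

namespace Pool.Agent.Lib.MP_7aba48_co_TF

open Finset Pool.Agent.Lib.MP_7aba48_co_G5

universe u

variable {V : Type u} [DecidableEq V] [Fintype V] {G : SimpleGraph V}

omit [DecidableEq V] [Fintype V] in
private lemma strong_ed_card [DecidableRel G.Adj] (σ X : Finset V) :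
    ((σ ×ˢ X).filter (fun p => G.Adj p.1 p.2)).card = ed G σ X := by
  rw [Finset.card_filter, Finset.sum_product]
  unfold ed
  refine Finset.sum_congr rfl fun v _ => ?_
  rw [← Finset.card_filter]
  unfold dg
  congr 1
  ext w
  rw [mem_nb, Finset.mem_filter]

omit [Fintype V] in
private lemma strong_blk {S T D : Finset V} (hC : Crit G S T) (hD : Comp G (S \ T) D) :
    Blk G D T := by
  have hsub : ∀ v ∈ D, v ∈ S ∧ v ∉ T := fun v hv => mem_sdiff.1 (hD.1 hv)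
  have hdis : Disjoint D T := by
    rw [disjoint_left]
    exact fun v hv => (hsub v hv).2
  refine ⟨⟨hD.2.1, fun X hX hne hc => ?_⟩, hdis, fun v hv => ?_⟩
  · refine hD.2.2.2 X hX hne fun v hv w hw hvw => ?_
    exact hc v hv w (hD.2.2.1 v (hX hv) w hw hvw) hvw
  · refine le_trans ?_ (hC.deg v (hsub v hv).1 (hsub v hv).2)
    unfold dg
    rw [← card_union_of_disjoint]
    · refine card_le_card fun w hw => ?_
      rw [mem_union, mem_nb, mem_nb] at hw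
      rw [mem_nb]
      rcases hw with h | h
      · exact ⟨(hsub w h.1).1, h.2⟩
      · exact ⟨hC.sub h.1, h.2⟩
    · rw [disjoint_left] at hdis ⊢
      intro w h1 h2
      exact hdis (mem_nb.1 h1).1 (mem_nb.1 h2).1

omit [Fintype V] in
private lemma strong_nbs {S T D : Finset V} (hC : Crit G S T) (hD : Comp G (S \ T) D)
    (hbad : ∃ φ : V → ZMod 3, ¬ Res G D T φ) : (nbs G D T).Nonempty := by
  rw [nonempty_iff_ne_empty]
  intro h0
  obtain ⟨φ, hφ⟩ := hbad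
  have hsub : ∀ v ∈ D, v ∈ S ∧ v ∉ T := fun v hv => mem_sdiff.1 (hD.1 hv)
  obtain ⟨t, ht⟩ := hC.ne
  have hss : D ⊂ S := by
    rw [ssubset_iff_subset_ne]
    refine ⟨fun v hv => (hsub v hv).1, fun h => ?_⟩
    have h1 : t ∈ D := by
      rw [h]
      exact hC.sub ht
    exact (hsub t h1).2 ht
  obtain ⟨f, hf⟩ := hC.col D hss
  apply hφ
  refine ⟨f, fun v hv s hs hvs => ?_, hf⟩
  exfalso
  have h1 : s ∈ nbs G D T := mem_nbs.2 ⟨hs, v, hv, hvs⟩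
  rw [h0] at h1
  exact notMem_empty s h1

/-- Components with a bad `φ` have more neighbours in `T` than their number. -/
theorem strong_hall (hT : NoTri G) {S T : Finset V} (hC : Crit G S T)
    (𝒟 : Finset (Finset V)) (h𝒟 : ∀ D ∈ 𝒟, Comp G (S \ T) D ∧ ∃ φ : V → ZMod 3, ¬ Res G D T φ)
    (hne : 𝒟.Nonempty) : 𝒟.card < (𝒟.biUnion (fun D => nbs G D T)).card := by
  classical
  by_contra hcon
  rw [not_lt] at hcon
  obtain ⟨N', hN'⟩ : ∃ N', N' = 𝒟.biUnion (fun D => nbs G D T) := ⟨_, rfl⟩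
  rw [← hN'] at hcon
  have hN'T : N' ⊆ T := by
    intro t ht
    rw [hN', mem_biUnion] at ht
    obtain ⟨D, _, ht⟩ := ht
    exact (mem_nbs.1 ht).1
  have hsup : ∀ D ∈ 𝒟, ∃ 𝒮 : Finset (Finset V), (∀ σ ∈ 𝒮, Sup G D T σ) ∧
      (∀ σ ∈ 𝒮, ∀ τ ∈ 𝒮, ∀ v, v ∈ σ → v ∈ τ → σ = τ) ∧
      2 ≤ ∑ σ ∈ 𝒮, (ed G σ T - loss σ) := fun D hD =>
    exists_supply hT (strong_blk hC (h𝒟 D hD).1) (strong_nbs hC (h𝒟 D hD).1 (h𝒟 D hD).2)
      (h𝒟 D hD).2
  choose! 𝒮 hS1 hS2 hS3 using hsup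
  obtain ⟨SS, hSS⟩ : ∃ SS, SS = 𝒟.biUnion 𝒮 := ⟨_, rfl⟩
  have hmem : ∀ σ, σ ∈ SS ↔ ∃ D ∈ 𝒟, σ ∈ 𝒮 D := by
    intro σ
    rw [hSS, mem_biUnion]
  have hdisj : ∀ σ ∈ SS, ∀ τ ∈ SS, ∀ v, v ∈ σ → v ∈ τ → σ = τ := by
    intro σ hσ τ hτ v hv hv'
    obtain ⟨D, hD, hσ⟩ := (hmem σ).1 hσ
    obtain ⟨D', hD', hτ⟩ := (hmem τ).1 hτ
    have h1 := Comp.disj (h𝒟 D hD).1 (h𝒟 D' hD').1 ((hS1 D hD σ hσ).1 hv)
      ((hS1 D' hD' τ hτ).1 hv')
    subst h1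
    exact hS2 D hD σ hσ τ hτ v hv hv'
  have hed : ∀ D ∈ 𝒟, ∀ σ ∈ 𝒮 D, ed G σ N' = ed G σ T := by
    intro D hD σ hσ
    unfold ed
    refine sum_congr rfl fun v hv => ?_
    unfold dg
    congr 1
    ext w
    rw [mem_nb, mem_nb]
    refine ⟨fun h => ⟨hN'T h.1, h.2⟩, fun h => ⟨?_, h.2⟩⟩
    rw [hN', mem_biUnion]
    exact ⟨D, hD, mem_nbs.2 ⟨h.1, v, (hS1 D hD σ hσ).1 hv, h.2⟩⟩
  have hf : 2 * N'.card ≤ ∑ σ ∈ SS, (ed G σ N' - loss σ) := by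
    rw [hSS, sum_biUnion]
    · have h1 : ∑ D ∈ 𝒟, 2 ≤ ∑ D ∈ 𝒟, ∑ σ ∈ 𝒮 D, (ed G σ N' - loss σ) := by
        refine sum_le_sum fun D hD => (hS3 D hD).trans (le_of_eq ?_)
        exact sum_congr rfl fun σ hσ => by rw [hed D hD σ hσ]
      rw [sum_const, smul_eq_mul] at h1
      omega
    · intro D hD D' hD' hne'
      rw [Function.onFun, disjoint_left]
      intro σ hσ hσ'
      obtain ⟨v, hv⟩ := (hS1 D hD σ hσ).2.1
      exact hne' (Comp.disj (h𝒟 D hD).1 (h𝒟 D' hD').1 ((hS1 D hD σ hσ).1 hv)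
        ((hS1 D' hD' σ hσ').1 hv))
  have hN'ne : N'.Nonempty := by
    obtain ⟨D, hD⟩ := hne
    obtain ⟨t, ht⟩ := strong_nbs hC (h𝒟 D hD).1 (h𝒟 D hD).2
    refine ⟨t, ?_⟩
    rw [hN', mem_biUnion]
    exact ⟨D, hD, ht⟩
  obtain ⟨Ts, hTs, hTsne, U, hU1, hU2, hU3⟩ := hall_units SS hdisj loss hN'ne hf
  refine extend hC (hTs.trans hN'T) hTsne U ?_ hU2 ?_
  · intro p hp
    obtain ⟨h1, h2, σ, hσ, h3⟩ := hU1 p hp
    obtain ⟨D, hD, hσ⟩ := (hmem σ).1 hσ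
    have h4 := mem_sdiff.1 ((h𝒟 D hD).1.1 ((hS1 D hD σ hσ).1 h3))
    exact ⟨h4.1, h4.2, h1, h2⟩
  · intro D hD _
    by_cases hcase : ∃ σ ∈ SS, σ ⊆ D ∧ σ.card ≠ 1 ∧ ∃ p ∈ U, p.1 ∈ σ
    · left
      obtain ⟨σ, hσ, hσD, hσ1, p, hp, hpσ⟩ := hcase
      obtain ⟨D', hD', hσ'⟩ := (hmem σ).1 hσ
      have h1 := Comp.disj hD (h𝒟 D' hD').1 (hσD hpσ) ((hS1 D' hD' σ hσ').1 hpσ)
      subst h1
      refine ⟨σ, hσD, (hS1 D hD' σ hσ').2.2.resolve_left hσ1, ?_⟩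
      have h2 := hU3 σ hσ
      have h3 : 0 < (U.filter (fun p => p.1 ∈ σ)).card :=
        card_pos.2 ⟨p, mem_filter.2 ⟨hp, hpσ⟩⟩
      have h4 : loss σ = 3 := by
        unfold loss
        rw [if_neg hσ1]
      have h5 := strong_ed_card (G := G) σ Ts
      obtain ⟨P, hP⟩ : ∃ P, P = ((σ ×ˢ Ts).filter (fun p => G.Adj p.1 p.2)) \
        (U.filter (fun p => p.1 ∈ σ)) := ⟨_, rfl⟩
      have h6 : 3 ≤ P.card := by
        have h7 := le_card_sdiff (U.filter (fun p => p.1 ∈ σ))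
          ((σ ×ˢ Ts).filter (fun p => G.Adj p.1 p.2))
        rw [← hP] at h7
        omega
      have h7 : Fintype.card (ZMod 3) ≤ Fintype.card P := by
        rw [ZMod.card, Fintype.card_coe]
        exact h6
      obtain ⟨e⟩ := Function.Embedding.nonempty_of_card_le h7
      have hPm : ∀ q ∈ P, q.1 ∈ σ ∧ q.2 ∈ Ts ∧ G.Adj q.1 q.2 ∧ q ∉ U := by
        intro q h8
        rw [hP, mem_sdiff, mem_filter, mem_product, mem_filter] at h8
        exact ⟨h8.1.1.1, h8.1.1.2, h8.1.2, fun h9 => h8.2 ⟨h9, h8.1.1.1⟩⟩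
      exact ⟨fun i => (e i).1, fun i j hij => e.injective (Subtype.ext hij),
        fun i => hPm _ (e i).2⟩
    · right
      intro p hp hpD
      obtain ⟨_, _, σ, hσ, hpσ⟩ := hU1 p hp
      obtain ⟨D', hD', hσ'⟩ := (hmem σ).1 hσ
      have h1 := Comp.disj hD (h𝒟 D' hD').1 hpD ((hS1 D' hD' σ hσ').1 hpσ)
      subst h1
      have hσ1 : σ.card = 1 := by
        by_contra hσ1
        exact hcase ⟨σ, hσ, (hS1 D hD' σ hσ').1, hσ1, p, hp, hpσ⟩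
      obtain ⟨x, hx⟩ := card_eq_one.1 hσ1
      have hxp : σ = {p.1} := by
        rw [hx, mem_singleton] at hpσ
        rw [hx, hpσ]
      have h2 := hU3 σ hσ
      have h3 : 0 < (U.filter (fun p => p.1 ∈ σ)).card :=
        card_pos.2 ⟨p, mem_filter.2 ⟨hp, hpσ⟩⟩
      have h4 : loss σ = 1 := by
        unfold loss
        rw [if_pos hσ1]
      have h5 : ed G σ Ts = dg G p.1 Ts := by
        unfold ed
        rw [hxp, sum_singleton]
      by_contra hcon2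
      push Not at hcon2
      have h6 : (nb G p.1 Ts).image (fun t => (p.1, t)) ⊆ U.filter (fun p => p.1 ∈ σ) := by
        intro q hq
        rw [mem_image] at hq
        obtain ⟨t, ht, rfl⟩ := hq
        rw [mem_nb] at ht
        exact mem_filter.2 ⟨hcon2 t ht.1 ht.2, hpσ⟩
      have h7 := card_le_card h6
      rw [card_image_of_injective _ (fun s t hst => (Prod.ext_iff.1 hst).2)] at h7
      unfold dg at h5
      omega

end Pool.Agent.Lib.MP_7aba48_co_TF
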