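import Pool.Agent.Lib.MP_7aba48_co_TF.Ends

/-!
# Suppliers
-/

namespace Pool.Agent.Lib.MP_7aba48_co_TF

open Finset Pool.Agent.Lib.MP_7aba48_co_G5

universe u

variable {V : Type u} [DecidableEq V] [Fintype V] {G : SimpleGraph V}

omit [DecidableEq V] [Fintype V] in
private theorem sup_single_neighbour {v s t : V} {N : Finset V} (h1 : dg G v N = 1) (hs : s ∈ N)
    (ht : t ∈ N) (hvs : G.Adj v s) (hvt : G.Adj v t) : t = s := by
  obtain ⟨y, hy⟩ := card_eq_one.1 h1
  have h2 : s ∈ nb G v N := mem_nb.2 ⟨hs, hvs⟩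
  have h3 : t ∈ nb G v N := mem_nb.2 ⟨ht, hvt⟩
  rw [hy, mem_singleton] at h2 h3
  rw [h2, h3]

omit [Fintype V] in
private theorem sup_conn_union {A B : Finset V} (hA : Conn G A) (hB : Conn G B) {c : V}
    (hcA : c ∈ A) (hcB : c ∈ B) : Conn G (A ∪ B) := by
  refine ⟨⟨c, mem_union_left _ hcA⟩, fun X hX hne hcl => ?_⟩
  have hXA : (X ∩ A).Nonempty → A ⊆ X := by
    intro h1
    have h2 := hA.2 (X ∩ A) inter_subset_right h1 (fun v hv w hw hvw => by
      rw [mem_inter] at hv ⊢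
      exact ⟨hcl v hv.1 w (mem_union_left _ hw) hvw, hw⟩)
    exact h2 ▸ inter_subset_left
  have hXB : (X ∩ B).Nonempty → B ⊆ X := by
    intro h1
    have h2 := hB.2 (X ∩ B) inter_subset_right h1 (fun v hv w hw hvw => by
      rw [mem_inter] at hv ⊢
      exact ⟨hcl v hv.1 w (mem_union_right _ hw) hvw, hw⟩)
    exact h2 ▸ inter_subset_left
  obtain ⟨x, hx⟩ := hne
  rcases mem_union.1 (hX hx) with h1 | h1
  · have h2 := hXA ⟨x, mem_inter.2 ⟨hx, h1⟩⟩
    have h3 := hXB ⟨c, mem_inter.2 ⟨h2 hcA, hcB⟩⟩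
    exact Subset.antisymm hX (union_subset h2 h3)
  · have h2 := hXB ⟨x, mem_inter.2 ⟨hx, h1⟩⟩
    have h3 := hXA ⟨c, mem_inter.2 ⟨h2 hcB, hcA⟩⟩
    exact Subset.antisymm hX (union_subset h3 h2)

omit [DecidableEq V] [Fintype V] in
private theorem sup_leaf {D N : Finset V} {v : V} (hv : v ∈ D) (h2 : dg G v N = 2) :
    Sup G D N {v} ∧ 1 ≤ ed G {v} N - loss {v} := by
  refine ⟨⟨singleton_subset_iff.2 hv, singleton_nonempty v, Or.inl (card_singleton v)⟩, ?_⟩
  unfold ed loss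
  rw [sum_singleton, card_singleton, h2]
  simp

omit [Fintype V] in
private theorem sup_block {D N K : Finset V} (h : Blk G D N)
    (hbad : ∃ φ : V → ZMod 3, ¬ Res G D N φ) (hK : K ⊆ D) (hKc : Conn G K)
    (hk : ∀ k ∈ K, Conn G (D.erase k) ∧ dg G k D = 2) :
    Sup G D N K ∧ K.card - 3 ≤ ed G K N - loss K := by
  classical
  have h1 : ∀ k ∈ K, dg G k N = 1 := by
    intro k hk'
    obtain ⟨φ, hφ⟩ := hbad
    have h2 := h.deg_eq hφ (hK hk')
    have h3 := (hk k hk').2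
    omega
  refine ⟨⟨hK, hKc.1, Or.inr fun φ hφ => ?_⟩, ?_⟩
  · intro s hs t ht
    rw [mem_nbs] at hs ht
    obtain ⟨hsN, k0, hk0, hk0s⟩ := hs
    obtain ⟨htN, k1, hk1, hk1t⟩ := ht
    have hX : (K.filter fun k => ∀ t ∈ N, G.Adj k t → φ s = φ t) = K := by
      refine hKc.2 _ (filter_subset _ _) ⟨k0, ?_⟩ ?_
      · rw [mem_filter]
        refine ⟨hk0, fun t' ht' hadj => ?_⟩
        rw [sup_single_neighbour (h1 k0 hk0) hsN ht' hk0s hadj]
      · intro u hu v hv huv
        rw [mem_filter] at hu ⊢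
        refine ⟨hv, fun t' ht' hadj => ?_⟩
        have h2 : 0 < dg G u N := by rw [h1 u hu.1]; exact one_pos
        obtain ⟨s', hs'⟩ := card_pos.1 h2
        rw [mem_nb] at hs'
        rw [hu.2 s' hs'.1 hs'.2]
        exact h.eq_of_adj hφ (hK hu.1) (hK hv) (hk v hv).1 huv (h1 v hv) hs'.1 ht' hs'.2 hadj
    have h2 : k1 ∈ K.filter fun k => ∀ t ∈ N, G.Adj k t → φ s = φ t := by rw [hX]; exact hk1
    exact (mem_filter.1 h2).2 t htN hk1t
  · have h2 : ed G K N = K.card := by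
      unfold ed
      rw [sum_congr rfl h1]
      simp
    have h3 : loss K ≤ 3 := by
      unfold loss
      split_ifs <;> omega
    rw [h2]
    omega

private theorem sup_of_leaf (hT : NoTri G) {D N : Finset V} (h : Blk G D N)
    (hne : (nbs G D N).Nonempty) (hbad : ∃ φ : V → ZMod 3, ¬ Res G D N φ) (h2 : 2 ≤ D.card)
    {v : V} (hv : v ∈ D) (h1 : dg G v D = 1) :
    ∃ 𝒮 : Finset (Finset V), (∀ σ ∈ 𝒮, Sup G D N σ) ∧
      (∀ σ ∈ 𝒮, ∀ τ ∈ 𝒮, ∀ v, v ∈ σ → v ∈ τ → σ = τ) ∧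
      2 ≤ ∑ σ ∈ 𝒮, (ed G σ N - loss σ) := by
  have hleaf : ∀ w ∈ D, dg G w D = 1 → Sup G D N {w} ∧ 1 ≤ ed G {w} N - loss {w} := by
    intro w hw hw1
    refine sup_leaf hw ?_
    obtain ⟨φ, hφ⟩ := hbad
    have h3 := h.deg_eq hφ hw
    omega
  obtain ⟨hs1, hs2⟩ := hleaf v hv h1
  obtain ⟨v', hv', hne', h1'⟩ | ⟨K, hK, hvK, hK4, hKc, hk⟩ :=
    exists_end hT h hne hbad h2 hv
  · obtain ⟨ht1, ht2⟩ := hleaf v' hv' h1'
    have hd : ({v} : Finset V) ≠ {v'} := fun e => hne' (singleton_injective e).symm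
    refine ⟨{{v}, {v'}}, ?_, ?_, ?_⟩
    · intro σ hσ
      rw [mem_insert, mem_singleton] at hσ
      rcases hσ with rfl | rfl
      · exact hs1
      · exact ht1
    · intro σ hσ τ hτ x hx hx'
      rw [mem_insert, mem_singleton] at hσ hτ
      rcases hσ with rfl | rfl <;> rcases hτ with rfl | rfl <;> rw [mem_singleton] at hx hx' <;>
        rw [← hx, ← hx']
    · rw [sum_pair hd]
      omega
  · obtain ⟨ht1, ht2⟩ := sup_block h hbad hK hKc hk
    have hd : ({v} : Finset V) ≠ K := fun e => hvK (e ▸ mem_singleton_self v)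
    refine ⟨{{v}, K}, ?_, ?_, ?_⟩
    · intro σ hσ
      rw [mem_insert, mem_singleton] at hσ
      rcases hσ with rfl | rfl
      · exact hs1
      · exact ht1
    · intro σ hσ τ hτ x hx hx'
      rw [mem_insert, mem_singleton] at hσ hτ
      rcases hσ with rfl | rfl <;> rcases hτ with rfl | rfl
      · rfl
      · rw [mem_singleton] at hx
        exact absurd (hx ▸ hx') hvK
      · rw [mem_singleton] at hx'
        exact absurd (hx' ▸ hx) hvK
      · rfl
    · rw [sum_pair hd]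
      omega

omit [Fintype V] in
private theorem sup_of_large {D N K : Finset V} (h : Blk G D N)
    (hbad : ∃ φ : V → ZMod 3, ¬ Res G D N φ) (hK : K ⊆ D) (hKc : Conn G K)
    (hk : ∀ k ∈ K, Conn G (D.erase k) ∧ dg G k D = 2) (h5 : 5 ≤ K.card) :
    ∃ 𝒮 : Finset (Finset V), (∀ σ ∈ 𝒮, Sup G D N σ) ∧
      (∀ σ ∈ 𝒮, ∀ τ ∈ 𝒮, ∀ v, v ∈ σ → v ∈ τ → σ = τ) ∧
      2 ≤ ∑ σ ∈ 𝒮, (ed G σ N - loss σ) := by
  obtain ⟨h1, h2⟩ := sup_block h hbad hK hKc hk
  refine ⟨{K}, ?_, ?_, ?_⟩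
  · intro σ hσ
    rw [mem_singleton] at hσ
    rw [hσ]
    exact h1
  · intro σ hσ τ hτ _ _ _
    rw [mem_singleton] at hσ hτ
    rw [hσ, hτ]
  · rw [sum_singleton]
    omega

/-- Every connected set with a bad `φ` has disjoint suppliers with total surplus at least two. -/
theorem exists_supply (hT : NoTri G) {D N : Finset V} (h : Blk G D N)
    (hne : (nbs G D N).Nonempty) (hbad : ∃ φ : V → ZMod 3, ¬ Res G D N φ) :
    ∃ 𝒮 : Finset (Finset V), (∀ σ ∈ 𝒮, Sup G D N σ) ∧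
      (∀ σ ∈ 𝒮, ∀ τ ∈ 𝒮, ∀ v, v ∈ σ → v ∈ τ → σ = τ) ∧
      2 ≤ ∑ σ ∈ 𝒮, (ed G σ N - loss σ) := by
  obtain ⟨r0, hr0⟩ := h.conn.1
  by_cases h2 : 2 ≤ D.card
  · obtain ⟨v, hv, _, h1⟩ | ⟨K, hK, _, hK4, hKc, hk⟩ := exists_end hT h hne hbad h2 hr0
    · exact sup_of_leaf hT h hne hbad h2 hv h1
    · obtain ⟨r, hr⟩ := hKc.1
      obtain ⟨v, hv, _, h1⟩ | ⟨K', hK', hrK', hK4', hKc', hk'⟩ :=
        exists_end hT h hne hbad h2 (hK hr)
      · exact sup_of_leaf hT h hne hbad h2 hv h1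
      · by_cases hd : (K ∩ K').Nonempty
        · obtain ⟨c, hc⟩ := hd
          rw [mem_inter] at hc
          refine sup_of_large h hbad (union_subset hK hK') (sup_conn_union hKc hKc' hc.1 hc.2)
            (fun k hkk => ?_) ?_
          · rcases mem_union.1 hkk with h3 | h3
            · exact hk k h3
            · exact hk' k h3
          · have h3 : insert r K' ⊆ K ∪ K' :=
              insert_subset (mem_union_left _ hr) subset_union_right
            have h4 := card_le_card h3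
            rw [card_insert_of_notMem hrK'] at h4
            omega
        · obtain ⟨hs1, hs2⟩ := sup_block h hbad hK hKc hk
          obtain ⟨ht1, ht2⟩ := sup_block h hbad hK' hKc' hk'
          have hne' : K ≠ K' := fun e => hrK' (e ▸ hr)
          have hdis : ∀ x, x ∈ K → x ∉ K' := fun x hx hx' => hd ⟨x, mem_inter.2 ⟨hx, hx'⟩⟩
          refine ⟨{K, K'}, ?_, ?_, ?_⟩
          · intro σ hσ
            rw [mem_insert, mem_singleton] at hσ
            rcases hσ with rfl | rfl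
            · exact hs1
            · exact ht1
          · intro σ hσ τ hτ x hx hx'
            rw [mem_insert, mem_singleton] at hσ hτ
            rcases hσ with rfl | rfl <;> rcases hτ with rfl | rfl
            · rfl
            · exact absurd hx' (hdis x hx)
            · exact absurd hx (hdis x hx')
            · rfl
          · rw [sum_pair hne']
            omega
  · have h1 : D.card = 1 := by
      have h3 := card_pos.2 h.conn.1
      omega
    obtain ⟨v, rfl⟩ := card_eq_one.1 h1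
    have h3 : dg G v {v} = 0 := by
      unfold dg
      rw [card_eq_zero, eq_empty_iff_forall_notMem]
      intro x hx
      rw [mem_nb, mem_singleton] at hx
      exact hx.2.ne hx.1.symm
    have h4 : dg G v N = 3 := by
      obtain ⟨φ, hφ⟩ := hbad
      have h5 := h.deg_eq hφ (mem_singleton_self v)
      omega
    refine ⟨{{v}}, ?_, ?_, ?_⟩
    · intro σ hσ
      rw [mem_singleton] at hσ
      rw [hσ]
      exact ⟨Subset.rfl, singleton_nonempty v, Or.inl (card_singleton v)⟩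
    · intro σ hσ τ hτ _ _ _
      rw [mem_singleton] at hσ hτ
      rw [hσ, hτ]
    · rw [sum_singleton]
      unfold ed loss
      rw [sum_singleton, card_singleton, h4]
      simp

end Pool.Agent.Lib.MP_7aba48_co_TF
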